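import Pool.Agent.Lib.MP_9dcf40_lc.Defs

/-!
# Further definitions of the final theorems
-/

namespace Pool.Agent.Lib.MP_9dcf40_lc

/-- Advice length `2 ^ o((log n) ^ (1 / d))`. For `d = 1` this is `n ^ o(1)`. -/
def Small (d : ℕ) (a : ℕ → ℕ) : Prop :=
  ∀ ε : ℝ, 0 < ε → ∀ᶠ n : ℕ in Filter.atTop,
    (a n : ℝ) ≤ 2 ^ (ε * Real.logb 2 n ^ ((1 : ℝ) / d))

/-- Languages `L` over `A` for which there are a language `B` of the class `C`, advice words `h n` of
length at most `n - n ^ δ`, for some `δ > 0` and all large `n`, such that for infinitely many `n` the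
number of errors is less than `|A| ^ (n - |h n| - n ^ δ)`; an error is a word `x` of length `n` for
which it is not true that `x ∈ L` if and only if the pair of `x` and `h n` is in `B`. -/
def IoNear (C : LangClass) : LangClass := fun A L =>
  ∃ (B : Set (List (A ⊕ Bool))) (h : ℕ → List Bool) (δ : ℝ), C (A ⊕ Bool) B ∧ 0 < δ ∧
    (∀ᶠ n : ℕ in Filter.atTop, ((h n).length : ℝ) ≤ (n : ℝ) - (n : ℝ) ^ δ) ∧
    ∃ᶠ n : ℕ in Filter.atTop,
      ({x : List A | x.length = n ∧
        ¬ (x ∈ L ↔ x.map Sum.inl ++ (h x.length).map Sum.inr ∈ B)}.ncard : ℝ) <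
        (Nat.card A : ℝ) ^ ((n : ℝ) - (h n).length - (n : ℝ) ^ δ)

/-- Languages `L` over `A` for which there are a language `B` of the class `C` and advice words `h n`
of length at most `(log n) ^ c + c` such that for infinitely many `n` there are more than
`(1 / 2 + 2 ^ (- (log n) ^ c)) |A| ^ n` words `x` of length `n` for which it is true that `x ∈ L` if
and only if the pair of `x` and `h n` is in `B`. -/
def IoHeur (C : LangClass) (c : ℕ) : LangClass := fun A L =>
  ∃ (B : Set (List (A ⊕ Bool))) (h : ℕ → List Bool), C (A ⊕ Bool) B ∧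
    (∀ n : ℕ, (h n).length ≤ Nat.log 2 n ^ c + c) ∧
    ∃ᶠ n : ℕ in Filter.atTop,
      ((1 / 2 : ℝ) + (1 / 2) ^ (Nat.log 2 n ^ c)) * (Nat.card A : ℝ) ^ n <
      ({x : List A | x.length = n ∧
        (x ∈ L ↔ x.map Sum.inl ++ (h x.length).map Sum.inr ∈ B)}.ncard : ℝ)

end Pool.Agent.Lib.MP_9dcf40_lc
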