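import Pool.Agent.Lib.MP_9dcf40_lc.Av.SpecM

/-!
# The advice field (`StEAdv`)
-/

namespace Pool.Agent.Lib.MP_9dcf40_lc

namespace EAdv

theorem advF_c (a : DA) : advF .c a = (.c, none) := by
  cases a <;> rfl

theorem advAux_c (f z : List DA) (v : List Bool) (h : advAux z = (.c, v)) :
    advAux (f ++ z) = (.c, v) := by
  induction f with
  | nil => exact h
  | cons a f ih =>
    show ((advF (advAux (f ++ z)).1 a).1,
      (advF (advAux (f ++ z)).1 a).2.toList ++ (advAux (f ++ z)).2) = (Fl.c, v)
    rw [ih, advF_c]
    rfl

theorem advAux_pad (j : ℕ) : advAux (List.replicate j .eState ++ [.hash]) = (.b, []) := by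
  induction j with
  | zero => rfl
  | succ j ih =>
    rw [List.replicate_succ, List.cons_append]
    show ((advF (advAux (List.replicate j .eState ++ [.hash])).1 .eState).1,
      (advF (advAux (List.replicate j .eState ++ [.hash])).1 .eState).2.toList ++
        (advAux (List.replicate j .eState ++ [.hash])).2) = (Fl.b, [])
    rw [ih]
    rfl

theorem advAux_bits (v : List Bool) (z : List DA) (h : advAux z = (.b, [])) :
    advAux (v.map bitL ++ z) = (.b, v) := by
  induction v with
  | nil => exact h
  | cons b v ih =>
    rw [List.map_cons, List.cons_append]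
    show ((advF (advAux (v.map bitL ++ z)).1 (bitL b)).1,
      (advF (advAux (v.map bitL ++ z)).1 (bitL b)).2.toList ++
        (advAux (v.map bitL ++ z)).2) = (Fl.b, b :: v)
    rw [ih]
    cases b <;> rfl

theorem len_le (z : List DA) : (advOf z).length ≤ z.length := by
  induction z with
  | nil => exact le_rfl
  | cons a z ih =>
    show ((advF (advAux z).1 a).2.toList ++ (advAux z).2).length ≤ z.length + 1
    have h1 : (advAux z).2.length ≤ z.length := ih
    have h2 : (advF (advAux z).1 a).2.toList.length ≤ 1 := by
      cases (advF (advAux z).1 a).2 <;> simp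
    rw [List.length_append]
    omega

end EAdv

open EAdv in
/-- The advice field. -/
theorem e_adv : StEAdv := by
  refine ⟨len_le, fun f₁ f₂ v j => ?_⟩
  have h1 : advAux (v.map bitL ++ List.replicate j .eState ++ [.hash]) = (.b, v) := by
    rw [List.append_assoc]
    exact advAux_bits v _ (advAux_pad j)
  have h2 : advAux (.hash :: (v.map bitL ++ List.replicate j .eState ++ [.hash])) = (.c, v) := by
    show ((advF (advAux (v.map bitL ++ List.replicate j .eState ++ [.hash])).1 .hash).1,
      (advF (advAux (v.map bitL ++ List.replicate j .eState ++ [.hash])).1 .hash).2.toList ++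
        (advAux (v.map bitL ++ List.replicate j .eState ++ [.hash])).2) = (Fl.c, v)
    rw [h1]
    rfl
  have h3 := advAux_c f₂ _ v h2
  have h4 := advAux_c [.hash] _ v h3
  have h5 := advAux_c f₁ _ v h4
  exact congrArg Prod.snd h5

end Pool.Agent.Lib.MP_9dcf40_lc
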