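import Pool.Agent.Lib.MP_9dcf40_lc.Av.SpecM

/-!
# One round of the counting loop
-/

namespace Pool.Agent.Lib.MP_9dcf40_lc

theorem e_agree (hL : StELoad) (hS : StESim) (hSc : StEScan) (hLi : StEList) (hR : StERules) :
    StEAgree := by
  intro V _ _ x sp sV m q k l z h s c D hD hI hP hz hs hC hx hq hsp hES hsV
  unfold agreeE evalE
  refine ends_seq (P := fun a D' => (a = true ↔ EAcc V x m k z s) ∧ EInv x m q k D' ∧
    Fr simSt D D') ?_ ?_
  · refine ends_seq (hL V.G x sp m q k z h s D hD hI hP (by omega) (by omega)) ?_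
    rintro _ D₁ hD₁ ⟨hR₁, hF₁⟩
    refine (hS V x sp sV m q k z s D₁ hD₁ hR₁ (by omega) hq (by omega) (hES z s hz hs) hsV).imp ?_
    rintro b D₂ - ⟨h1, h2, h3⟩
    exact ⟨h1, h2, hF₁.trans h3⟩
  · rintro a D₁ hD₁ ⟨ha, hI₁, hF₁⟩
    have hP₁ : EPre z h s D₁ :=
      ⟨(hF₁ .Z (by decide)).trans hP.1, (hF₁ .Y (by decide)).trans hP.2.1, hP.2.2⟩
    have hC₁ : D₁.st .C = c.map .bit := (hF₁ .C (by decide)).trans hC
    refine ends_seq (hSc V.G Bool dStep none .Y false x sp D₁ (by decide) hD₁ hI₁.1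
      (by simpa using hD₁ .Y)) ?_
    rintro t D₂ hD₂ ⟨rfl, hD₂e⟩
    have h1 := hLi.2.2.2.2.2.1 V.G h s false hP.2.2
    rw [← hP₁.2.1] at h1
    rw [h1] at hD₂e ⊢
    rw [Function.update_eq_self] at hD₂e
    subst hD₂e
    simp only [Bool.false_xor]
    by_cases hab : a = dot h s
    · rw [if_pos hab]
      refine ends_seq ((hR V.G x sp _ hD₁).1 true .C c (by decide) hI₁.1 hC₁) ?_
      rintro o D₃ hD₃ ⟨rfl, rfl⟩
      refine ends_pure _ hD₃ ⟨by simpa [EInv] using hI₁, by simpa [EPre] using hP₁,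
        Or.inr ⟨?_, rfl, by simp⟩⟩
      rw [← ha, hab]
    · rw [if_neg hab]
      refine ends_pure _ hD₁ ⟨hI₁, hP₁, Or.inl ⟨?_, rfl, hC₁⟩⟩
      rw [← ha, ← Bool.eq_iff_iff]
      exact hab

end Pool.Agent.Lib.MP_9dcf40_lc
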