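import Pool.Agent.Lib.MP_9dcf40_lc.Av.SpecM
import Pool.Agent.Lib.MP_9dcf40_lc.FContr
import Pool.Agent.Lib.MP_9dcf40_lc.FNumQ

/-!
# The bound for one machine
-/

set_option autoImplicit false

namespace Pool.Agent.Lib.MP_9dcf40_lc

open Filter

namespace EContr

theorem mem_bl : ∀ (n : ℕ) (l : List Bool), l ∈ bl n ↔ l.length = n
  | 0, l => by
    show l ∈ ({[]} : Finset (List Bool)) ↔ _
    rw [Finset.mem_singleton, List.length_eq_zero_iff]
  | n + 1, l => by
    show l ∈ (bl n).image (List.cons false) ∪ (bl n).image (List.cons true) ↔ _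
    rw [Finset.mem_union, Finset.mem_image, Finset.mem_image]
    constructor
    · rintro (⟨s, hs, rfl⟩ | ⟨s, hs, rfl⟩)
      · rw [List.length_cons, (mem_bl n s).1 hs]
      · rw [List.length_cons, (mem_bl n s).1 hs]
    · intro h
      cases l with
      | nil => simp at h
      | cons b s =>
        rw [List.length_cons, Nat.add_right_cancel_iff] at h
        cases b
        · exact Or.inl ⟨s, (mem_bl n s).2 h, rfl⟩
        · exact Or.inr ⟨s, (mem_bl n s).2 h, rfl⟩

theorem card_bl (n : ℕ) : (bl n).card = 2 ^ n := by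
  induction n with
  | zero => rfl
  | succ n ih =>
    show ((bl n).image (List.cons false) ∪ (bl n).image (List.cons true)).card = _
    rw [Finset.card_union_of_disjoint, Finset.card_image_of_injective _ List.cons_injective,
      Finset.card_image_of_injective _ List.cons_injective, ih, pow_succ]
    · ring
    · rw [Finset.disjoint_left]
      intro s h1 h2
      obtain ⟨a, -, rfl⟩ := Finset.mem_image.1 h1
      obtain ⟨b, -, hb⟩ := Finset.mem_image.1 h2
      exact Bool.noConfusion (List.cons.inj hb).1

/-- counting over blocks -/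
theorem count (n a c : ℕ) (han : a ≤ n) (P : List Bool → Prop)
    (h : ∀ r : List Bool, r.length + a = n →
      {s : List Bool | s.length = a ∧ P (s ++ r)}.ncard ≤ c) :
    {x : List Bool | x.length = n ∧ P x}.ncard ≤ 2 ^ (n - a) * c := by
  classical
  have hset : {x : List Bool | x.length = n ∧ P x} =
      ((bl n).filter P : Finset (List Bool)) := by
    ext s
    rw [Finset.mem_coe, Finset.mem_filter, mem_bl]
    rfl
  rw [hset, Set.ncard_coe_finset]
  have hmap : ∀ x ∈ (bl n).filter P, x.drop a ∈ bl (n - a) := by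
    intro x hx
    rw [Finset.mem_filter, mem_bl] at hx
    rw [mem_bl, List.length_drop, hx.1]
  rw [Finset.card_eq_sum_card_fiberwise hmap]
  have hf : ∀ r ∈ bl (n - a), (((bl n).filter P).filter fun x => x.drop a = r).card ≤ c := by
    intro r hr
    rw [mem_bl] at hr
    refine le_trans ?_ (h r (by omega))
    rw [← Set.ncard_coe_finset]
    have hfin : {s : List Bool | s.length = a ∧ P (s ++ r)}.Finite :=
      (bl a).finite_toSet.subset fun s hs => (mem_bl a s).2 hs.1
    refine Set.ncard_le_ncard_of_injOn (fun x => x.take a) ?_ ?_ hfin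
    · intro x hx
      rw [Finset.mem_coe, Finset.mem_filter, Finset.mem_filter, mem_bl] at hx
      obtain ⟨⟨h1, h2⟩, h3⟩ := hx
      refine ⟨?_, ?_⟩
      · rw [List.length_take, h1]
        exact min_eq_left han
      · show P (x.take a ++ r)
        rw [← h3, List.take_append_drop]
        exact h2
    · intro x hx y hy hxy
      rw [Finset.mem_coe, Finset.mem_filter] at hx hy
      rw [← List.take_append_drop a x, ← List.take_append_drop a y, hx.2, hy.2]
      exact congrArg (· ++ r) hxy
  refine (Finset.sum_le_sum hf).trans (le_of_eq ?_)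
  rw [Finset.sum_const, card_bl, smul_eq_mul]

/-- acceptance through the universal machine -/
theorem key (hU : StUCorr) (nd : Bool) (M : TM (Bool ⊕ Bool)) (hM : nd = false → M.IsDet)
    (S : TM DB) (F : FM DB)
    (hF : ∀ (x : List DB) (ch : ℕ → Bool) (t : ℕ),
      F.toTM.out (F.toTM.run x ch t).q = S.out (S.run x ch t).q)
    (x w : List Bool) (f₃ : List DA) (T m : ℕ)
    (hs1 : ∀ (ch : ℕ → Bool) (t : ℕ), t ≤ (code F).length + (w.map bitL).length + f₃.length + 3 →
      S.out (S.run (pairL (code F ++ .hash :: (w.map bitL ++ .hash :: (f₃ ++ .hash ::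
        x.map bitL))) w) ch t).q = none)
    (hs2 : ∀ (ch : ℕ → Bool) (t : ℕ),
      S.out (S.run (pairL (code F ++ .hash :: (w.map bitL ++ .hash :: (f₃ ++ .hash ::
        x.map bitL))) w) ch ((code F).length + (w.map bitL).length + f₃.length + 4 + t)).q =
      M.out (M.run (pairL x w)
        (fun i => ch ((code F).length + (w.map bitL).length + f₃.length + 4 + i)) t).q)
    (hT : M.HaltsIn (pairL x w) T)
    (hTm : T + ((code F).length + (w.map bitL).length + f₃.length + 4) ≤ 2 ^ m) :
    padL (instX F w (f₃ ++ .hash :: x.map bitL)) (2 ^ m) ∈ KU nd ↔ M.Accepts (pairL x w) := by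
  set Q : ℕ := (code F).length + (w.map bitL).length + f₃.length + 4 with hQ
  have hacc := FContr.accepts_iff M (pairL x w) T hT
  have hone : ∀ c : ℕ → Bool,
      uEval (padL (instX F w (f₃ ++ .hash :: x.map bitL)) (2 ^ m)) c = true →
        ∃ t, M.out (M.run (pairL x w) (fun i => c (Q + i)) t).q = some true := by
    intro c hc
    obtain ⟨t, -, ho⟩ := (hU F w _ (2 ^ m) c).1 hc
    rw [hF] at ho
    by_cases ht : t ≤ (code F).length + (w.map bitL).length + f₃.length + 3
    · have h1 := hs1 c t ht
      rw [instX] at ho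
      rw [h1] at ho
      exact absurd ho (by simp)
    · obtain ⟨t', rfl⟩ := Nat.exists_eq_add_of_le (show Q ≤ t by omega)
      refine ⟨t', ?_⟩
      rw [← hs2 c t']
      exact ho
  have htwo : ∀ (c : ℕ → Bool) (t : ℕ), t ≤ T →
      M.out (M.run (pairL x w) (fun i => c (Q + i)) t).q = some true →
        uEval (padL (instX F w (f₃ ++ .hash :: x.map bitL)) (2 ^ m)) c = true := by
    intro c t ht ho
    refine (hU F w _ (2 ^ m) c).2 ⟨Q + t, by omega, ?_⟩
    rw [hF]
    rw [← hs2 c t] at ho
    exact ho
  cases nd with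
  | true =>
    have e : (padL (instX F w (f₃ ++ .hash :: x.map bitL)) (2 ^ m) ∈ KU true) =
      ∃ c, uEval (padL (instX F w (f₃ ++ .hash :: x.map bitL)) (2 ^ m)) c = true := rfl
    rw [e]
    constructor
    · rintro ⟨c, hc⟩
      obtain ⟨t, ht⟩ := hone c hc
      exact ⟨_, t, ht⟩
    · intro h
      obtain ⟨ch, t, ht, ho⟩ := hacc.1 h
      refine ⟨fun i => ch (i - Q), htwo _ t ht ?_⟩
      have h1 : (fun i => (fun i => ch (i - Q)) (Q + i)) = ch := by
        funext i
        show ch (Q + i - Q) = ch i
        rw [Nat.add_sub_cancel_left]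
      rw [h1]
      exact ho
  | false =>
    have e : (padL (instX F w (f₃ ++ .hash :: x.map bitL)) (2 ^ m) ∈ KU false) =
      (uEval (padL (instX F w (f₃ ++ .hash :: x.map bitL)) (2 ^ m)) (fun _ => false) = true) := rfl
    rw [e]
    constructor
    · intro hc
      obtain ⟨t, ht⟩ := hone _ hc
      exact ⟨_, t, ht⟩
    · intro h
      obtain ⟨ch, t, ht, ho⟩ := hacc.1 h
      refine htwo _ t ht ?_
      rw [FContr.run_det M (hM rfl)] at ho
      exact ho

end EContr

open EContr in
/-- The bound for one machine. -/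
theorem e_contr (hD : StEDiag) (hS : StESk) (hN : StNorm) (hU : StUCorr) (hA : StEAdv) :
    StEContr := by
  intro nd B v d e₁ hB hKB
  obtain ⟨V, hVdet, ⟨k, hVspace⟩, hVacc⟩ := hB
  obtain ⟨L, hLin, hLn⟩ := hD V k d e₁ hVdet hVspace
  refine ⟨L, hLin, fun M hM => ?_⟩
  obtain ⟨S, hSp⟩ := hS M
  obtain ⟨F, hF⟩ := hN DB S
  refine ⟨(code F).length + 3, ?_⟩
  filter_upwards [hLn, FNumQAux.poly_size_le 6 e₁ (show (0 : ℝ) < 1 by norm_num)] with n hn hsz
  intro w T hlen hTm hhalt
  set ℓ : ℕ := (Nat.size n + 1) ^ e₁ with hℓ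
  set m : ℕ := (Nat.size n + 1) ^ (d + 1) with hm
  have h6 : 6 * ℓ ≤ n := by
    rw [Real.rpow_one] at hsz
    exact_mod_cast hsz
  have hℓ1 : 1 ≤ ℓ := Nat.one_le_pow _ _ (by omega)
  set a : List Bool := v (n + ℓ + 2 ^ m) with ha
  set j : ℕ := ℓ - ((code F).length + 3 + w.length + a.length) with hj
  set f₃ : List DA := a.map bitL ++ List.replicate j .eState with hf3
  set z : List DA := code F ++ .hash :: (w.map bitL ++ .hash ::
    (a.map bitL ++ List.replicate j .eState ++ [.hash])) with hz
  have hzl : z.length = ℓ := by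
    rw [hz]
    simp only [List.length_append, List.length_cons, List.length_map, List.length_replicate,
      List.length_nil]
    omega
  have hf3l : (code F).length + (w.map bitL).length + f₃.length + 3 = ℓ := by
    rw [hf3]
    simp only [List.length_append, List.length_map, List.length_replicate]
    omega
  have hadv : advOf z = a := hA.2 (code F) (w.map bitL) a j
  have hh3 : DA.hash ∉ f₃ := by
    rw [hf3]
    intro h
    rcases List.mem_append.1 h with h | h
    · exact FContr.hash_bitL a h
    · exact absurd (List.eq_of_mem_replicate h) (by decide)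
  have hzx : ∀ x : List Bool, z ++ x.map bitL = instX F w (f₃ ++ .hash :: x.map bitL) := by
    intro x
    rw [hz, hf3, instX]
    simp only [List.append_assoc, List.cons_append, List.nil_append]
  have hkey : ∀ x : List Bool, x.length = n →
      (V.Accepts (eword z x m) ↔ M.Accepts (pairL x w)) := by
    intro x hx
    have h1 : eword z x m = pairL (padL (z ++ x.map bitL) (2 ^ m)) a := by
      rw [eword, hadv]
    have h2 : (padL (z ++ x.map bitL) (2 ^ m)).length = n + ℓ + 2 ^ m := by
      rw [padL]
      simp only [List.length_append, List.length_map, List.length_replicate, hzl, hx]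
      omega
    have h3 := hKB (padL (z ++ x.map bitL) (2 ^ m))
    rw [h2, ← ha, hVacc] at h3
    rw [h1, ← h3, hzx]
    obtain ⟨k1, k2⟩ := hSp (code F) (w.map bitL) f₃ x w (FContr.hash_code F)
      (FContr.hash_bitL w) hh3
    exact key hU nd M hM S F hF x w f₃ T m k1 k2 (hhalt x hx) (by omega)
  have hcount := count n (6 * ℓ) (2 ^ (6 * ℓ - 1) + 2 ^ (5 * ℓ - 1)) h6
    (fun x => x ∈ L ↔ M.Accepts (pairL x w)) (fun r hr => by
      obtain ⟨h, hh, hL, hz'⟩ := hn r hr
      have h1 := hz' z hzl
      have h2 : {s : List Bool | s.length = 6 * ℓ ∧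
          (s ++ r ∈ L ↔ M.Accepts (pairL (s ++ r) w))} =
          {s : List Bool | s.length = 6 * ℓ ∧
            (V.Accepts (eword z (s ++ r) m) ↔ dot h s = true)} := by
        ext s
        constructor
        · rintro ⟨hs, hs2⟩
          refine ⟨hs, ?_⟩
          rw [hkey (s ++ r) (by rw [List.length_append, hs]; omega), ← hL s hs]
          exact hs2.symm
        · rintro ⟨hs, hs2⟩
          refine ⟨hs, ?_⟩
          rw [hkey (s ++ r) (by rw [List.length_append, hs]; omega), ← hL s hs] at hs2
          exact hs2.symm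
      rw [h2]
      exact h1.le)
  refine hcount.trans (le_of_eq ?_)
  have e1 : n - 6 * ℓ + (6 * ℓ - 1) = n - 1 := by omega
  have e2 : n - 6 * ℓ + (5 * ℓ - 1) = n - 1 - ℓ := by omega
  rw [mul_add, ← pow_add, ← pow_add, e1, e2]

end Pool.Agent.Lib.MP_9dcf40_lc
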