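import Pool.Agent.Lib.MP_9dcf40_lc.Av.Rules

/-!
# The generic copy routine (`StECopy`)
-/

namespace Pool.Agent.Lib.MP_9dcf40_lc

open Rout

namespace ECopy

/-- One round of a loop. -/
theorem ends_unroll {A Γ ι β τ : Type} [DecidableEq ι] [Finite τ] {x : List A} {s : ℕ}
    {D : Data Γ ι} {Q : β → Data Γ ι → Prop} {body : τ → Rout A Γ ι (τ ⊕ β)} {t : τ}
    (h : Ends x (body t) s D fun r D' =>
      (∀ t', r = .inl t' → Ends x (Rout.iter body t') s D' Q) ∧ ∀ b, r = .inr b → Q b D') :
    Ends x (Rout.iter body t) s D Q := by
  intro c
  obtain ⟨T, r, D', hr, h1, h2⟩ := h c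
  rcases r with t' | b
  · obtain ⟨T', b, D'', hr', hq⟩ := h1 t' rfl c
    exact ⟨_, b, D'', runs_iter_step hr hr', hq⟩
  · exact ⟨_, b, D', runs_iter_done hr, h2 b rfl⟩

theorem update_self_of {Γ : Type} (st : EN → List Γ) (i : EN) (l : List Γ) (h : st i = l) :
    Function.update st i l = st := by
  subst h
  exact Function.update_eq_self i st

theorem emit_len {α τ : Type} (f : τ → α → τ × Option α) (t₀ : τ) (v l : List α) :
    (emit f t₀ l).2.length ≤ (emit f t₀ (v ++ l)).2.length := by
  induction v with
  | nil => exact le_rfl
  | cons a v ih =>
    show _ ≤ ((f (emit f t₀ (v ++ l)).1 a).2.toList ++ (emit f t₀ (v ++ l)).2).length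
    rw [List.length_append]
    omega

variable {G : Type} [Finite G] {τ : Type} [Finite τ]

/-- The body of the loop of `copyR`. -/
abbrev body (f : τ → EG G → τ × Option (EG G)) (i j : EN) (t : τ) : ER G (τ ⊕ Unit) :=
  (pop .T).bind fun o =>
    match o with
    | none => pureR (.inr ())
    | some a => (push i a).bind fun _ =>
      (match (f t a).2 with
        | none => pureR ()
        | some g => push j g : ER G Unit).bind fun _ => pureR (.inl (f t a).1)

theorem loop (f : τ → EG G → τ × Option (EG G)) (i j : EN) (hi : i ≠ .T) (hj : j ≠ .T)
    (hij : i ≠ j) (t₀ : τ) (x : List Bool) (s : ℕ) (J : List (EG G)) (w : List (EG G)) :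
    ∀ (l : List (EG G)) (D : Data (EG G) EN), D.le s → D.st .T = w → D.st i = l →
      D.st j = (emit f t₀ l).2 ++ J → w.length + l.length ≤ s →
      (emit f t₀ (w.reverse ++ l)).2.length + J.length ≤ s →
      Ends x (iter (body f i j) (emit f t₀ l).1) s D fun _ D' =>
        D' = ⟨D.pos, Function.update (Function.update (Function.update D.st .T []) i
          (w.reverse ++ l)) j ((emit f t₀ (w.reverse ++ l)).2 ++ J)⟩ := by
  induction w with
  | nil =>
    intro l D hD hT hl hJ hs hs'
    refine ends_unroll ?_
    refine ends_bind ?_
    refine ends_pop .T hD ?_
    have h1 : Function.update D.st .T (D.st .T).tail = D.st := by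
      rw [hT]
      exact update_self_of _ _ _ hT
    rw [h1, hT]
    refine ends_pure _ hD ⟨fun t' ht => absurd ht (by simp), fun b hb => ?_⟩
    rw [update_self_of D.st .T [] hT, List.reverse_nil, List.nil_append,
      update_self_of D.st i l hl, update_self_of D.st j _ hJ]
  | cons a w ih =>
    intro l D hD hT hl hJ hs hs'
    have hs1 : w.length + 1 + l.length ≤ s := by simpa using hs
    refine ends_unroll ?_
    refine ends_seq (P := fun o D' => o = some a ∧
      D' = ⟨D.pos, Function.update D.st .T w⟩) (ends_pop .T hD ?_) ?_
    · rw [hT]
      exact ⟨rfl, rfl⟩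
    rintro o D' hD' ⟨rfl, rfl⟩
    dsimp only
    have h2 : Function.update D.st .T w i = l := by
      rw [Function.update_of_ne hi, hl]
    refine ends_seq (P := fun _ D' => D' =
      ⟨D.pos, Function.update (Function.update D.st .T w) i (a :: l)⟩)
      (ends_push i a hD' ?_ ?_) ?_
    · show (Function.update D.st .T w i).length + 1 ≤ s
      rw [h2]
      omega
    · show (⟨D.pos, _⟩ : Data (EG G) EN) = _
      dsimp only
      rw [h2]
    rintro _ D' hD'' rfl
    have h3 : Function.update (Function.update D.st .T w) i (a :: l) j =
        (emit f t₀ l).2 ++ J := by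
      rw [Function.update_of_ne (Ne.symm hij), Function.update_of_ne hj, hJ]
    have h4 : emit f t₀ (a :: l) = ((f (emit f t₀ l).1 a).1,
      (f (emit f t₀ l).1 a).2.toList ++ (emit f t₀ l).2) := rfl
    have h5 : (emit f t₀ (a :: l)).2.length + J.length ≤ s := by
      have h6 := emit_len f t₀ w.reverse (a :: l)
      rw [List.reverse_cons, List.append_assoc, List.singleton_append] at hs'
      omega
    have h7 : ∀ D' : Data (EG G) EN, D'.le s →
        D' = ⟨D.pos, Function.update (Function.update (Function.update D.st .T w) i (a :: l)) j
          ((emit f t₀ (a :: l)).2 ++ J)⟩ →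
        Ends x (pureR (.inl (f (emit f t₀ l).1 a).1) : ER G (τ ⊕ Unit)) s D' fun r D' =>
          (∀ t', r = .inl t' → Ends x (iter (body f i j) t') s D' fun _ D' =>
            D' = ⟨D.pos, Function.update (Function.update (Function.update D.st .T []) i
              ((a :: w).reverse ++ l)) j ((emit f t₀ ((a :: w).reverse ++ l)).2 ++ J)⟩) ∧
          ∀ b, r = .inr b → D' = ⟨D.pos, Function.update (Function.update
            (Function.update D.st .T []) i ((a :: w).reverse ++ l)) j
            ((emit f t₀ ((a :: w).reverse ++ l)).2 ++ J)⟩ := by
      intro D' hD3 hD4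
      refine ends_pure _ hD3 ⟨fun t' ht => ?_, fun b hb => absurd hb (by simp)⟩
      simp only [Sum.inl.injEq] at ht
      subst ht
      subst hD4
      have h8 : (a :: w).reverse ++ l = w.reverse ++ (a :: l) := by
        rw [List.reverse_cons, List.append_assoc, List.singleton_append]
      rw [h8] at hs' ⊢
      have h9 := ih (a :: l) _ hD3 (by
          show Function.update (Function.update (Function.update D.st .T w) i (a :: l)) j
            ((emit f t₀ (a :: l)).2 ++ J) .T = w
          rw [Function.update_of_ne (Ne.symm hj), Function.update_of_ne (Ne.symm hi),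
            Function.update_self]) (by
          show Function.update (Function.update (Function.update D.st .T w) i (a :: l)) j
            ((emit f t₀ (a :: l)).2 ++ J) i = a :: l
          rw [Function.update_of_ne hij, Function.update_self]) (by
          show Function.update (Function.update (Function.update D.st .T w) i (a :: l)) j
            ((emit f t₀ (a :: l)).2 ++ J) j = _
          rw [Function.update_self]) (by
          simp only [List.length_cons]
          omega) hs'
      refine h9.imp ?_
      rintro _ D' - rfl
      refine congrArg (Data.mk D.pos) ?_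
      funext k
      by_cases hk : k = j
      · subst hk
        rw [Function.update_self, Function.update_self]
      · rw [Function.update_of_ne hk, Function.update_of_ne hk]
        by_cases hk' : k = i
        · subst hk'
          rw [Function.update_self, Function.update_self]
        · rw [Function.update_of_ne hk', Function.update_of_ne hk']
          by_cases hk'' : k = .T
          · subst hk''
            rw [Function.update_self, Function.update_self]
          · rw [Function.update_of_ne hk'', Function.update_of_ne hk'']
            show Function.update (Function.update (Function.update D.st .T w) i (a :: l)) j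
              ((emit f t₀ (a :: l)).2 ++ J) k = _
            rw [Function.update_of_ne hk, Function.update_of_ne hk', Function.update_of_ne hk'']
    cases hg : (f (emit f t₀ l).1 a).2 with
    | none =>
      refine ends_bind (ends_pure _ hD'' ?_)
      refine h7 _ hD'' ?_
      refine congrArg (Data.mk D.pos) ?_
      rw [h4, hg]
      exact (update_self_of _ _ _ h3).symm
    | some g =>
      refine ends_seq (P := fun _ D' => D' = ⟨D.pos, Function.update (Function.update
        (Function.update D.st .T w) i (a :: l)) j ((emit f t₀ (a :: l)).2 ++ J)⟩)
        (ends_push j g hD'' ?_ ?_) ?_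
      · show (Function.update (Function.update D.st .T w) i (a :: l) j).length + 1 ≤ s
        rw [h3]
        rw [h4, hg] at h5
        simp only [Option.toList_some, List.length_append, List.length_cons,
          List.length_nil] at h5 ⊢
        omega
      · show (⟨D.pos, Function.update _ _ (g :: Function.update (Function.update D.st .T w) i
          (a :: l) j)⟩ : Data (EG G) EN) = _
        rw [h3, h4, hg]
        rfl
      · intro _ D' hD3 hD4
        exact h7 D' hD3 hD4

end ECopy

open ECopy in
/-- Copies. -/
theorem e_copy (hX : StXfer) : StECopy := by
  intro G _ τ _ f i j t₀ x s D hi hj hij hD hT hs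
  unfold copyR
  refine ends_seq (P := fun _ D' => D' = ⟨D.pos, Function.update (Function.update D.st i []) .T
    (D.st i).reverse⟩) (ends_xfer hX i .T hi hD ?_ ?_) ?_
  · rw [hT]
    simpa using hD i
  · rw [hT, List.append_nil]
  rintro _ D' hD' rfl
  have h1 : Function.update (Function.update D.st i []) .T (D.st i).reverse i = [] := by
    rw [Function.update_of_ne hi, Function.update_self]
  have h2 : Function.update (Function.update D.st i []) .T (D.st i).reverse j = D.st j := by
    rw [Function.update_of_ne hj, Function.update_of_ne (Ne.symm hij)]
  have h0 : Function.update (Function.update D.st i []) .T (D.st i).reverse .T =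
      (D.st i).reverse := Function.update_self _ _ _
  have h3 := loop f i j hi hj hij t₀ x s (D.st j) (D.st i).reverse []
    ⟨D.pos, Function.update (Function.update D.st i []) .T (D.st i).reverse⟩ hD'
    h0 h1 h2 (by simpa using hD i) (by simpa using hs)
  refine h3.imp ?_
  rintro _ D' - rfl
  refine congrArg (Data.mk D.pos) ?_
  rw [List.reverse_reverse, List.append_nil]
  funext k
  by_cases hk : k = j
  · subst hk
    rw [Function.update_self, Function.update_self]
  · rw [Function.update_of_ne hk, Function.update_of_ne hk]
    by_cases hk' : k = i
    · subst hk'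
      rw [Function.update_self]
    · rw [Function.update_of_ne hk']
      by_cases hk'' : k = .T
      · subst hk''
        rw [Function.update_self, hT]
      · rw [Function.update_of_ne hk'']
        show Function.update (Function.update D.st i []) .T (D.st i).reverse k = _
        rw [Function.update_of_ne hk'', Function.update_of_ne hk']

end Pool.Agent.Lib.MP_9dcf40_lc
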