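import Pool.Agent.Lib.MP_9dcf40_lc.Av.Rules

/-!
# The counting loop
-/

namespace Pool.Agent.Lib.MP_9dcf40_lc

open Rout

namespace ECount

/-- The start value of the counter. -/
def c0 (l : ℕ) : List Bool :=
  List.replicate (5 * l - 1) false ++ (List.replicate l true ++ [false])

theorem c0_length {l : ℕ} (hl : 1 ≤ l) : (c0 l).length = 6 * l := by
  unfold c0
  simp only [List.length_append, List.length_replicate, List.length_cons, List.length_nil]
  omega

theorem val_append (a b : List Bool) : val (a ++ b) = val a + 2 ^ a.length * val b := by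
  induction a with
  | nil => simp [val]
  | cons c a ih =>
    rw [List.cons_append, List.length_cons, pow_succ]
    show (if c then 1 else 0) + 2 * val (a ++ b) = (if c then 1 else 0) + 2 * val a + _
    rw [ih]
    ring

theorem c0_val (hC : StCount) {l : ℕ} (hl : 1 ≤ l) :
    val (c0 l) + (2 ^ (6 * l - 1) + 2 ^ (5 * l - 1)) = 2 ^ (6 * l) := by
  obtain ⟨-, -, h1, h2, -⟩ := hC
  unfold c0
  have h3 : val [false] = 0 := rfl
  rw [val_append, val_append, h2, h3, List.length_replicate, List.length_replicate, mul_zero,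
    add_zero, zero_add]
  have h4 : val (List.replicate l true) + 1 = 2 ^ l := h1 l
  have e1 : (2 : ℕ) ^ (6 * l) = 2 ^ (6 * l - 1) * 2 := by
    rw [← pow_succ]
    congr 1
    omega
  have e2 : (2 : ℕ) ^ (6 * l - 1) = 2 ^ (5 * l - 1) * 2 ^ l := by
    rw [← pow_add]
    congr 1
    omega
  have h5 : 2 ^ (5 * l - 1) * val (List.replicate l true) + 2 ^ (5 * l - 1) =
      2 ^ (5 * l - 1) * 2 ^ l := by
    rw [← h4]
    ring
  rw [e1, e2]
  omega

/-- The second components. -/
def sec {G : Type} (L : List (EG G)) : List Bool :=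
  L.map fun g => match g with
    | .pr _ b => b
    | _ => false

theorem sec_zip {G : Type} (h s : List Bool) (hl : h.length = s.length) :
    sec (List.zipWith (EG.pr (G := G)) h s) = s := by
  induction h generalizing s with
  | nil =>
    cases s with
    | nil => rfl
    | cons b s => simp at hl
  | cons a h ih =>
    cases s with
    | nil => simp at hl
    | cons b s =>
      have h1 := ih s (by simpa using hl)
      unfold sec at h1 ⊢
      rw [List.zipWith_cons_cons, List.map_cons, h1]

theorem reset (hR : StERules) (hT : StETape) {G : Type} [Finite G] (x : List Bool) {s l : ℕ}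
    (D : Data (EG G) EN) (hD : D.le s) (hTT : D.st .T = []) (z : List DA)
    (hZ : D.st .Z = z.map .ltr) (hz : z.length = l) (hl : 1 ≤ l) (hs : 7 * l + 1 ≤ s) :
    Ends x (resetE (G := G)) s D fun _ D' =>
      D' = ⟨D.pos, Function.update D.st .C ((c0 l).map .bit)⟩ := by
  have hZl : (D.st .Z).length = l := by rw [hZ, List.length_map, hz]
  unfold resetE
  refine ends_seq ((hT G x s D hD).1 .C) ?_
  rintro _ D₁ hD₁ rfl
  refine ends_seq (P := fun _ D' => D' = ⟨D.pos, Function.update D.st .C [.bit false]⟩)
    (ends_push .C (.bit false) hD₁ (by simp; omega) (by simp)) ?_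
  rintro _ D₂ hD₂ rfl
  refine ends_seq ((hR G x s _ hD₂).2.2.1 (fun _ => .bit true) .Z .C (by decide) (by decide)
    (by decide) (by simpa using hTT) (by simp [hZl]; omega)) ?_
  rintro _ D₃ hD₃ rfl
  refine ends_seq ((hR G x s _ hD₃).2.2.2.1 (.bit false) 5 .Z .C (by decide) (by decide)
    (by decide) (by simpa using hTT) (by simp [hZl]; omega)) ?_
  rintro _ D₄ hD₄ rfl
  refine ends_seq (P := fun _ D' => D' = ⟨D.pos, Function.update D.st .C ((c0 l).map .bit)⟩)
    (ends_pop .C hD₄ ?_) ?_
  · obtain ⟨l', rfl⟩ : ∃ l', l = l' + 1 := ⟨l - 1, by omega⟩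
    have h5 : 5 * (l' + 1) = (5 * (l' + 1) - 1) + 1 := by omega
    simp only [Function.update_self, Function.update_idem, ne_eq, reduceCtorEq,
      not_false_eq_true, Function.update_of_ne, hZl]
    congr 2
    rw [h5, List.replicate_succ, List.cons_append, List.tail_cons]
    unfold c0
    rw [List.map_append, List.map_append, List.map_replicate, List.map_replicate, hZ,
      List.map_map]
    congr 2
    · rw [show ((fun _ => EG.bit true) ∘ (EG.ltr : DA → EG G)) = Function.const DA (EG.bit true)
        from rfl, List.map_const, hz]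
  · rintro _ D₅ hD₅ rfl
    exact ends_pure _ hD₅ rfl

theorem einv_upd {G : Type} {x : List Bool} {m q k : ℕ} {D : Data (EG G) EN}
    (h : EInv x m q k D) (i : EN) (L : List (EG G)) (hi : i = .Y ∨ i = .C) :
    EInv x m q k ⟨D.pos, Function.update D.st i L⟩ := by
  rcases hi with rfl | rfl
  · simpa [EInv] using h
  · simpa [EInv] using h

/-- One step of the counter `s` on the stack `Y`. -/
theorem flag (hSc : StEScan) (hLi : StEList) {G : Type} [Finite G] (x : List Bool) {sp : ℕ}
    (D : Data (EG G) EN) (hD : D.le sp) (hTT : D.st .T = []) (h s : List Bool)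
    (hl : h.length = s.length) (hY : D.st .Y = List.zipWith .pr h s)
    (hsp : (D.st .Y).length ≤ sp) :
    Ends x (flagE (G := G) sStep .Y) sp D fun o D' => o = (cstep true s).2 ∧
      D' = ⟨D.pos, Function.update D.st .Y (List.zipWith .pr h (cstep true s).1)⟩ := by
  unfold flagE
  refine ends_seq (hSc G Unit sStep none .Y () x sp D (by decide) hD hTT (by simpa using hsp)) ?_
  rintro r D' hD' ⟨rfl, rfl⟩
  refine ends_pure _ hD' ?_
  rw [hY, hLi.2.2.2.1 G h s hl]
  exact ⟨rfl, rfl⟩

end ECount

open ECount

theorem e_count (hA : StEAgree) (hR : StERules) (hT : StETape) (hSc : StEScan) (hLi : StEList)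
    (hC : StCount) (hO : StEOdo) : StECount := by
  classical
  intro V _ _ x sp sV m q k l z h s D hD hI hP hz hs hl hx hq hsp hES hsV
  obtain ⟨-, -, hO1, hO2, -, hO3, hO4, hO5, hO6, -⟩ := hO
  unfold countE
  refine ends_seq (reset hR hT x D hD hI.1 z hP.1 hz hl hsp) ?_
  rintro _ D₁ hD₁ rfl
  refine ends_seq ((hR V.G x sp _ hD₁).2.1 clr2 .Y (by decide) (by simpa using hI.1)) ?_
  rintro _ D₂ hD₂ rfl
  have hhs : h.length = s.length := hP.2.2
  have hh : h.length = 6 * l := hhs.trans hs
  set p : List Bool → Prop := fun s => (EAcc V x m k z s ↔ dot h s = true) with hp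
  have hnum : Nat.count (fun v => p (lst (6 * l) v)) (2 ^ (6 * l)) = ENum V x m k l z h :=
    hO6 (6 * l) p
  have hc0 := c0_val hC hl
  have hpow : 0 < 2 ^ (6 * l) := Nat.pow_pos (by norm_num)
  refine ends_loop (fun D => D.le sp ∧ EInv x m q k D ∧ ∃ v, v < 2 ^ (6 * l) ∧
      EPre z h (lst (6 * l) v) D ∧ ∃ c : List Bool, D.st .C = c.map .bit ∧ c.length = 6 * l ∧
        val c = val (c0 l) + Nat.count (fun v => p (lst (6 * l) v)) v)
    (fun D => 2 ^ (6 * l) - val (sec (D.st .Y))) ?_ ?_
  · rintro D ⟨hDle, hI, v, hv, hP, c, hCc, hcl, hcv⟩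
    have hlen : h.length = (lst (6 * l) v).length := by rw [hO1, hh]
    have hμ : val (sec (D.st .Y)) = v := by
      rw [hP.2.1, sec_zip h _ hlen, hO2, Nat.mod_eq_of_lt hv]
    refine (hA V x sp sV m q k l z h _ c D hDle hI hP hz (hO1 _ _) hCc hx hq hsp hES hsV).imp ?_
    rintro r D' hD' ⟨hI', hP', hr⟩
    -- the new value of the counter, if there is no overflow
    have key : r = none → ∃ c' : List Bool, D'.st .C = c'.map .bit ∧ c'.length = 6 * l ∧
        val c' = val (c0 l) + Nat.count (fun v => p (lst (6 * l) v)) (v + 1) := by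
      intro hrn
      rcases hr with ⟨hnp, -, hC'⟩ | ⟨hyp, hr', hC'⟩
      · refine ⟨c, hC', hcl, ?_⟩
        rw [Nat.count_succ, if_neg hnp, add_zero, hcv]
      · refine ⟨(cstep true c).1, hC', by rw [hC.1, hcl], ?_⟩
        have hno : (cstep true c).2 = false := by
          by_contra hcon
          rw [Bool.not_eq_false] at hcon
          rw [hcon, if_pos rfl] at hr'
          rw [hr'] at hrn
          exact absurd hrn (by simp)
        rw [hC.2.2.2.2.2.1 c hno, Nat.count_succ, if_pos hyp, hcv]
        ring
    refine ⟨?_, ?_⟩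
    · intro b hb
      rcases hr with ⟨-, hrn, -⟩ | ⟨hyp, hr', -⟩
      · rw [hrn] at hb
        exact absurd hb (by simp)
      · have hov : (cstep true c).2 = true := by
          by_contra hcon
          rw [Bool.not_eq_true] at hcon
          rw [hcon, if_neg (by simp)] at hr'
          rw [hr'] at hb
          exact absurd hb (by simp)
        rw [hov, if_pos rfl, hb] at hr'
        have hbf : b = false := Option.some.inj hr'
        subst hbf
        refine ⟨hI', ⟨_, hP'⟩, ?_⟩
        simp only [Bool.false_eq_true, false_iff, not_lt]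
        have h1 : val c + 1 = 2 ^ (6 * l) := by
          have h2 := (hC.2.2.2.2.1 c hov).1
          rw [h2, hcl]
          exact hC.2.2.1 _
        have h3 : Nat.count (fun v => p (lst (6 * l) v)) (v + 1) =
            Nat.count (fun v => p (lst (6 * l) v)) v + 1 := by
          rw [Nat.count_succ, if_pos hyp]
        have h4 : Nat.count (fun v => p (lst (6 * l) v)) (v + 1) ≤
            Nat.count (fun v => p (lst (6 * l) v)) (2 ^ (6 * l)) := Nat.count_monotone _ hv
        rw [← hnum]
        omega
    · intro hrn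
      obtain ⟨c', hC', hcl', hcv'⟩ := key hrn
      have hYl : (D'.st .Y).length ≤ sp := hD' .Y
      refine (flag hSc hLi x D' hD' hI'.1 h _ hP'.2.2 hP'.2.1 hYl).imp ?_
      rintro o D'' hD'' ⟨ho, hD''eq⟩
      by_cases hlast : v + 1 < 2 ^ (6 * l)
      · have h1 := hO3 (6 * l) v hlast
        rw [h1] at ho hD''eq
        subst hD''eq
        refine ⟨fun h2 => absurd (h2.symm.trans ho) (by simp), fun _ => ⟨⟨hD'',
          einv_upd hI' .Y _ (Or.inl rfl), v + 1, hlast, ⟨?_, ?_, ?_⟩, c', ?_, hcl', hcv'⟩, ?_⟩⟩
        · simpa using hP'.1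
        · simp
        · rw [hO1, hh]
        · simpa using hC'
        · have h2 : val (sec ((⟨D'.pos, Function.update D'.st .Y (List.zipWith .pr h
              (lst (6 * l) (v + 1), false).1)⟩ : Data (EG V.G) EN).st .Y)) = v + 1 := by
            show val (sec (Function.update D'.st .Y (List.zipWith .pr h
              (lst (6 * l) (v + 1))) .Y)) = v + 1
            rw [Function.update_self, sec_zip h _ (by rw [hO1, hh]), hO2,
              Nat.mod_eq_of_lt hlast]
          show 2 ^ (6 * l) - _ < 2 ^ (6 * l) - _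
          rw [h2, hμ]
          omega
      · have hv1 : v = 2 ^ (6 * l) - 1 := by omega
        have h1 := hO4 (6 * l)
        rw [← hv1] at h1
        rw [h1] at ho hD''eq
        subst hD''eq
        refine ⟨fun _ => ⟨einv_upd hI' .Y _ (Or.inl rfl), ⟨lst (6 * l) 0, ?_, ?_, ?_⟩, ?_⟩,
          fun h2 => absurd (h2.symm.trans ho) (by simp)⟩
        · simpa using hP'.1
        · simp
        · rw [hO1, hh]
        · simp only [true_iff]
          have h2 : v + 1 = 2 ^ (6 * l) := by omega
          rw [h2, hnum] at hcv'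
          have h3 := hC.2.1 c'
          rw [hcl'] at h3
          omega
  · refine ⟨hD₂, ?_, 0, hpow, ⟨?_, ?_, ?_⟩, c0 l, ?_, c0_length hl, ?_⟩
    · exact einv_upd (einv_upd hI .C _ (Or.inr rfl)) .Y _ (Or.inl rfl)
    · simpa using hP.1
    · have h1 := (hLi.2.2.2.2.2.2.2.2.2 V.G h s hhs).2
      rw [hO5]
      simp only [Function.update_self, ne_eq, reduceCtorEq, not_false_eq_true,
        Function.update_of_ne, hP.2.1]
      rw [h1, hs]
    · rw [hO1, hh]
    · simp
    · rw [Nat.count_zero, add_zero]

end Pool.Agent.Lib.MP_9dcf40_lc
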