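import Pool.Agent.Lib.MP_9dcf40_lc.Av.SpecM

/-!
# The language of the averaging machine
-/

namespace Pool.Agent.Lib.MP_9dcf40_lc

open Filter

namespace EDiag

theorem spaceLe_mono {A : Type} {M : TM A} {z : List A} {s s' : ℕ} (h : M.SpaceLe z s)
    (hs : s ≤ s') : M.SpaceLe z s' := fun ch => (h ch).trans (by exact_mod_cast hs)

theorem logpow_mono {a b k : ℕ} (h : a ≤ b) : Nat.log 2 a ^ k + k ≤ Nat.log 2 b ^ k + k :=
  Nat.add_le_add_right (Nat.pow_le_pow_left (Nat.log_mono_right h) k) k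

theorem exp_mono {a k k' : ℕ} (h : k + 1 ≤ k') : a ^ k + k ≤ a ^ k' + k' := by
  rcases Nat.eq_zero_or_pos a with rfl | ha
  · have h1 : (0 : ℕ) ^ k ≤ 1 := by
      rcases Nat.eq_zero_or_pos k with rfl | hk
      · simp
      · rw [zero_pow (by omega)]
        omega
    generalize (0 : ℕ) ^ k = u at h1 ⊢
    generalize (0 : ℕ) ^ k' = v
    omega
  · have h1 : a ^ k ≤ a ^ k' := Nat.pow_le_pow_right ha (by omega)
    omega

theorem eword_length (z : List DA) (x : List Bool) (m : ℕ) :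
    (eword z x m).length = z.length + x.length + 2 ^ m + (advOf z).length := by
  simp [eword, pairL, padL, Nat.add_assoc]

theorem dot_append (h s r : List Bool) (hl : h.length = s.length) :
    dot h (s ++ r) = dot h s := by
  induction h generalizing s with
  | nil =>
    cases s with
    | nil => cases r <;> rfl
    | cons b s => simp at hl
  | cons a h ih =>
    cases s with
    | nil => simp at hl
    | cons b s =>
      rw [List.cons_append]
      show ((a && b) ^^ dot h (s ++ r)) = ((a && b) ^^ dot h s)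
      rw [ih s (by simpa using hl)]

theorem ev_pow (k : ℕ) : ∃ J : ℕ, ∀ j, J ≤ j → j ^ k + k ≤ 2 ^ j := by
  have h1 : Tendsto (fun n : ℕ => (n : ℝ) ^ k / 2 ^ n) atTop (nhds 0) :=
    tendsto_pow_const_div_const_pow_of_one_lt k one_lt_two
  have h2 := h1.eventually (gt_mem_nhds (by norm_num : (0 : ℝ) < 1 / 2))
  obtain ⟨J, hJ⟩ := eventually_atTop.1 h2
  refine ⟨max J (k + 1), fun j hj => ?_⟩
  have h3 := hJ j (le_of_max_le_left hj)
  have h4 : k + 1 ≤ j := le_of_max_le_right hj
  have h5 : (j : ℝ) ^ k * 2 < 2 ^ j := by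
    have h6 : (0 : ℝ) < 2 ^ j := by positivity
    rw [div_lt_iff₀ h6] at h3
    linarith
  have h7 : j ^ k * 2 < 2 ^ j := by exact_mod_cast h5
  have h8 : k < 2 ^ k := Nat.lt_two_pow_self
  have h9 : 2 ^ (k + 1) ≤ 2 ^ j := Nat.pow_le_pow_right (by norm_num) h4
  rw [pow_succ] at h9
  omega

theorem ev_log (k : ℕ) : ∃ n₀ : ℕ, ∀ n, n₀ ≤ n → Nat.log 2 n ^ k + k ≤ n := by
  obtain ⟨J, hJ⟩ := ev_pow k
  refine ⟨2 ^ J, fun n hn => ?_⟩
  have h0 : n ≠ 0 := by
    have : 0 < 2 ^ J := Nat.pow_pos (by norm_num)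
    omega
  have h1 : J ≤ Nat.log 2 n := (Nat.le_log_iff_pow_le (by norm_num) h0).2 hn
  exact (hJ _ h1).trans (Nat.pow_log_le_self 2 h0)

end EDiag

open EDiag in
theorem e_diag (hC : StCompD) (hT : StETotal) (hF : StEFind) (hK : StClock) (hN : StENumD)
    (hA : StEAdv) : StEDiag := by
  classical
  intro V k d e₁ hdet hsp
  have : Finite V.Q := V.finQ
  have : Finite V.G := V.finG
  obtain ⟨e, hlarge, k', hk'⟩ := hN (Nat.card V.Q) (Nat.card V.G) k d e₁
  obtain ⟨M, hMdet, hM⟩ := hC Bool (EG V.G) EN (mainE V d e e₁)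
  -- for large `n` the words are long enough
  obtain ⟨n₀, hn₀⟩ : ∃ n₀ : ℕ, ∀ n, n₀ ≤ n → 6 * (Nat.size n + 1) ^ e₁ < n := by
    obtain ⟨n₀, h⟩ := ev_log k'
    refine ⟨n₀, fun n hn => ?_⟩
    have h1 := h n hn
    have h2 := hk' n
    omega
  -- the space for the virtual words
  set sV : ℕ → ℕ := fun n => if n₀ ≤ n then
    Nat.log 2 (n + 2 * (Nat.size n + 1) ^ e₁ + 2 ^ (Nat.size n + 1) ^ (d + 1)) ^ k + k else
    Nat.log 2 (n + 8 * (Nat.size n + 1) ^ e₁ + 2 ^ (Nat.size n + 1) ^ (d + 1)) ^ k + k with hsV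
  set sp : ℕ → ℕ := fun n => (Nat.size n + 1) ^ (d + 1) + (Nat.size n + 1) ^ e +
    7 * (Nat.size n + 1) ^ e₁ + Nat.size n + sV n + 3 with hspd
  obtain ⟨k₂, hk₂⟩ : ∃ k₂ : ℕ, ∀ n, sp n + 2 ≤ Nat.log 2 n ^ k₂ + k₂ := by
    refine ⟨k' + 1 + ∑ n ∈ Finset.range n₀, (sp n + 2), fun n => ?_⟩
    by_cases hn : n₀ ≤ n
    · have h1 := hk' n
      have h2 : sp n + 2 ≤ Nat.log 2 n ^ k' + k' := by
        simp only [hspd, hsV, if_pos hn]
        omega
      exact h2.trans (exp_mono (Nat.le_add_right _ _))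
    · have h1 : sp n + 2 ≤ ∑ n ∈ Finset.range n₀, (sp n + 2) :=
        Finset.single_le_sum (f := fun n => sp n + 2) (fun _ _ => Nat.zero_le _)
          (Finset.mem_range.2 (not_le.1 hn))
      omega
  have hES : ∀ x : List Bool, ESp V x ((Nat.size x.length + 1) ^ (d + 1))
      ((Nat.size x.length + 1) ^ e₁) (sV x.length) := by
    intro x z s hz hs
    refine spaceLe_mono (hsp _) ?_
    have h1 := hA.1 z
    by_cases hn : n₀ ≤ x.length
    · simp only [hsV, if_pos hn]
      refine logpow_mono ?_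
      have h2 := hn₀ _ hn
      rw [eword_length, List.length_append, List.length_drop]
      omega
    · simp only [hsV, if_neg hn]
      refine logpow_mono ?_
      rw [eword_length, List.length_append, List.length_drop]
      omega
  have key : ∀ x : List Bool, ∃ b : Bool, (M.Accepts x ↔ b = true) ∧
      M.SpaceLe x (Nat.log 2 x.length ^ k₂ + k₂) ∧
      (6 * (Nat.size x.length + 1) ^ e₁ < x.length →
        b = dot (EFind V x ((Nat.size x.length + 1) ^ (d + 1)) ((Nat.size x.length + 1) ^ e)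
          ((Nat.size x.length + 1) ^ e₁)) x) := by
    intro x
    have h2 : sp x.length = (Nat.size x.length + 1) ^ (d + 1) + (Nat.size x.length + 1) ^ e +
      7 * (Nat.size x.length + 1) ^ e₁ + Nat.size x.length + sV x.length + 3 := rfl
    obtain ⟨T, b, D', hR, hb⟩ := hT V d e e₁ x (sp x.length) (sV x.length) (hES x)
      (by omega) (by omega) (by omega) (by omega) (by omega) (fun _ => false)
    obtain ⟨-, hacc, hspx⟩ := hM x _ T b D' (fun _ => false) hR
    exact ⟨b, hacc, spaceLe_mono hspx (hk₂ _), hb⟩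
  refine ⟨{x | M.Accepts x}, ⟨M, hMdet, ⟨k₂, fun x => ?_⟩, fun x => Iff.rfl⟩, ?_⟩
  · obtain ⟨b, -, h, -⟩ := key x
    exact h
  filter_upwards [hlarge, eventually_ge_atTop n₀] with n hn hnn r hr
  have h6 := hn₀ n hnn
  set l := (Nat.size n + 1) ^ e₁ with hl
  set m := (Nat.size n + 1) ^ (d + 1) with hm
  set κ := (Nat.size n + 1) ^ e with hκ
  have hl1 : 1 ≤ l := Nat.one_le_pow _ _ (Nat.succ_pos _)
  obtain ⟨hF1, hF2, hF3⟩ := hF V m κ l hl1
  set s₀ : List Bool := List.replicate (6 * l) false with hs₀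
  have hs₀l : s₀.length = 6 * l := List.length_replicate
  refine ⟨EFind V (s₀ ++ r) m κ l, hF1 _, fun s hs => ?_, fun z hz => ?_⟩
  · have hlen : (s ++ r).length = n := by
      rw [List.length_append]
      omega
    obtain ⟨b, hacc, -, hb⟩ := key (s ++ r)
    rw [hlen] at hb
    have h1 := hb h6
    rw [← hl, ← hm, ← hκ, hF3 s s₀ r hs hs₀l, dot_append _ _ _ ((hF1 _).trans hs.symm)] at h1
    show M.Accepts (s ++ r) ↔ _
    rw [hacc, h1]
  · have h1 := hF2 (s₀ ++ r) z hz
    have h2 : {s : List Bool | s.length = 6 * l ∧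
        (V.Accepts (eword z (s ++ r) m) ↔ dot (EFind V (s₀ ++ r) m κ l) s = true)} =
        {s : List Bool | s.length = 6 * l ∧
          (EAcc V (s₀ ++ r) m κ z s ↔ dot (EFind V (s₀ ++ r) m κ l) s = true)} := by
      ext s
      refine and_congr_right fun hs => ?_
      have h3 : (s₀ ++ r).drop s.length = r := by
        rw [hs, ← hs₀l, List.drop_left]
      have h4 : V.Accepts (eword z (s ++ r) m) ↔ EAcc V (s₀ ++ r) m κ z s := by
        unfold EAcc
        rw [h3]
        constructor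
        · intro ha
          obtain ⟨t, ht, ho⟩ := hK VB V (eword z (s ++ r) m) _ hdet (hsp _) ha
          refine ⟨t, lt_of_lt_of_le ht (hn _ ?_), ho⟩
          have h5 := hA.1 z
          rw [eword_length, List.length_append]
          omega
        · rintro ⟨t, -, ho⟩
          exact ⟨_, t, ho⟩
      rw [h4]
    rw [h2]
    exact h1

end Pool.Agent.Lib.MP_9dcf40_lc
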