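import Pool.Agent.Lib.MP_9dcf40_lc.Av.SpecM

/-!
# The word found by the machine
-/

set_option autoImplicit false

namespace Pool.Agent.Lib.MP_9dcf40_lc

namespace EFindM

theorem enum_congr (V : TM VB) (m k l : ℕ) (s₀ s₁ r : List Bool) (h₀ : s₀.length = 6 * l)
    (h₁ : s₁.length = 6 * l) (z : List DA) (h : List Bool) :
    ENum V (s₀ ++ r) m k l z h = ENum V (s₁ ++ r) m k l z h := by
  unfold ENum
  congr 1
  ext s
  simp only [Set.mem_ofPred_eq]
  constructor
  · rintro ⟨h1, h2⟩
    refine ⟨h1, ?_⟩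
    unfold EAcc at h2 ⊢
    rw [List.drop_left' (by rw [h1, h₀])] at h2
    rw [List.drop_left' (by rw [h1, h₁])]
    exact h2
  · rintro ⟨h1, h2⟩
    refine ⟨h1, ?_⟩
    unfold EAcc at h2 ⊢
    rw [List.drop_left' (by rw [h1, h₁])] at h2
    rw [List.drop_left' (by rw [h1, h₀])]
    exact h2

theorem sel_spec (p : ℕ → Prop) (N : ℕ) (h : ∃ v, v < N ∧ p v) : p (sel p N) := by
  classical
  unfold sel
  rw [dif_pos h]
  exact (Nat.find_spec h).2

end EFindM

open EFindM in
theorem e_find (hP : StEPars) (hO : StEOdo) : StEFind := by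
  intro V m k l hl
  obtain ⟨-, -, hlen, hval, hlv, -⟩ := hO
  refine ⟨fun x => hlen _ _, fun x => ?_, fun s₀ s₁ r h₀ h₁ => ?_⟩
  · obtain ⟨h, hh, hg⟩ := hP l (EAcc V x m k) hl
    unfold EFind
    apply sel_spec (fun v => EGood V x m k l (lst (6 * l) v))
    have h1 : lst (6 * l) (val h) = h := by
      rw [← hh]
      exact hlv h
    refine ⟨val h, ?_, ?_⟩
    · have h2 := hval (6 * l) (val h)
      rw [h1] at h2
      rw [h2]
      exact Nat.mod_lt _ (by positivity)
    · show EGood V x m k l (lst (6 * l) (val h))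
      rw [h1]
      exact hg
  · unfold EFind
    congr 2
    funext v
    unfold EGood
    refine propext ⟨fun h z hz => ?_, fun h z hz => ?_⟩
    · rw [← enum_congr V m k l s₀ s₁ r h₀ h₁]
      exact h z hz
    · rw [enum_congr V m k l s₀ s₁ r h₀ h₁]
      exact h z hz

end Pool.Agent.Lib.MP_9dcf40_lc
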