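import Pool.Agent.Lib.MP_9dcf40_lc.Av.Rules

/-!
# The loop over `z`
-/

namespace Pool.Agent.Lib.MP_9dcf40_lc

open Rout

namespace EGoodN

/-- The letters on a stack. -/
def zs {G : Type} (L : List (EG G)) : List DA :=
  L.map fun g => match g with
    | .ltr a => a
    | _ => .zero

theorem zs_map {G : Type} (z : List DA) : zs (z.map (EG.ltr (G := G))) = z := by
  unfold zs
  rw [List.map_map]
  exact List.map_id'' (fun _ => rfl) z

theorem einv_Z {G : Type} {x : List Bool} {m q k : ℕ} {D : Data (EG G) EN}
    (h : EInv x m q k D) (L : List (EG G)) :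
    EInv x m q k ⟨D.pos, Function.update D.st .Z L⟩ := by
  simpa [EInv] using h

/-- One step of the counter `z`. -/
theorem flag (hSc : StEScan) (hLi : StEList) {G : Type} [Finite G] (x : List Bool) {sp : ℕ}
    (D : Data (EG G) EN) (hD : D.le sp) (hTT : D.st .T = []) (z : List DA)
    (hZ : D.st .Z = z.map .ltr) :
    Ends x (flagE (G := G) zStep .Z) sp D fun o D' => o = (lstep z).2 ∧
      D' = ⟨D.pos, Function.update D.st .Z ((lstep z).1.map .ltr)⟩ := by
  unfold flagE
  refine ends_seq (hSc G Unit zStep none .Z () x sp D (by decide) hD hTT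
    (by simpa using hD .Z)) ?_
  rintro r D' hD' ⟨rfl, rfl⟩
  refine ends_pure _ hD' ?_
  rw [hZ, hLi.2.2.2.2.1 G z]
  exact ⟨rfl, rfl⟩

end EGoodN

open EGoodN

theorem e_good (hC : StECount) (hR : StERules) (hSc : StEScan) (hLi : StEList) (hO : StEOdo) :
    StEGood := by
  intro V _ _ x sp sV m q k l z h s D hD hI hP hz hs hl hx hq hsp hES hsV
  obtain ⟨-, -, -, -, -, -, -, -, -, hO1, hO2, hO3, hO4, hO5, -, hO6⟩ := hO
  have hh : h.length = 6 * l := hP.2.2.trans hs
  unfold goodE
  refine ends_seq ((hR V.G x sp D hD).2.1 (fun _ => .ltr .zero) .Z (by decide) hI.1) ?_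
  rintro _ D₁ hD₁ rfl
  refine ends_loop (fun D => D.le sp ∧ EInv x m q k D ∧ ∃ (z : List DA) (s : List Bool),
      z.length = l ∧ EPre z h s D ∧ ∀ z' : List DA, z'.length = l → lval z' < lval z →
        ENum V x m k l z' h < 2 ^ (6 * l - 1) + 2 ^ (5 * l - 1))
    (fun D => 8 ^ l - lval (zs (D.st .Z))) ?_ ?_
  · rintro D ⟨hDle, hI, z, s, hz, hP, hall⟩
    have hμ : zs (D.st .Z) = z := by rw [hP.1, zs_map]
    refine ends_seq (hC V x sp sV m q k l z h s D hDle hI hP hz (hP.2.2.symm.trans hh) hl hx hq
      hsp hES hsV) ?_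
    rintro b D' hD' ⟨hI', ⟨s', hP'⟩, hb⟩
    refine ends_pure _ hD' ⟨?_, ?_⟩
    · intro b' hb'
      cases b with
      | true => exact absurd hb' (by simp)
      | false =>
        have h1 : b' = false := (Option.some.inj hb').symm
        subst h1
        refine ⟨hI', ⟨z, s', hz, hP'⟩, ?_⟩
        simp only [Bool.false_eq_true, false_iff]
        intro hG
        exact absurd (hb.2 (hG z hz)) (by simp)
    · intro hbn
      have hbt : b = true := by
        cases b with
        | true => rfl
        | false => exact absurd hbn (by simp)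
      have hz1 := hb.1 hbt
      refine (flag hSc hLi x D' hD' hI'.1 z hP'.1).imp ?_
      rintro o D'' hD'' ⟨ho, rfl⟩
      have hP'' : EPre (lstep z).1 h s'
          (⟨D'.pos, Function.update D'.st .Z ((lstep z).1.map .ltr)⟩ : Data (EG V.G) EN) :=
        ⟨by simp, by simpa using hP'.2.1, hP'.2.2⟩
      refine ⟨fun hot => ⟨einv_Z hI' _, ⟨(lstep z).1, s', (hO1 z).trans hz, hP''⟩, ?_⟩,
        fun hof => ⟨⟨hD'', einv_Z hI' _, (lstep z).1, s', (hO1 z).trans hz, hP'', ?_⟩, ?_⟩⟩
      · simp only [true_iff]
        intro z' hz'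
        have h1 := hO5 z (ho.symm.trans hot)
        have h2 := hO2 z'
        rw [hz'] at h2
        rw [hz] at h1
        rcases Nat.lt_or_ge (lval z') (lval z) with h3 | h3
        · exact hall z' hz' h3
        · have h4 : z' = z := hO3 z' z (hz'.trans hz.symm) (by omega)
          rw [h4]
          exact hz1
      · intro z' hz' hlt
        rw [hO4 z (ho.symm.trans hof)] at hlt
        rcases Nat.lt_or_ge (lval z') (lval z) with h3 | h3
        · exact hall z' hz' h3
        · have h4 : z' = z := hO3 z' z (hz'.trans hz.symm) (by omega)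
          rw [h4]
          exact hz1
      · have h1 := hO2 z
        rw [hz] at h1
        show 8 ^ l - lval (zs (Function.update D'.st .Z ((lstep z).1.map .ltr) .Z)) <
          8 ^ l - lval (zs (D.st .Z))
        rw [hμ, Function.update_self, zs_map, hO4 z (ho.symm.trans hof)]
        omega
  · refine ⟨hD₁, einv_Z hI _, List.replicate l .zero, s, List.length_replicate, ⟨?_, ?_, hP.2.2⟩,
      ?_⟩
    · simp only [Function.update_self]
      rw [hP.1, List.map_map, List.map_replicate, ← hz]
      exact List.map_const'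
    · simpa using hP.2.1
    · intro z' _ h1
      rw [hO6] at h1
      exact absurd h1 (Nat.not_lt_zero _)

end Pool.Agent.Lib.MP_9dcf40_lc
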