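import Pool.Agent.Lib.MP_9dcf40_lc.Av.Rules

/-!
# The virtual head of the averaging machine
-/

namespace Pool.Agent.Lib.MP_9dcf40_lc

open Rout

namespace EHead

/-! ## The letters of the virtual word -/

theorem inSym_some {A : Type} {y : List A} {p : ℕ} {a : A} (h : y[p]? = some a) :
    inSym y (p + 1) = .letter a := by
  unfold inSym
  simp [h]

theorem inSym_last {A : Type} (y : List A) : inSym y (y.length + 1) = .right := by
  unfold inSym
  simp

section Word

variable (z : List DA) (s x : List Bool) (m : ℕ)

theorem len (h : s.length ≤ x.length) : (eword z (s ++ x.drop s.length) m).length =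
    z.length + x.length + 2 ^ m + (advOf z).length := by
  simp only [eword, pairL, padL, List.length_append, List.length_map, List.length_replicate,
    List.length_drop]
  omega

theorem sym_z {i : ℕ} {a : DA} (h : (z ++ s.map bitL)[i]? = some a) :
    inSym (eword z (s ++ x.drop s.length) m) (i + 1) = .letter (.inl (some a)) := by
  refine inSym_some ?_
  have hi : i < (z ++ s.map bitL).length := by
    by_contra hc
    rw [List.getElem?_eq_none (by omega)] at h
    simp at h
  have e : eword z (s ++ x.drop s.length) m =
      (z ++ s.map bitL).map (fun a => (Sum.inl (some a) : VB)) ++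
        (((x.drop s.length).map bitL).map (fun a => (Sum.inl (some a) : VB)) ++
        (List.replicate (2 ^ m) (Sum.inl none) ++ (advOf z).map Sum.inr)) := by
    simp [eword, pairL, padL, List.map_append, Function.comp_def]
  rw [e, List.getElem?_append_left (by simpa using hi), List.getElem?_map, h]
  rfl

theorem sym_x (hs : s.length ≤ x.length) {p : ℕ} {b : Bool} (hp : s.length ≤ p)
    (h : x[p]? = some b) :
    inSym (eword z (s ++ x.drop s.length) m) (z.length + p + 1) =
      .letter (.inl (some (bitL b))) := by
  refine inSym_some ?_
  have hi : p < x.length := by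
    by_contra hc
    rw [List.getElem?_eq_none (by omega)] at h
    simp at h
  have e : eword z (s ++ x.drop s.length) m =
      (z ++ s.map bitL).map (fun a => (Sum.inl (some a) : VB)) ++
        ((x.drop s.length).map (fun b => (Sum.inl (some (bitL b)) : VB)) ++
        (List.replicate (2 ^ m) (Sum.inl none) ++ (advOf z).map Sum.inr)) := by
    simp [eword, pairL, padL, List.map_append, Function.comp_def]
  rw [e, List.getElem?_append_right (by simp; omega), List.getElem?_append_left (by simp; omega)]
  simp only [List.length_map, List.length_append, List.getElem?_map, List.getElem?_drop]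
  rw [show s.length + (z.length + p - (z.length + s.length)) = p by omega, h]
  rfl

theorem sym_p (hs : s.length ≤ x.length) {j : ℕ} (hj : j < 2 ^ m) :
    inSym (eword z (s ++ x.drop s.length) m) (z.length + x.length + j + 1) =
      .letter (.inl none) := by
  refine inSym_some ?_
  have e : eword z (s ++ x.drop s.length) m =
      (z ++ (s ++ x.drop s.length).map bitL).map (fun a => (Sum.inl (some a) : VB)) ++
        (List.replicate (2 ^ m) (Sum.inl none) ++ (advOf z).map Sum.inr) := by
    simp [eword, pairL, padL, List.map_append, Function.comp_def]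
  rw [e, List.getElem?_append_right (by simp; omega), List.getElem?_append_left (by simp; omega),
    List.getElem?_replicate]
  simp only [List.length_map, List.length_append, List.length_drop]
  rw [if_pos (by omega)]

theorem sym_v (hs : s.length ≤ x.length) {k : ℕ} {b : Bool} (h : (advOf z)[k]? = some b) :
    inSym (eword z (s ++ x.drop s.length) m) (z.length + x.length + 2 ^ m + k + 1) =
      .letter (.inr b) := by
  refine inSym_some ?_
  have e : eword z (s ++ x.drop s.length) m =
      ((z ++ (s ++ x.drop s.length).map bitL).map (fun a => (Sum.inl (some a) : VB)) ++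
        List.replicate (2 ^ m) (Sum.inl none)) ++ (advOf z).map Sum.inr := by
    simp [eword, pairL, padL, List.map_append, Function.comp_def]
  rw [e, List.getElem?_append_right (by simp; omega)]
  simp only [List.length_map, List.length_append, List.length_drop, List.length_replicate,
    List.getElem?_map]
  rw [show z.length + x.length + 2 ^ m + k -
    (z.length + (s.length + (x.length - s.length)) + 2 ^ m) = k by omega, h]
  rfl

end Word

/-! ## Routines -/

variable {G : Type}

/-- The start of the virtual word is cut. -/
theorem zcase {zl zr : List (EG G)} {g : EG G} {L : List DA}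
    (h : zl ++ g :: zr = .mark :: L.map .ltr) :
    (zl = [] ∧ g = .mark) ∨ ∃ (zl' : List (EG G)) (a : DA), zl = .mark :: zl' ∧ g = .ltr a ∧
      L[zl'.length]? = some a := by
  cases zl with
  | nil =>
    left
    simp only [List.nil_append, List.cons.injEq] at h
    exact ⟨rfl, h.1⟩
  | cons g' zl' =>
    right
    simp only [List.cons_append, List.cons.injEq] at h
    obtain ⟨rfl, h⟩ := h
    have h1 : (zl' ++ g :: zr)[zl'.length]? = some g := by simp
    rw [h, List.getElem?_map] at h1
    cases h2 : L[zl'.length]? with
    | none => rw [h2] at h1; simp at h1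
    | some a =>
      rw [h2] at h1
      simp only [Option.map_some, Option.some.injEq] at h1
      exact ⟨zl', a, rfl, h1.symm, h2⟩

variable [Finite G] {x : List Bool} {sp : ℕ} {D : Data (EG G) EN}

/-- Moving from an empty stack does nothing. -/
theorem one_nil (hD : D.le sp) (i j : EN) (h : D.st i = []) :
    Ends x (oneE (G := G) i j) sp D fun o D' => o = false ∧ D' = D := by
  unfold oneE
  refine ends_bind (ends_pop i hD ?_)
  have e : (⟨D.pos, Function.update D.st i (D.st i).tail⟩ : Data (EG G) EN) = D := by
    rw [h]
    have : Function.update D.st i ([] : List (EG G)).tail = D.st := by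
      rw [List.tail_nil, ← h, Function.update_eq_self]
    rw [this]
  rw [e, h]
  exact ends_pure _ hD ⟨rfl, rfl⟩

variable {m q : ℕ} {z : List DA} {s : List Bool}

/-- The virtual symbol. -/
theorem sym (hR : StERules) (hC : StCount) {μ : EM} {vp : ℕ} (hD : D.le sp)
    (hrep : ERep x z s m q μ D vp) (hs : s.length < x.length) :
    Ends x (symE (G := G) μ) sp D fun a D' =>
      a = inSym (eword z (s ++ x.drop s.length) m) vp ∧ D' = D := by
  obtain ⟨-, -, -, -, hpeek, -⟩ := hR G x sp D hD
  obtain ⟨zl, zr, al, ar, lx, lp, hZL, hZR, hAL, hAR, hX, hP, hlx, hlp, hz, ha, hμ⟩ := hrep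
  cases μ with
  | z =>
    obtain ⟨rfl, rfl, rfl, hpos, hzr, hvp⟩ := hμ
    unfold symE
    refine ends_seq (hpeek .ZR) fun o D' hle ho => ?_
    obtain ⟨rfl, rfl⟩ := ho
    refine ends_pure _ hle ⟨?_, rfl⟩
    rw [hZR]
    cases zr with
    | nil => exact absurd rfl hzr
    | cons g zr =>
      rcases zcase hz with ⟨rfl, rfl⟩ | ⟨zl', a, rfl, rfl, hL⟩
      · subst hvp
        rfl
      · subst hvp
        exact (sym_z z s x m hL).symm
  | x =>
    obtain ⟨rfl, rfl, rfl, hval, hpos, hvp⟩ := hμ
    unfold symE
    refine ends_bind (ends_read hD ?_)
    refine ends_pure _ hD ⟨?_, rfl⟩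
    obtain ⟨p, hp⟩ : ∃ p, D.pos = p + 1 := ⟨D.pos - 1, by omega⟩
    have hlt : p < x.length := by omega
    have hx : x[p]? = some x[p] := List.getElem?_eq_getElem hlt
    rw [hp, inSym_some hx, hvp, hp]
    exact (sym_x z s x m hs.le (by omega) hx).symm
  | p =>
    obtain ⟨rfl, rfl, hval, hpos, hvp⟩ := hμ
    unfold symE
    refine ends_pure _ hD ⟨?_, rfl⟩
    have h1 : val lp < 2 ^ m := by
      have := hC.2.1 lp
      rwa [hlp] at this
    rw [hvp, show z.length + x.length + 1 + val lp = z.length + x.length + val lp + 1 by ring]
    exact (sym_p z s x m hs.le h1).symm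
  | v =>
    obtain ⟨rfl, rfl, hval, hpos, hvp⟩ := hμ
    unfold symE
    refine ends_seq (hpeek .AR) fun o D' hle ho => ?_
    obtain ⟨rfl, rfl⟩ := ho
    refine ends_pure _ hle ⟨?_, rfl⟩
    rw [hAR, hvp]
    cases ar with
    | nil =>
      have h1 : al.length = (advOf z).length := by
        have := congrArg List.length ha
        simpa using this
      rw [h1, show z.length + x.length + 2 ^ m + 1 + (advOf z).length =
        (eword z (s ++ x.drop s.length) m).length + 1 by rw [len z s x m hs.le]; ring, inSym_last]
      rfl
    | cons g ar =>
      have h1 : (al ++ g :: ar)[al.length]? = some g := by simp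
      rw [ha, List.getElem?_map] at h1
      cases h2 : (advOf z)[al.length]? with
      | none => rw [h2] at h1; simp at h1
      | some b =>
        rw [h2] at h1
        simp only [Option.map_some, Option.some.injEq] at h1
        subst h1
        rw [show z.length + x.length + 2 ^ m + 1 + al.length =
          z.length + x.length + 2 ^ m + al.length + 1 by ring]
        exact (sym_v z s x m hs.le h2).symm

/-- Counters (from `StRules`), with a post-condition. -/
theorem cnt (hR : StERules) (hD : D.le sp) (hT : D.st .T = []) (b : Bool) (i : EN) (hi : i ≠ .T)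
    (l : List Bool) (h : D.st i = l.map .bit) : Ends x (cntE (G := G) b i) sp D fun o D' =>
      o = (cstep b l).2 ∧ D' = ⟨D.pos, Function.update D.st i ((cstep b l).1.map .bit)⟩ :=
  (hR G x sp D hD).1 b i l hi hT h

/-- The moves in the start of the virtual word. -/
theorem head_z (hR : StERules) (hC : StCount) {vp : ℕ} (hD : D.le sp) (hT : D.st .T = [])
    (hrep : ERep x z s m q .z D vp) (hs : s.length < x.length)
    (hsp : z.length + s.length + 1 ≤ sp) (dir : Dir) :
    Ends x (headE (G := G) .z dir) sp D fun μ' D' =>
      ERep x z s m q μ' D' (movePos (eword z (s ++ x.drop s.length) m).length dir vp) ∧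
        Fr headSt D D' := by
  have hlen := len z s x m hs.le
  have h2m : 0 < 2 ^ m := Nat.two_pow_pos m
  obtain ⟨-, -, -, -, -, hone⟩ := hR G x sp D hD
  obtain ⟨zl, zr, al, ar, lx, lp, hZL, hZR, hAL, hAR, hX, hP, hlx, hlp, hz, ha, hμ⟩ := hrep
  have hμ' := hμ
  obtain ⟨rfl, rfl, rfl, hpos, hzr, rfl⟩ := hμ
  have hzlen : zl.length + zr.length = z.length + s.length + 1 := by
    have := congrArg List.length hz
    simpa [Nat.add_assoc] using this
  cases dir with
  | stay =>
    exact ends_pure _ hD ⟨⟨zl, zr, [], ar, _, _, hZL, hZR, hAL, hAR, hX, hP, hlx, hlp, hz, ha,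
      hμ'⟩, Fr.refl _ _⟩
  | left =>
    unfold headE
    rcases List.eq_nil_or_concat zl with rfl | ⟨zl', g, rfl⟩
    · refine ends_seq (one_nil hD .ZL .ZR (by simpa using hZL)) fun o D' hle ho => ?_
      obtain ⟨-, rfl⟩ := ho
      exact ends_pure _ hle ⟨⟨[], zr, [], ar, _, _, hZL, hZR, hAL, hAR, hX, hP, hlx, hlp, hz, ha,
        hμ'⟩, Fr.refl _ _⟩
    · rw [List.concat_eq_append] at *
      simp only [List.length_append, List.length_cons, List.length_nil] at hzlen
      refine ends_seq (hone .ZL .ZR (by decide) (by rw [hZR]; omega)) fun o D' hle ho => ?_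
      have e : D.st .ZL = g :: zl'.reverse := by rw [hZL]; simp
      rcases ho with ⟨h, -⟩ | ⟨g', l, h, -, rfl⟩
      · rw [e] at h; simp at h
      · rw [e] at h
        simp only [List.cons.injEq] at h
        obtain ⟨rfl, rfl⟩ := h
        refine ends_pure _ hle ⟨⟨zl', g :: zr, [], ar, _, _, ?_, ?_, ?_, ?_, ?_, ?_, hlx, hlp,
          ?_, ha, rfl, rfl, rfl, hpos, by simp, ?_⟩, ?_⟩
        · simp
        · simp [hZR]
        · simpa using hAL
        · simpa using hAR
        · simpa using hX
        · simpa using hP
        · rw [← hz]; simp
        · simp [movePos]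
        · intro j hj
          simp only [headSt, List.mem_cons, List.not_mem_nil, or_false, not_or] at hj
          simp [hj]
  | right =>
    unfold headE
    cases zr with
    | nil => exact absurd rfl hzr
    | cons g zr =>
      simp only [List.length_cons] at hzlen
      refine ends_seq (hone .ZR .ZL (by decide) (by rw [hZL, List.length_reverse]; omega))
        fun o D₁ hle ho => ?_
      rcases ho with ⟨h, -⟩ | ⟨g', l, h, -, rfl⟩
      · rw [hZR] at h; simp at h
      · rw [hZR] at h
        simp only [List.cons.injEq] at h
        obtain ⟨rfl, rfl⟩ := h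
        refine ends_seq ((hR G x sp _ hle).2.2.2.2.1 .ZR) fun o D₂ hle₂ ho₂ => ?_
        obtain ⟨rfl, rfl⟩ := ho₂
        simp only [Function.update_of_ne (show EN.ZR ≠ .ZL by decide), Function.update_self]
        cases zr with
        | cons g' zr =>
          refine ends_pure _ hle ⟨⟨zl ++ [g], g' :: zr, [], ar, _, _, ?_, ?_, ?_, ?_, ?_, ?_,
            hlx, hlp, ?_, ha, rfl, rfl, rfl, hpos, by simp, ?_⟩, ?_⟩
          · simp [hZL]
          · simp
          · simpa using hAL
          · simpa using hAR
          · simpa using hX
          · simpa using hP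
          · rw [← hz]; simp
          · simp only [List.length_cons] at hzlen
            simp only [movePos, hlen, List.length_append, List.length_cons, List.length_nil]
            omega
          · intro j hj
            simp only [headSt, List.mem_cons, List.not_mem_nil, or_false, not_or] at hj
            simp [hj]
        | nil =>
          refine ends_bind (ends_move _ hle ?_)
          refine ends_seq (cnt hR (by exact hle) ?_ true .X (by decide) (List.replicate q true)
            ?_) fun o D₃ hle₃ ho₃ => ?_
          · simpa using hT
          · simpa using hX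
          · obtain ⟨-, rfl⟩ := ho₃
            rw [hC.2.2.2.2.2.2.2.2.1 q] at hle₃ ⊢
            refine ends_pure _ hle₃ ⟨⟨zl ++ [g], [], [], ar, List.replicate q false, _, ?_, ?_,
              ?_, ?_, ?_, ?_, by simp, hlp, ?_, ha, rfl, rfl, rfl, ?_, ?_, ?_⟩, ?_⟩
            · simp [hZL]
            · simp
            · simpa using hAL
            · simpa using hAR
            · simp
            · simpa using hP
            · rw [← hz]; simp
            · rw [hC.2.2.2.1 q]
              simp only [movePos, hpos]
              omega
            · simp only [movePos, hpos]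
              omega
            · simp only [List.length_nil] at hzlen
              simp only [movePos, hpos, hlen]
              omega
            · intro j hj
              simp only [headSt, List.mem_cons, List.not_mem_nil, or_false, not_or] at hj
              simp [hj]

/-- The moves in the rest of `x`. -/
theorem head_x (hR : StERules) (hC : StCount) {vp : ℕ} (hD : D.le sp) (hT : D.st .T = [])
    (hrep : ERep x z s m q .x D vp) (hs : s.length < x.length) (hq : x.length < 2 ^ q)
    (hsp : z.length + s.length + 1 ≤ sp) (dir : Dir) :
    Ends x (headE (G := G) .x dir) sp D fun μ' D' =>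
      ERep x z s m q μ' D' (movePos (eword z (s ++ x.drop s.length) m).length dir vp) ∧
        Fr headSt D D' := by
  have hlen := len z s x m hs.le
  have h2m : 0 < 2 ^ m := Nat.two_pow_pos m
  obtain ⟨hc1, hc2, hc3, hc4, hc5, hc6, hc7, hc8, hc9, hc10, -⟩ := hC
  obtain ⟨zl, zr, al, ar, lx, lp, hZL, hZR, hAL, hAR, hX, hP, hlx, hlp, hz, ha, hμ⟩ := hrep
  have hμ' := hμ
  obtain ⟨rfl, rfl, rfl, hval, hpos, rfl⟩ := hμ
  have hzlen : zl.length = z.length + s.length + 1 := by
    have := congrArg List.length hz
    simpa [Nat.add_assoc] using this
  cases dir with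
  | stay =>
    exact ends_pure _ hD ⟨⟨zl, [], [], ar, _, _, hZL, hZR, hAL, hAR, hX, hP, hlx, hlp, hz, ha,
      hμ'⟩, Fr.refl _ _⟩
  | left =>
    unfold headE
    refine ends_bind (ends_move _ hD ?_)
    refine ends_seq (cnt (D := ⟨movePos x.length .left D.pos, D.st⟩) hR hD hT false .X
      (by decide) lx hX) fun o D₁ hle ho => ?_
    obtain ⟨rfl, rfl⟩ := ho
    cases hfl : (cstep false lx).2 with
    | true =>
      obtain ⟨h1, h2⟩ := hc7 lx hfl
      rw [h2] at hle ⊢
      have hv : val lx = 0 := by rw [h1]; exact hc4 _
      simp only [if_true]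
      refine ends_seq ((hR G x sp _ hle).2.2.2.2.2 .ZL .ZR (by decide) (by simp [hZR]; omega))
        fun o D₂ hle₂ ho₂ => ?_
      rcases List.eq_nil_or_concat zl with rfl | ⟨zl', g, rfl⟩
      · simp at hzlen
      rw [List.concat_eq_append] at *
      simp only [List.length_append, List.length_cons, List.length_nil] at hzlen
      rcases ho₂ with ⟨h, -⟩ | ⟨g', l, h, -, rfl⟩
      · simp [hZL] at h
      · simp only [Function.update_of_ne (show EN.ZL ≠ .X by decide), hZL, List.reverse_append,
          List.reverse_cons, List.reverse_nil, List.nil_append, List.cons_append,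
          List.cons.injEq] at h
        obtain ⟨rfl, rfl⟩ := h
        refine ends_pure _ hle₂ ⟨⟨zl', [g], [], ar, List.replicate q true, _, ?_, ?_, ?_, ?_, ?_,
          ?_, by simp, hlp, ?_, ha, rfl, rfl, rfl, ?_, by simp, ?_⟩, ?_⟩
        · simp
        · simp [hZR]
        · simpa using hAL
        · simpa using hAR
        · simp [hlx]
        · simpa using hP
        · rw [← hz]; simp
        · simp only [movePos]
          omega
        · simp only [movePos]
          omega
        · intro j hj
          simp only [headSt, List.mem_cons, List.not_mem_nil, or_false, not_or] at hj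
          simp [hj]
    | false =>
      have hv := hc8 lx hfl
      simp only [Bool.false_eq_true, if_false]
      refine ends_pure _ hle ⟨⟨zl, [], [], ar, (cstep false lx).1, _, ?_, ?_, ?_, ?_, ?_,
          ?_, by rw [hc1]; exact hlx, hlp, hz, ha, rfl, rfl, rfl, ?_, ?_, ?_⟩, ?_⟩
      · simpa using hZL
      · simpa using hZR
      · simpa using hAL
      · simpa using hAR
      · simp
      · simpa using hP
      · simp only [movePos]
        omega
      · simp only [movePos]
        omega
      · simp only [movePos]
        omega
      · intro j hj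
        simp only [headSt, List.mem_cons, List.not_mem_nil, or_false, not_or] at hj
        simp [hj]
  | right =>
    unfold headE
    refine ends_bind (ends_move _ hD ?_)
    refine ends_seq (cnt (D := ⟨movePos x.length .right D.pos, D.st⟩) hR hD hT true .X
      (by decide) lx hX) fun o D₁ hle ho => ?_
    obtain ⟨-, rfl⟩ := ho
    have hfl : (cstep true lx).2 = false := by
      cases hfl : (cstep true lx).2 with
      | false => rfl
      | true =>
        obtain ⟨h1, -⟩ := hc5 lx hfl
        have h2 := hc3 lx.length
        rw [← h1, hlx] at h2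
        omega
    have hv := hc6 lx hfl
    refine ends_bind (ends_read hle ?_)
    simp only [movePos]
    rcases Nat.lt_or_ge D.pos x.length with hlt | hge
    · rw [min_eq_left (by omega), inSym_some (List.getElem?_eq_getElem hlt)]
      rw [show movePos x.length .right D.pos = D.pos + 1 by simp only [movePos]; omega] at hle
      refine ends_pure _ hle ⟨⟨zl, [], [], ar, (cstep true lx).1, _, ?_, ?_, ?_, ?_, ?_,
          ?_, by rw [hc1]; exact hlx, hlp, hz, ha, rfl, rfl, rfl, ?_, ?_, ?_⟩, ?_⟩
      · simpa using hZL
      · simpa using hZR
      · simpa using hAL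
      · simpa using hAR
      · simp
      · simpa using hP
      · simp only
        omega
      · simp only
        omega
      · simp only [hlen]
        omega
      · intro j hj
        simp only [headSt, List.mem_cons, List.not_mem_nil, or_false, not_or] at hj
        simp [hj]
    · have hp : D.pos = x.length := by omega
      rw [min_eq_left (by omega), show D.pos + 1 = x.length + 1 by omega, inSym_last]
      rw [show movePos x.length .right D.pos = x.length + 1 by simp only [movePos]; omega] at hle
      refine ends_seq (cnt hR hle (by simpa using hT) true .P (by decide) (List.replicate m true)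
        (by simpa using hP)) fun o D₂ hle₂ ho₂ => ?_
      obtain ⟨-, rfl⟩ := ho₂
      rw [hc9 m] at hle₂ ⊢
      refine ends_pure _ hle₂ ⟨⟨zl, [], [], ar, (cstep true lx).1, List.replicate m false, ?_, ?_,
          ?_, ?_, ?_, ?_, by rw [hc1]; exact hlx, by simp, hz, ha, rfl, rfl, ?_, ?_, ?_⟩, ?_⟩
      · simpa using hZL
      · simpa using hZR
      · simpa using hAL
      · simpa using hAR
      · simp
      · simp
      · simp only
        omega
      · simp only
      · rw [hc4]
        simp only [hlen]
        omega
      · intro j hj
        simp only [headSt, List.mem_cons, List.not_mem_nil, or_false, not_or] at hj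
        simp [hj]

/-- The moves in the padding. -/
theorem head_p (hR : StERules) (hC : StCount) {vp : ℕ} (hD : D.le sp) (hT : D.st .T = [])
    (hrep : ERep x z s m q .p D vp) (hs : s.length < x.length) (dir : Dir) :
    Ends x (headE (G := G) .p dir) sp D fun μ' D' =>
      ERep x z s m q μ' D' (movePos (eword z (s ++ x.drop s.length) m).length dir vp) ∧
        Fr headSt D D' := by
  have hlen := len z s x m hs.le
  have h2m : 0 < 2 ^ m := Nat.two_pow_pos m
  obtain ⟨hc1, hc2, hc3, hc4, hc5, hc6, hc7, hc8, hc9, hc10, -⟩ := hC
  obtain ⟨zl, zr, al, ar, lx, lp, hZL, hZR, hAL, hAR, hX, hP, hlx, hlp, hz, ha, hμ⟩ := hrep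
  have hμ' := hμ
  obtain ⟨rfl, rfl, hval, hpos, rfl⟩ := hμ
  have hvm : val lp < 2 ^ m := by
    have := hc2 lp
    rwa [hlp] at this
  cases dir with
  | stay =>
    exact ends_pure _ hD ⟨⟨zl, [], [], ar, _, _, hZL, hZR, hAL, hAR, hX, hP, hlx, hlp, hz, ha,
      hμ'⟩, Fr.refl _ _⟩
  | left =>
    unfold headE
    refine ends_seq (cnt hR hD hT false .P (by decide) lp hP) fun o D₁ hle ho => ?_
    obtain ⟨rfl, rfl⟩ := ho
    cases hfl : (cstep false lp).2 with
    | true =>
      obtain ⟨h1, h2⟩ := hc7 lp hfl
      rw [h2] at hle ⊢
      have hv : val lp = 0 := by rw [h1]; exact hc4 _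
      simp only [if_true]
      refine ends_bind (ends_move _ hle ?_)
      refine ends_seq (cnt (D := ⟨movePos x.length .left D.pos, Function.update D.st .P
        ((List.replicate lp.length true).map .bit)⟩) hR hle (by simpa using hT) false .X
        (by decide) lx (by simpa using hX)) fun o D₂ hle₂ ho₂ => ?_
      obtain ⟨-, rfl⟩ := ho₂
      have hfx : (cstep false lx).2 = false := by
        cases hfx : (cstep false lx).2 with
        | false => rfl
        | true =>
          obtain ⟨h3, -⟩ := hc7 lx hfx
          have h4 := hc4 lx.length
          rw [← h3] at h4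
          omega
      have hvx := hc8 lx hfx
      refine ends_pure _ hle₂ ⟨⟨zl, [], [], ar, (cstep false lx).1, List.replicate lp.length true,
          ?_, ?_, ?_, ?_, ?_, ?_, by rw [hc1]; exact hlx, by simp [hlp], hz, ha, rfl, rfl,
          by rw [hlp], ?_, ?_, ?_⟩, ?_⟩
      · simpa using hZL
      · simpa using hZR
      · simpa using hAL
      · simpa using hAR
      · simp
      · simp
      · simp only [movePos]
        omega
      · simp only [movePos]
        omega
      · simp only [movePos]
        omega
      · intro j hj
        simp only [headSt, List.mem_cons, List.not_mem_nil, or_false, not_or] at hj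
        simp [hj]
    | false =>
      have hv := hc8 lp hfl
      simp only [Bool.false_eq_true, if_false]
      refine ends_pure _ hle ⟨⟨zl, [], [], ar, lx, (cstep false lp).1, ?_, ?_, ?_, ?_, ?_,
          ?_, hlx, by rw [hc1]; exact hlp, hz, ha, rfl, rfl, hval, hpos, ?_⟩, ?_⟩
      · simpa using hZL
      · simpa using hZR
      · simpa using hAL
      · simpa using hAR
      · simpa using hX
      · simp
      · simp only [movePos]
        omega
      · intro j hj
        simp only [headSt, List.mem_cons, List.not_mem_nil, or_false, not_or] at hj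
        simp [hj]
  | right =>
    unfold headE
    refine ends_seq (cnt hR hD hT true .P (by decide) lp hP) fun o D₁ hle ho => ?_
    obtain ⟨rfl, rfl⟩ := ho
    cases hfl : (cstep true lp).2 with
    | true =>
      obtain ⟨h1, h2⟩ := hc5 lp hfl
      rw [h2] at hle ⊢
      have hv : val lp + 1 = 2 ^ m := by rw [h1, ← hlp]; exact hc3 _
      simp only [if_true]
      refine ends_pure _ hle ⟨⟨zl, [], [], ar, lx, List.replicate lp.length false,
          ?_, ?_, ?_, ?_, ?_, ?_, hlx, by simp [hlp], hz, ha, rfl, by rw [hlp],
          hval, hpos, ?_⟩, ?_⟩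
      · simpa using hZL
      · simpa using hZR
      · simpa using hAL
      · simpa using hAR
      · simpa using hX
      · simp
      · simp only [movePos, hlen, List.length_nil]
        omega
      · intro j hj
        simp only [headSt, List.mem_cons, List.not_mem_nil, or_false, not_or] at hj
        simp [hj]
    | false =>
      have hv := hc6 lp hfl
      simp only [Bool.false_eq_true, if_false]
      refine ends_pure _ hle ⟨⟨zl, [], [], ar, lx, (cstep true lp).1, ?_, ?_, ?_, ?_, ?_,
          ?_, hlx, by rw [hc1]; exact hlp, hz, ha, rfl, rfl, hval, hpos, ?_⟩, ?_⟩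
      · simpa using hZL
      · simpa using hZR
      · simpa using hAL
      · simpa using hAR
      · simpa using hX
      · simp
      · simp only [movePos, hlen]
        omega
      · intro j hj
        simp only [headSt, List.mem_cons, List.not_mem_nil, or_false, not_or] at hj
        simp [hj]

/-- The moves in the advice. -/
theorem head_v (hR : StERules) (hC : StCount) (hA : StEAdv) {vp : ℕ} (hD : D.le sp)
    (hT : D.st .T = []) (hrep : ERep x z s m q .v D vp) (hs : s.length < x.length)
    (hsp : z.length + s.length + 1 ≤ sp) (dir : Dir) :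
    Ends x (headE (G := G) .v dir) sp D fun μ' D' =>
      ERep x z s m q μ' D' (movePos (eword z (s ++ x.drop s.length) m).length dir vp) ∧
        Fr headSt D D' := by
  have hlen := len z s x m hs.le
  have h2m : 0 < 2 ^ m := Nat.two_pow_pos m
  have haz := hA.1 z
  obtain ⟨-, -, -, -, -, hone⟩ := hR G x sp D hD
  obtain ⟨hc1, hc2, hc3, hc4, hc5, hc6, hc7, hc8, hc9, hc10, -⟩ := hC
  obtain ⟨zl, zr, al, ar, lx, lp, hZL, hZR, hAL, hAR, hX, hP, hlx, hlp, hz, ha, hμ⟩ := hrep
  have hμ' := hμ
  obtain ⟨rfl, rfl, hval, hpos, rfl⟩ := hμ
  have halen : al.length + ar.length = (advOf z).length := by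
    have := congrArg List.length ha
    simpa using this
  cases dir with
  | stay =>
    exact ends_pure _ hD ⟨⟨zl, [], al, ar, _, _, hZL, hZR, hAL, hAR, hX, hP, hlx, hlp, hz, ha,
      hμ'⟩, Fr.refl _ _⟩
  | right =>
    unfold headE
    refine ends_seq (hone .AR .AL (by decide) (by rw [hAL, List.length_reverse]; omega))
      fun o D₁ hle ho => ?_
    rcases ho with ⟨h, -, rfl⟩ | ⟨g, l, h, -, rfl⟩
    · rw [hAR] at h
      subst h
      refine ends_pure _ hle ⟨⟨zl, [], al, [], _, _, hZL, hZR, hAL, hAR, hX, hP, hlx, hlp, hz,
        ha, rfl, rfl, hval, hpos, ?_⟩, Fr.refl _ _⟩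
      simp only [List.length_nil] at halen
      simp only [movePos, hlen]
      omega
    · rw [hAR] at h
      subst h
      simp only [List.length_cons] at halen
      refine ends_pure _ hle ⟨⟨zl, [], al ++ [g], l, lx, _, ?_, ?_, ?_, ?_, ?_, ?_, hlx, hlp,
        hz, ?_, rfl, rfl, hval, hpos, ?_⟩, ?_⟩
      · simpa using hZL
      · simpa using hZR
      · simp [hAL]
      · simp
      · simpa using hX
      · simpa using hP
      · rw [← ha]; simp
      · simp only [movePos, hlen, List.length_append, List.length_cons, List.length_nil]
        omega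
      · intro j hj
        simp only [headSt, List.mem_cons, List.not_mem_nil, or_false, not_or] at hj
        simp [hj]
  | left =>
    unfold headE
    refine ends_seq (hone .AL .AR (by decide) (by rw [hAR]; omega)) fun o D₁ hle ho => ?_
    rcases ho with ⟨h, rfl, rfl⟩ | ⟨g, l, h, rfl, rfl⟩
    · rw [hAL, List.reverse_eq_nil_iff] at h
      subst h
      simp only [Bool.false_eq_true, if_false]
      refine ends_seq (cnt hR hle hT false .P (by decide) (List.replicate m false) hP)
        fun o D₂ hle₂ ho₂ => ?_
      obtain ⟨-, rfl⟩ := ho₂
      rw [hc10 m] at hle₂ ⊢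
      refine ends_pure _ hle₂ ⟨⟨zl, [], [], ar, lx, List.replicate m true,
          ?_, ?_, ?_, ?_, ?_, ?_, hlx, by simp, hz, ha, rfl, rfl, hval, hpos, ?_⟩, ?_⟩
      · simpa using hZL
      · simpa using hZR
      · simpa using hAL
      · simpa using hAR
      · simpa using hX
      · simp
      · have := hc3 m
        simp only [movePos, List.length_nil]
        omega
      · intro j hj
        simp only [headSt, List.mem_cons, List.not_mem_nil, or_false, not_or] at hj
        simp [hj]
    · rcases List.eq_nil_or_concat al with rfl | ⟨al', g', rfl⟩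
      · rw [hAL] at h; simp at h
      rw [List.concat_eq_append] at *
      rw [hAL] at h
      simp only [List.reverse_append, List.reverse_cons, List.reverse_nil, List.nil_append,
        List.cons_append, List.cons.injEq] at h
      obtain ⟨rfl, rfl⟩ := h
      simp only [List.length_append, List.length_cons, List.length_nil] at halen
      simp only [if_true]
      refine ends_pure _ hle ⟨⟨zl, [], al', g' :: ar, lx, _, ?_, ?_, ?_, ?_, ?_, ?_, hlx, hlp,
        hz, ?_, rfl, rfl, hval, hpos, ?_⟩, ?_⟩
      · simpa using hZL
      · simpa using hZR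
      · simp
      · simp [hAR]
      · simpa using hX
      · simpa using hP
      · rw [← ha]; simp
      · simp only [movePos, List.length_append, List.length_cons, List.length_nil]
        omega
      · intro j hj
        simp only [headSt, List.mem_cons, List.not_mem_nil, or_false, not_or] at hj
        simp [hj]

end EHead

open EHead in
theorem e_head (hR : StERules) (hC : StCount) (hA : StEAdv) : StEHead := by
  intro G _ x sp m q z s μ D vp hD hT hrep hs hq hsp
  refine ⟨sym hR hC hD hrep hs, fun dir => ?_⟩
  cases μ with
  | z => exact head_z hR hC hD hT hrep hs hsp dir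
  | x => exact head_x hR hC hD hT hrep hs hq hsp dir
  | p => exact head_p hR hC hD hT hrep hs dir
  | v => exact head_v hR hC hA hD hT hrep hs hsp dir

end Pool.Agent.Lib.MP_9dcf40_lc
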