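import Pool.Agent.Lib.MP_9dcf40_lc.Av.SpecM

/-!
# List lemmas for scans
-/

namespace Pool.Agent.Lib.MP_9dcf40_lc

open Rout

namespace EList

theorem eBit (G : Type) (b : Bool) : ∀ l : List Bool, scan (bStep (G := G) b) none () (l.map .bit) =
    (((), (cstep b l).2), (cstep b l).1.map .bit)
  | [] => rfl
  | a :: l => by
    have ih := eBit G b l
    by_cases h : a = b
    · subst h
      simp [scan, bStep, cstep, ih]
    · simp [scan, bStep, cstep, h]

theorem eInc (G : Type) : ∀ l : List Bool,
    (scan (bStep (G := G) true) (some (.bit true)) () (l.map .bit)).2 = (cinc l).map .bit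
  | [] => rfl
  | a :: l => by
    have ih := eInc G l
    cases a
    · simp [scan, bStep, cinc, cstep]
    · have h1 : cinc (true :: l) = false :: cinc l := by
        unfold cinc
        by_cases h : (cstep true l).2 = true
        · simp [cstep, h]
        · simp [cstep, h]
      rw [h1, List.map_cons, List.map_cons, ← ih]
      simp [scan, bStep]

theorem eH (G : Type) : ∀ h s : List Bool, h.length = s.length →
    scan (hStep (G := G)) none () (List.zipWith .pr h s) =
      (((), (cstep true h).2), List.zipWith .pr (cstep true h).1 s)
  | [], [], _ => rfl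
  | [], _ :: _, e => by simp at e
  | _ :: _, [], e => by simp at e
  | a :: h, b :: s, e => by
    have ih := eH G h s (by simpa using e)
    cases a
    · simp [scan, hStep, cstep]
    · simp [scan, hStep, cstep, ih]

theorem eS (G : Type) : ∀ h s : List Bool, h.length = s.length →
    scan (sStep (G := G)) none () (List.zipWith .pr h s) =
      (((), (cstep true s).2), List.zipWith .pr h (cstep true s).1)
  | [], [], _ => rfl
  | [], _ :: _, e => by simp at e
  | _ :: _, [], e => by simp at e
  | a :: h, b :: s, e => by
    have ih := eS G h s (by simpa using e)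
    cases b
    · simp [scan, sStep, cstep]
    · simp [scan, sStep, cstep, ih]

theorem eZ (G : Type) : ∀ z : List DA, scan (zStep (G := G)) none () (z.map .ltr) =
    (((), (lstep z).2), (lstep z).1.map .ltr)
  | [] => rfl
  | a :: z => by
    have ih := eZ G z
    cases a <;> simp [scan, zStep, lstep, lnext, ih]

theorem eD (G : Type) : ∀ (h s : List Bool) (t : Bool), h.length = s.length →
    scan (dStep (G := G)) none t (List.zipWith .pr h s) =
      (((t ^^ dot h s), true), List.zipWith .pr h s)
  | [], [], t, _ => by simp [scan, dot]
  | [], _ :: _, _, e => by simp at e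
  | _ :: _, [], _, e => by simp at e
  | a :: h, b :: s, t, e => by
    have ih := eD G h s (t ^^ (a && b)) (by simpa using e)
    simp [scan, dStep, ih, dot, Bool.xor_assoc]

theorem eMap (G : Type) (φ : EG G → EG G) : ∀ l : List (EG G),
    scan (τ := Unit) (fun _ g => ((), φ g, false)) none () l = (((), true), l.map φ)
  | [] => rfl
  | a :: l => by
    have ih := eMap G φ l
    simp [scan, ih]

theorem eEmit (G : Type) (φ : EG G → EG G) : ∀ l : List (EG G),
    (emit (τ := Unit) (fun _ g => ((), some (φ g))) () l).2 = l.map φ
  | [] => rfl
  | a :: l => by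
    have ih := eEmit G φ l
    simp [emit, ih]

theorem eAdv (G : Type) : ∀ z : List DA, emit (aStep (G := G)) .a (z.map .ltr) =
    ((advAux z).1, (advAux z).2.map .bit)
  | [] => rfl
  | a :: z => by
    have ih := eAdv G z
    rw [List.map_cons]
    simp only [emit, ih, aStep, advAux, List.map_append]
    cases (advF (advAux z).1 a).2 <;> rfl

theorem eSec (G : Type) : ∀ h s : List Bool, h.length = s.length →
    (List.zipWith (EG.pr (G := G)) h s).map secL = (s.map bitL).map .ltr ∧
    (List.zipWith (EG.pr (G := G)) h s).map clr2 =
      List.zipWith .pr h (List.replicate s.length false)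
  | [], [], _ => ⟨rfl, rfl⟩
  | [], _ :: _, e => by simp at e
  | _ :: _, [], e => by simp at e
  | a :: h, b :: s, e => by
    have ih := eSec G h s (by simpa using e)
    refine ⟨?_, ?_⟩
    · simp only [List.zipWith_cons_cons, List.map_cons, ih.1, secL]
    · simp only [List.zipWith_cons_cons, List.map_cons, ih.2, clr2, List.length_cons,
        List.replicate_succ]

end EList

theorem e_list : StEList :=
  ⟨EList.eBit, EList.eInc, EList.eH, EList.eS, EList.eZ, EList.eD, EList.eMap, EList.eEmit,
    EList.eAdv, EList.eSec⟩

end Pool.Agent.Lib.MP_9dcf40_lc
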