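import Pool.Agent.Lib.MP_9dcf40_lc.Av.Rules

/-!
# Preparation of the simulation (`StELoad`)
-/

namespace Pool.Agent.Lib.MP_9dcf40_lc

open Rout

namespace ELoad

/-- All stacks (`T` is empty). -/
def stk {G : Type} (st : EN → List (EG G)) (P X K WL WR ZL ZR AL AR : List (EG G)) :
    EN → List (EG G)
  | .N => st .N
  | .R => st .R
  | .P => P
  | .X => X
  | .K => K
  | .T => []
  | .WL => WL
  | .WR => WR
  | .ZL => ZL
  | .ZR => ZR
  | .AL => AL
  | .AR => AR
  | .Y => st .Y
  | .Z => st .Z
  | .C => st .C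

section

variable {G : Type} (st : EN → List (EG G)) (P X K WL WR ZL ZR AL AR L : List (EG G))

theorem stk_self (h : st .T = []) :
    st = stk st (st .P) (st .X) (st .K) (st .WL) (st .WR) (st .ZL) (st .ZR) (st .AL)
      (st .AR) := by
  funext j
  cases j
  case T => exact h
  all_goals rfl

theorem upd_P : Function.update (stk st P X K WL WR ZL ZR AL AR) .P L =
    stk st L X K WL WR ZL ZR AL AR := by
  funext j
  cases j <;> rfl

theorem upd_X : Function.update (stk st P X K WL WR ZL ZR AL AR) .X L =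
    stk st P L K WL WR ZL ZR AL AR := by
  funext j
  cases j <;> rfl

theorem upd_K : Function.update (stk st P X K WL WR ZL ZR AL AR) .K L =
    stk st P X L WL WR ZL ZR AL AR := by
  funext j
  cases j <;> rfl

theorem upd_WL : Function.update (stk st P X K WL WR ZL ZR AL AR) .WL L =
    stk st P X K L WR ZL ZR AL AR := by
  funext j
  cases j <;> rfl

theorem upd_WR : Function.update (stk st P X K WL WR ZL ZR AL AR) .WR L =
    stk st P X K WL L ZL ZR AL AR := by
  funext j
  cases j <;> rfl

theorem upd_ZL : Function.update (stk st P X K WL WR ZL ZR AL AR) .ZL L =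
    stk st P X K WL WR L ZR AL AR := by
  funext j
  cases j <;> rfl

theorem upd_ZR : Function.update (stk st P X K WL WR ZL ZR AL AR) .ZR L =
    stk st P X K WL WR ZL L AL AR := by
  funext j
  cases j <;> rfl

theorem upd_AL : Function.update (stk st P X K WL WR ZL ZR AL AR) .AL L =
    stk st P X K WL WR ZL ZR L AR := by
  funext j
  cases j <;> rfl

theorem upd_AR : Function.update (stk st P X K WL WR ZL ZR AL AR) .AR L =
    stk st P X K WL WR ZL ZR AL L := by
  funext j
  cases j <;> rfl

end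

/-- A step with known result. -/
theorem step {G β γ : Type} [Finite G] [Finite β] {x : List Bool} {s p p' : ℕ}
    {st st' st'' : EN → List (EG G)} {q : ER G β} {f : β → ER G γ}
    {Q : γ → Data (EG G) EN → Prop}
    (h : Ends x q s ⟨p, st⟩ fun _ D' => D' = ⟨p', st'⟩) (he : st' = st'')
    (h' : ∀ b, (⟨p', st''⟩ : Data (EG G) EN).le s → Ends x (f b) s ⟨p', st''⟩ Q) :
    Ends x (q.bind f) s ⟨p, st⟩ Q := by
  subst he
  refine ends_seq h ?_
  rintro b D' hD' rfl
  exact h' b hD'

end ELoad

open ELoad in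
/-- Preparation of the simulation. -/
theorem e_load (hR : StERules) (hC : StECopy) (hL : StEList) (hT : StETape) (hA : StEAdv) :
    StELoad := by
  rintro G _ x sp m q k z h s ⟨p, st⟩ hD ⟨hT0, hPm, hXq, hKk, hpos⟩ ⟨hZ, hY, hhs⟩ hsx hsp
  dsimp only at hT0 hPm hXq hKk hpos hZ hY
  have hst := stk_self st hT0
  have hYl : (st .Y).length = s.length := by
    rw [hY, List.length_zipWith, hhs, min_self]
  have hZl : (st .Z).length = z.length := by
    rw [hZ, List.length_map]
  have hS : (st .Y).map secL = (s.map bitL).map .ltr := by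
    rw [hY]
    exact (hL.2.2.2.2.2.2.2.2.2 G h s hhs).1
  have hE : (emit aStep .a (st .Z)).2 = (advOf z).map .bit := by
    rw [hZ, hL.2.2.2.2.2.2.2.2.1 G z]
  suffices H : Ends x (loadE (G := G)) sp
      ⟨p, stk st (st .P) (st .X) (st .K) (st .WL) (st .WR) (st .ZL) (st .ZR) (st .AL) (st .AR)⟩
      fun _ D' => D' = ⟨s.length, stk st (List.replicate m (.bit true))
        (List.replicate q (.bit true)) (List.replicate k (.bit false)) [] [] []
        (.mark :: (z ++ s.map bitL).map .ltr) [] ((advOf z).map .bit)⟩ by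
    rw [← hst] at H
    refine H.imp ?_
    rintro _ D' - rfl
    refine ⟨⟨⟨[], .mark :: (z ++ s.map bitL).map .ltr, [], (advOf z).map .bit,
      List.replicate q true, List.replicate m true, rfl, rfl, rfl, rfl, ?_, ?_, ?_, ?_, rfl, rfl,
      rfl, rfl, rfl, rfl, List.cons_ne_nil _ _, rfl⟩, rfl, rfl, ?_, rfl⟩, ?_⟩
    · rw [List.map_replicate]
      rfl
    · rw [List.map_replicate]
      rfl
    · rw [List.length_replicate]
    · rw [List.length_replicate]
    · rw [List.map_replicate]
      rfl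
    · intro j hj
      cases j
      case T => exact hT0.symm
      case N => rfl
      case R => rfl
      case Y => rfl
      case Z => rfl
      case C => rfl
      all_goals exact absurd (by simp [simSt]) hj
  rw [hst] at hD
  unfold loadE
  refine step ((hT G x sp _ hD).1 .ZL) (upd_ZL _ _ _ _ _ _ _ _ _ _ _) fun _ hD => ?_
  refine step ((hT G x sp _ hD).1 .ZR) (upd_ZR _ _ _ _ _ _ _ _ _ _ _) fun _ hD => ?_
  refine step ((hT G x sp _ hD).1 .AL) (upd_AL _ _ _ _ _ _ _ _ _ _ _) fun _ hD => ?_
  refine step ((hT G x sp _ hD).1 .AR) (upd_AR _ _ _ _ _ _ _ _ _ _ _) fun _ hD => ?_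
  refine step ((hT G x sp _ hD).1 .WL) (upd_WL _ _ _ _ _ _ _ _ _ _ _) fun _ hD => ?_
  refine step ((hT G x sp _ hD).1 .WR) (upd_WR _ _ _ _ _ _ _ _ _ _ _) fun _ hD => ?_
  refine step ((hR G x sp _ hD).2.2.1 secL .Y .ZR (by decide) (by decide)
    (by decide) rfl ?_) (upd_ZR _ _ _ _ _ _ _ _ _ _ _) fun _ hD => ?_
  · show (st .Y).length + 0 ≤ sp
    omega
  have e1 : List.map secL (stk st (st .P) (st .X) (st .K) [] [] [] [] [] [] .Y) ++
      stk st (st .P) (st .X) (st .K) [] [] [] [] [] [] .ZR = (s.map bitL).map .ltr := by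
    show (st .Y).map secL ++ [] = _
    rw [hS, List.append_nil]
  dsimp only at hD ⊢
  rw [e1] at hD ⊢
  refine step ((hR G x sp _ hD).2.2.1 id .Z .ZR (by decide) (by decide)
    (by decide) rfl ?_) (upd_ZR _ _ _ _ _ _ _ _ _ _ _) fun _ hD => ?_
  · show (st .Z).length + ((s.map bitL).map EG.ltr).length ≤ sp
    rw [List.length_map, List.length_map]
    omega
  have e2 : List.map id (stk st (st .P) (st .X) (st .K) [] [] [] ((s.map bitL).map .ltr) [] [] .Z) ++
      stk st (st .P) (st .X) (st .K) [] [] [] ((s.map bitL).map .ltr) [] [] .ZR =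
      (z ++ s.map bitL).map .ltr := by
    show (st .Z).map id ++ (s.map bitL).map .ltr = _
    rw [List.map_id, hZ, List.map_append]
  dsimp only at hD ⊢
  rw [e2] at hD ⊢
  refine step (ends_push .ZR .mark hD ?_ rfl) (upd_ZR _ _ _ _ _ _ _ _ _ _ _) fun _ hD => ?_
  · show ((z ++ s.map bitL).map EG.ltr).length + 1 ≤ sp
    rw [List.length_map, List.length_append, List.length_map]
    exact hsp
  have hadv : ((advOf z).map (EG.bit (G := G))).length ≤ sp := by
    rw [List.length_map]
    have := hA.1 z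
    omega
  refine step (hC G Fl aStep .Z .AR .a x sp _ (by decide) (by decide) (by decide) hD rfl ?_)
    (upd_AR _ _ _ _ _ _ _ _ _ _ _) fun _ hD => ?_
  · show (emit aStep .a (st .Z)).2.length + 0 ≤ sp
    rw [hE]
    exact hadv
  have e3 : ∀ ZR : List (EG G), (emit aStep .a
      (stk st (st .P) (st .X) (st .K) [] [] [] ZR [] [] .Z)).2 ++
      stk st (st .P) (st .X) (st .K) [] [] [] ZR [] [] .AR = (advOf z).map .bit := by
    intro ZR
    show (emit aStep .a (st .Z)).2 ++ [] = _
    rw [hE, List.append_nil]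
  dsimp only at hD ⊢
  rw [e3] at hD ⊢
  have e4 : ∀ (c : EG G) (L : List (EG G)) (n : ℕ), L.length = n →
      L.map (fun _ => c) = List.replicate n c := by
    intro c L n hn
    rw [List.map_const', hn]
  refine step ((hR G x sp _ hD).2.1 (fun _ => .bit true) .P (by decide) rfl)
    (upd_P _ _ _ _ _ _ _ _ _ _ _) fun _ hD => ?_
  refine step ((hR G x sp _ hD).2.1 (fun _ => .bit true) .X (by decide) rfl)
    (upd_X _ _ _ _ _ _ _ _ _ _ _) fun _ hD => ?_
  refine step ((hR G x sp _ hD).2.1 (fun _ => .bit false) .K (by decide) rfl)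
    (upd_K _ _ _ _ _ _ _ _ _ _ _) fun _ hD => ?_
  refine step ((hT G x sp _ hD).2.1 hpos) rfl fun _ hD => ?_
  refine ((hT G x sp _ hD).2.2.1 .Y (by decide) rfl (Nat.zero_le _)).imp ?_
  rintro _ D' - rfl
  have e5 : min (0 + (st .Y).length) (x.length + 1) = s.length := by
    rw [hYl]
    omega
  show (⟨min (0 + (st .Y).length) (x.length + 1), stk st ((st .P).map fun _ => .bit true)
    ((st .X).map fun _ => .bit true) ((st .K).map fun _ => .bit false) [] [] [] _ [] _⟩ :
      Data (EG G) EN) = _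
  rw [e5, e4 _ _ m hPm, e4 _ _ q hXq, e4 _ _ k hKk]
  rfl

end Pool.Agent.Lib.MP_9dcf40_lc
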