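import Pool.Agent.Lib.MP_9dcf40_lc.Av.SpecM

/-!
# Third main statement: average case
-/

set_option autoImplicit false

namespace Pool.Agent.Lib.MP_9dcf40_lc

open Filter

namespace EMain

theorem halts_mono {A : Type} (M : TM A) (z : List A) {T T' : ℕ} (h : M.HaltsIn z T)
    (hT : T ≤ T') : M.HaltsIn z T' := by
  intro ch
  induction T', hT using Nat.le_induction with
  | base => exact h ch
  | succ t _ ih =>
    have h1 : M.run z ch (t + 1) = M.next z (ch t) (M.run z ch t) := rfl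
    rw [h1]
    rcases ho : M.out (M.run z ch t).q with _ | b
    · exact absurd ho ih
    · have h2 : M.next z (ch t) (M.run z ch t) = M.run z ch t := by
        unfold TM.next
        rw [ho]
      rw [h2, ho]
      exact Option.some_ne_none b

theorem length_pairL {α : Type} (x : List α) (w : List Bool) :
    (pairL x w).length = x.length + w.length := by
  simp [pairL]

/-- the final numerical comparison -/
theorem num (n ℓ q : ℕ) (hq : q ≤ ℓ) (hℓ : ℓ + 1 ≤ n) :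
    ((2 ^ (n - 1) + 2 ^ (n - 1 - ℓ) : ℕ) : ℝ) ≤ ((1 / 2 : ℝ) + (1 / 2) ^ q) * 2 ^ n := by
  obtain ⟨m, rfl⟩ : ∃ m, n = m + 1 + ℓ := ⟨n - 1 - ℓ, by omega⟩
  have e1 : m + 1 + ℓ - 1 = m + ℓ := by omega
  have e2 : m + 1 + ℓ - 1 - ℓ = m := by omega
  rw [e2, e1]
  push_cast
  have h1 : (1 / 2 : ℝ) ^ ℓ ≤ (1 / 2) ^ q :=
    pow_le_pow_of_le_one (by norm_num) (by norm_num) hq
  have h2 : (0 : ℝ) < 2 ^ (m + 1 + ℓ) := by positivity
  have h3 : (1 / 2 : ℝ) ^ ℓ * 2 ^ (m + 1 + ℓ) = 2 ^ (m + 1) := by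
    rw [pow_add 2 (m + 1) ℓ, mul_left_comm, ← mul_pow]
    norm_num
  have h4 : (1 / 2 : ℝ) * 2 ^ (m + 1 + ℓ) = 2 ^ (m + ℓ) := by
    rw [show m + 1 + ℓ = m + ℓ + 1 by ring, pow_succ]
    ring
  have h5 : (2 : ℝ) ^ m ≤ 2 ^ (m + 1) := by
    apply pow_le_pow_right₀ (by norm_num)
    omega
  calc (2 : ℝ) ^ (m + ℓ) + 2 ^ m ≤ 2 ^ (m + ℓ) + (1 / 2 : ℝ) ^ ℓ * 2 ^ (m + 1 + ℓ) := by
        rw [h3]
        linarith
    _ ≤ 2 ^ (m + ℓ) + (1 / 2 : ℝ) ^ q * 2 ^ (m + 1 + ℓ) := by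
        have := mul_le_mul_of_nonneg_right h1 h2.le
        linarith
    _ = _ := by
        rw [add_mul, h4]

/-- the common part of the two claims -/
theorem main (hC : StEContr) (hN : StENumQ) (nd : Bool) (c d : ℕ)
    (hK : Adv InPolyL PolyLog (Option DA) (KU nd)) :
    ∃ L : Set (List Bool), InPolyL Bool L ∧
      ∀ (M : TM (Bool ⊕ Bool)) (k : ℕ) (h : ℕ → List Bool), (nd = false → M.IsDet) →
        (∀ x, M.HaltsIn x (2 ^ (k * (Nat.log 2 x.length + 1) ^ d))) →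
        (∀ n : ℕ, (h n).length ≤ Nat.log 2 n ^ c + c) →
        ¬ ∃ᶠ n : ℕ in atTop, ((1 / 2 : ℝ) + (1 / 2) ^ (Nat.log 2 n ^ c)) * (Nat.card Bool : ℝ) ^ n <
          ({x : List Bool | x.length = n ∧
            (x ∈ L ↔ M.Accepts (pairL x (h x.length)))}.ncard : ℝ) := by
  obtain ⟨B, v, hB, ⟨ka, hv⟩, hiff⟩ := hK
  obtain ⟨e₁, he₁⟩ := hN c d ka
  obtain ⟨L, hL, hM⟩ := hC nd B v d e₁ hB hiff
  refine ⟨L, hL, fun M k h hdet hk hal hfreq => ?_⟩
  obtain ⟨C₀, hC₀⟩ := hM M hdet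
  have hN' := he₁ C₀ k (fun n => (v n).length) (fun n => (h n).length) hv hal
  obtain ⟨n, hlt, hn, h1, h2, h3, h4⟩ := (hfreq.and_eventually (hC₀.and hN')).exists
  have hle := hn (h n) (2 ^ (k * (Nat.log 2 (n + (h n).length) + 1) ^ d)) h1 h2 (fun x hx => by
    refine halts_mono M _ (hk _) ?_
    rw [length_pairL, hx])
  have hset : {x : List Bool | x.length = n ∧ (x ∈ L ↔ M.Accepts (pairL x (h x.length)))} =
      {x : List Bool | x.length = n ∧ (x ∈ L ↔ M.Accepts (pairL x (h n)))} := by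
    ext x
    simp only [Set.mem_setOf_eq]
    constructor
    · rintro ⟨rfl, h5⟩
      exact ⟨rfl, h5⟩
    · rintro ⟨rfl, h5⟩
      exact ⟨rfl, h5⟩
  rw [hset] at hlt
  have hcard : (Nat.card Bool : ℝ) = 2 := by
    simp
  rw [hcard] at hlt
  have h5 := num n _ _ h3 h4
  have h6 : (({x : List Bool | x.length = n ∧ (x ∈ L ↔ M.Accepts (pairL x (h n)))}.ncard : ℕ) : ℝ) ≤
      ((2 ^ (n - 1) + 2 ^ (n - 1 - (Nat.size n + 1) ^ e₁) : ℕ) : ℝ) := by
    exact_mod_cast hle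
  exact absurd (hlt.trans_le (h6.trans h5)) (lt_irrefl _)

end EMain

open EMain in
theorem e_main (hC : StEContr) (hN : StENumQ) (hD : StKD) (hK : StKN) : StEMain := by
  constructor
  · intro hI c d
    have h1 : Adv InPolyL PolyLog (Option DA) (KU false) := hI (Option DA) KD hD
    obtain ⟨L, hL1, hL2⟩ := main hC hN false c d h1
    refine ⟨L, hL1, ?_⟩
    rintro ⟨B', h, ⟨M, hdet, ⟨k, hk⟩, hacc⟩, hal, hfreq⟩
    refine hL2 M k h (fun _ => hdet) hk hal (hfreq.mono fun n hn => ?_)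
    have hset : {x : List Bool | x.length = n ∧ (x ∈ L ↔ M.Accepts (pairL x (h x.length)))} =
        {x : List Bool | x.length = n ∧
          (x ∈ L ↔ x.map Sum.inl ++ (h x.length).map Sum.inr ∈ B')} := by
      ext x
      simp only [Set.mem_setOf_eq, hacc]
      rfl
    rw [hset]
    exact hn
  · intro hI c d
    have h1 : Adv InPolyL PolyLog (Option DA) (KU true) := hI (Option DA) KN hK
    obtain ⟨L, hL1, hL2⟩ := main hC hN true c d h1
    refine ⟨L, hL1, ?_⟩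
    rintro ⟨B', h, ⟨M, ⟨k, hk⟩, hacc⟩, hal, hfreq⟩
    refine hL2 M k h (fun hh => absurd hh (by simp)) hk hal (hfreq.mono fun n hn => ?_)
    have hset : {x : List Bool | x.length = n ∧ (x ∈ L ↔ M.Accepts (pairL x (h x.length)))} =
        {x : List Bool | x.length = n ∧
          (x ∈ L ↔ x.map Sum.inl ++ (h x.length).map Sum.inr ∈ B')} := by
      ext x
      simp only [Set.mem_setOf_eq, hacc]
      rfl
    rw [hset]
    exact hn

end Pool.Agent.Lib.MP_9dcf40_lc
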