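import Pool.Agent.Lib.MP_9dcf40_lc.Av.SpecM
import Pool.Agent.Lib.MP_9dcf40_lc.FNumD

/-!
# Numerical bounds for the averaging machine
-/

namespace Pool.Agent.Lib.MP_9dcf40_lc

open Filter

namespace ENumD

lemma size_pos {n : ℕ} (hn : 1 ≤ n) : 2 ≤ Nat.size n + 1 := by
  have := Nat.size_pos.2 (show 0 < n by omega)
  omega

/-- For `2 ≤ L` the two additional terms are absorbed by a higher exponent. -/
lemma absorb (L d e₁ : ℕ) (hL : 2 ≤ L) :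
    L ^ (d + 1) + 7 * L ^ e₁ ≤ L ^ (d + e₁ + 5) ∧
      2 * L ^ e₁ + 2 ^ L ^ (d + 1) ≤ 2 ^ L ^ (d + e₁ + 5) := by
  have hA : 1 ≤ L ^ e₁ := Nat.one_le_pow _ _ (by omega)
  have hB : 1 ≤ L ^ (d + 1) := Nat.one_le_pow _ _ (by omega)
  have h4 : 16 ≤ L ^ 4 := by
    calc 16 = 2 ^ 4 := by norm_num
      _ ≤ L ^ 4 := Nat.pow_le_pow_left hL 4
  have hE : L ^ (d + e₁ + 5) = L ^ (d + 1) * L ^ e₁ * L ^ 4 := by
    rw [← pow_add, ← pow_add]
    congr 1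
    ring
  have hAB : L ^ (d + 1) + 7 * L ^ e₁ ≤ 16 * (L ^ (d + 1) * L ^ e₁) := by
    generalize L ^ (d + 1) = B at *
    generalize L ^ e₁ = A at *
    nlinarith [Nat.mul_le_mul hB hA, Nat.mul_le_mul_left B hA, Nat.mul_le_mul_right A hB]
  have h1 : L ^ (d + 1) + 7 * L ^ e₁ ≤ L ^ (d + e₁ + 5) := by
    rw [hE]
    calc _ ≤ 16 * (L ^ (d + 1) * L ^ e₁) := hAB
      _ ≤ L ^ 4 * (L ^ (d + 1) * L ^ e₁) := Nat.mul_le_mul_right _ h4
      _ = _ := by ring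
  refine ⟨h1, ?_⟩
  have h2 : 2 ^ (L ^ (d + 1) + L ^ e₁) ≤ 2 ^ L ^ (d + e₁ + 5) :=
    Nat.pow_le_pow_right (by norm_num) (by omega)
  refine le_trans ?_ h2
  rw [pow_add 2 (L ^ (d + 1)) (L ^ e₁)]
  have h3 : L ^ e₁ + 1 ≤ 2 ^ L ^ e₁ := Nat.lt_two_pow_self
  have h5 : 2 ≤ 2 ^ L ^ (d + 1) := by
    calc 2 = 2 ^ 1 := rfl
      _ ≤ 2 ^ L ^ (d + 1) := Nat.pow_le_pow_right (by norm_num) hB
  generalize L ^ (d + 1) = B at *
  generalize L ^ e₁ = A at *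
  calc 2 * A + 2 ^ B ≤ 2 ^ B * A + 2 ^ B := Nat.add_le_add_right (Nat.mul_le_mul_right A h5) _
    _ = 2 ^ B * (A + 1) := by ring
    _ ≤ 2 ^ B * 2 ^ A := Nat.mul_le_mul_left _ h3

lemma mono_k (m k' c : ℕ) : m ^ k' + k' ≤ m ^ (k' + c) + (k' + c) := by
  rcases Nat.eq_zero_or_pos m with rfl | hm
  · rcases Nat.eq_zero_or_pos k' with rfl | hk
    · rcases Nat.eq_zero_or_pos c with rfl | hc
      · simp
      · simp [Nat.pos_iff_ne_zero.1 hc]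
        omega
    · have h1 : k' ≠ 0 := by omega
      have h2 : k' + c ≠ 0 := by omega
      rw [zero_pow h1, zero_pow h2]
      omega
  · have := Nat.pow_le_pow_right hm (Nat.le_add_right k' c)
    omega

end ENumD

theorem e_numd : StENumD := by
  intro a g k d e₁
  refine ⟨(d + e₁ + 5 + 1) * (k + 1) + 1, ?_, ?_⟩
  · filter_upwards [eventually_ge_atTop (2 ^ (a + 3 + (g + 1) * (2 * (2 ^ k + k) + 1)))] with n hn
    intro N hN
    have h0 : 1 ≤ n := le_trans Nat.one_le_two_pow hn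
    have h1 := (ENumD.absorb (Nat.size n + 1) d e₁ (ENumD.size_pos h0)).2
    refine FNumD.first a g k (d + e₁ + 5) n N (by omega) ?_
    have := Nat.lt_size.2 hn
    omega
  · obtain ⟨k', hk'⟩ := FNumD.second k (d + e₁ + 5) ((d + e₁ + 5 + 1) * (k + 1) + 1)
    refine ⟨k' + (19 + 2 ^ k + k), fun n => ?_⟩
    rcases Nat.eq_zero_or_pos n with rfl | hn
    · have hlog : Nat.log 2 (0 + 2 * (0 + 1) ^ e₁ + 2 ^ (0 + 1) ^ (d + 1)) = 2 := by
        have : 0 + 2 * (0 + 1) ^ e₁ + 2 ^ (0 + 1) ^ (d + 1) = 2 ^ 2 := by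
          simp
        rw [this]
        exact Nat.log_pow (by norm_num) 2
      simp only [Nat.size_zero]
      rw [hlog]
      simp only [zero_add, one_pow]
      omega
    · obtain ⟨h1, h2⟩ := ENumD.absorb (Nat.size n + 1) d e₁ (ENumD.size_pos hn)
      have h3 : Nat.log 2 (n + 2 * (Nat.size n + 1) ^ e₁ + 2 ^ (Nat.size n + 1) ^ (d + 1)) ^ k ≤
          Nat.log 2 (2 * n + 2 ^ (Nat.size n + 1) ^ (d + e₁ + 5)) ^ k :=
        Nat.pow_le_pow_left (Nat.log_mono_right (by omega)) k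
      have h4 := hk' n
      have h5 := ENumD.mono_k (Nat.log 2 n) k' (19 + 2 ^ k + k)
      omega

end Pool.Agent.Lib.MP_9dcf40_lc
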