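import Pool.Agent.Lib.MP_9dcf40_lc.Av.SpecM
import Pool.Agent.Lib.MP_9dcf40_lc.FNumQ

/-!
# Numbers for the average case
-/

set_option autoImplicit false

open Filter

namespace Pool.Agent.Lib.MP_9dcf40_lc

namespace ENumQ

theorem nat_poly (A E : ℕ) : ∀ᶠ n : ℕ in atTop, A * (Nat.size n + 1) ^ E ≤ n := by
  filter_upwards [FNumQAux.poly_size_le A E one_pos] with n hn
  rw [Real.rpow_one] at hn
  exact_mod_cast hn

theorem size_large (K : ℕ) : ∀ᶠ n : ℕ in atTop, K ≤ Nat.size n := by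
  filter_upwards [eventually_ge_atTop (2 ^ K)] with n hn
  exact (Nat.lt_size.2 hn).le

theorem log_le (n : ℕ) : Nat.log 2 n ≤ Nat.size n := by
  rcases Nat.eq_zero_or_pos n with h | h
  · subst h
    simp
  · apply le_of_lt
    exact Nat.log_lt_of_lt_pow h.ne' (Nat.lt_size_self n)

end ENumQ

open ENumQ in
theorem e_numq : StENumQ := by
  intro c d ka
  refine ⟨(d + 1) * ka + c + 3, ?_⟩
  intro C₀ k a b ha hb
  set e₁ := (d + 1) * ka + c + 3 with he₁
  filter_upwards [nat_poly 2 e₁, nat_poly 1 (c + 1), nat_poly 4 1,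
    size_large (C₀ + 1 + c + 2 ^ ka + ka), size_large (k + 1), size_large (c + 1)]
    with n h1 h2 h3 h4 h5 h6
  set s := Nat.size n + 1 with hs
  have hs2 : 2 ≤ s := by omega
  have hs1 : 1 ≤ s := by omega
  have hlt : n < 2 ^ Nat.size n := Nat.lt_size_self n
  have hlogn : Nat.log 2 n ≤ s := (log_le n).trans (Nat.le_succ _)
  have hpe : 1 ≤ s ^ e₁ := Nat.one_le_pow _ _ hs1
  have hse : s ≤ s ^ e₁ := Nat.le_self_pow (by omega) s
  -- b
  have hbs : b n ≤ s ^ c + c := (hb n).trans (Nat.add_le_add_right (Nat.pow_le_pow_left hlogn c) c)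
  have hbn : b n ≤ n := by
    have h7 : s ^ c + c ≤ s ^ (c + 1) := by
      rw [pow_succ]
      have h8 : 1 ≤ s ^ c := Nat.one_le_pow _ _ hs1
      have h9 : c + 1 ≤ s := by omega
      calc s ^ c + c ≤ s ^ c * 1 + s ^ c * c := by nlinarith
        _ = s ^ c * (c + 1) := by ring
        _ ≤ s ^ c * s := Nat.mul_le_mul_left _ h9
    omega
  have hlog : Nat.log 2 (n + b n) + 1 ≤ s := by
    rcases Nat.eq_zero_or_pos (n + b n) with h0 | h0
    · rw [h0]
      simp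
      omega
    · have h7 : Nat.log 2 (n + b n) < Nat.size n + 1 := by
        apply Nat.log_lt_of_lt_pow h0.ne'
        calc n + b n ≤ 2 * n := by omega
          _ < 2 * 2 ^ Nat.size n := by omega
          _ = 2 ^ (Nat.size n + 1) := by ring
      omega
  -- the long word
  have hsd : s ≤ s ^ (d + 1) := Nat.le_self_pow (by omega) s
  have hN : Nat.log 2 (n + s ^ e₁ + 2 ^ s ^ (d + 1)) ≤ 2 * s ^ (d + 1) := by
    have h7 : Nat.log 2 (n + s ^ e₁ + 2 ^ s ^ (d + 1)) < s + s ^ (d + 1) + 1 := by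
      apply Nat.log_lt_of_lt_pow (by positivity)
      have e1 : 2 ^ s ≤ 2 ^ (s + s ^ (d + 1)) := Nat.pow_le_pow_right (by norm_num) (by omega)
      have e2 : 2 ^ s ^ (d + 1) ≤ 2 ^ (s + s ^ (d + 1)) :=
        Nat.pow_le_pow_right (by norm_num) (by omega)
      have e3 : 2 * 2 ^ Nat.size n = 2 ^ s := by
        rw [hs, pow_succ]
        ring
      calc n + s ^ e₁ + 2 ^ s ^ (d + 1) < 2 ^ s + 2 ^ s ^ (d + 1) := by omega
        _ ≤ 2 ^ (s + s ^ (d + 1)) + 2 ^ (s + s ^ (d + 1)) := by omega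
        _ = 2 ^ (s + s ^ (d + 1) + 1) := by ring
    omega
  have haN : a (n + s ^ e₁ + 2 ^ s ^ (d + 1)) ≤ 2 ^ ka * s ^ ((d + 1) * ka) + ka := by
    calc a (n + s ^ e₁ + 2 ^ s ^ (d + 1))
        ≤ Nat.log 2 (n + s ^ e₁ + 2 ^ s ^ (d + 1)) ^ ka + ka := ha _
      _ ≤ (2 * s ^ (d + 1)) ^ ka + ka := by
          have := Nat.pow_le_pow_left hN ka
          omega
      _ = 2 ^ ka * s ^ ((d + 1) * ka) + ka := by rw [mul_pow, ← pow_mul]
  refine ⟨?_, ?_, ?_, ?_⟩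
  · have hE : 1 ≤ s ^ ((d + 1) * ka + c) := Nat.one_le_pow _ _ hs1
    have hE1 : s ^ c ≤ s ^ ((d + 1) * ka + c) := Nat.pow_le_pow_right hs1 (by omega)
    have hE2 : s ^ ((d + 1) * ka) ≤ s ^ ((d + 1) * ka + c) := Nat.pow_le_pow_right hs1 (by omega)
    calc C₀ + b n + a (n + s ^ e₁ + 2 ^ s ^ (d + 1))
        ≤ C₀ * 1 + (1 * s ^ c + c * 1) + (2 ^ ka * s ^ ((d + 1) * ka) + ka * 1) := by omega
      _ ≤ C₀ * s ^ ((d + 1) * ka + c) + (1 * s ^ ((d + 1) * ka + c) +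
            c * s ^ ((d + 1) * ka + c)) + (2 ^ ka * s ^ ((d + 1) * ka + c) +
            ka * s ^ ((d + 1) * ka + c)) := by gcongr
      _ = (C₀ + 1 + c + 2 ^ ka + ka) * s ^ ((d + 1) * ka + c) := by ring
      _ ≤ s * s ^ ((d + 1) * ka + c) := Nat.mul_le_mul_right _ (by omega)
      _ = s ^ ((d + 1) * ka + c + 1) := by ring
      _ ≤ s ^ e₁ := Nat.pow_le_pow_right hs1 (by omega)
  · have hX : 1 ≤ s ^ d := Nat.one_le_pow _ _ hs1
    have h7 : k * (Nat.log 2 (n + b n) + 1) ^ d + 1 ≤ s ^ (d + 1) := by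
      have h8 : (Nat.log 2 (n + b n) + 1) ^ d ≤ s ^ d := Nat.pow_le_pow_left hlog d
      calc k * (Nat.log 2 (n + b n) + 1) ^ d + 1 ≤ k * s ^ d + s ^ d :=
            Nat.add_le_add (Nat.mul_le_mul_left k h8) hX
        _ = (k + 1) * s ^ d := by ring
        _ ≤ s * s ^ d := Nat.mul_le_mul_right _ (by omega)
        _ = s ^ (d + 1) := by ring
    obtain ⟨m, hm⟩ : ∃ m, s ^ (d + 1) = m + 1 := ⟨s ^ (d + 1) - 1, by omega⟩
    have h9 : 2 ^ (k * (Nat.log 2 (n + b n) + 1) ^ d) ≤ 2 ^ m :=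
      Nat.pow_le_pow_right (by norm_num) (by omega)
    have h10 : 2 ^ Nat.size n ≤ 2 ^ m := Nat.pow_le_pow_right (by norm_num) (by omega)
    have h11 : 2 ^ (m + 1) = 2 ^ m * 2 := pow_succ 2 m
    have h12 : s ^ e₁ + 2 ≤ n := by omega
    rw [hm, h11]
    omega
  · exact (Nat.pow_le_pow_left hlogn c).trans (Nat.pow_le_pow_right hs1 (by omega))
  · omega

end Pool.Agent.Lib.MP_9dcf40_lc
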