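import Pool.Agent.Lib.MP_9dcf40_lc.Av.SpecM

/-!
# Enumeration of words by counters
-/

namespace Pool.Agent.Lib.MP_9dcf40_lc

namespace EOdo

theorem mem_bl (n : ℕ) : ∀ l, l ∈ bl n ↔ l.length = n := by
  induction n with
  | zero =>
    intro l
    rw [List.length_eq_zero_iff]
    simp [bl]
  | succ n ih =>
    intro l
    simp only [bl, Finset.mem_union, Finset.mem_image]
    constructor
    · rintro (⟨s, hs, rfl⟩ | ⟨s, hs, rfl⟩)
      · rw [List.length_cons, (ih s).1 hs]
      · rw [List.length_cons, (ih s).1 hs]
    · intro h
      cases l with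
      | nil => simp at h
      | cons a l =>
        have h1 : l.length = n := by simpa using h
        cases a
        · exact Or.inl ⟨l, (ih l).2 h1, rfl⟩
        · exact Or.inr ⟨l, (ih l).2 h1, rfl⟩

theorem card_bl (n : ℕ) : (bl n).card = 2 ^ n := by
  induction n with
  | zero => simp [bl]
  | succ n ih =>
    rw [bl, Finset.card_union_of_disjoint, Finset.card_image_of_injective _ (List.cons_injective),
      Finset.card_image_of_injective _ (List.cons_injective), ih]
    · ring
    · rw [Finset.disjoint_left]
      intro l h1 h2
      obtain ⟨s, -, rfl⟩ := Finset.mem_image.1 h1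
      obtain ⟨t, -, ht⟩ := Finset.mem_image.1 h2
      simp at ht

theorem len_lst (n : ℕ) : ∀ v, (lst n v).length = n := by
  induction n with
  | zero => intro v; rfl
  | succ n ih => intro v; rw [lst, List.length_cons, ih]

theorem val_lst (n : ℕ) : ∀ v, val (lst n v) = v % 2 ^ n := by
  induction n with
  | zero => intro v; simp [lst, val, Nat.mod_one]
  | succ n ih =>
    intro v
    rw [lst, val, ih, pow_succ, Nat.mul_comm (2 ^ n) 2, Nat.mod_mul]
    by_cases h : v % 2 = 1
    · simp [h]
    · have h0 : v % 2 = 0 := by omega
      simp [h0]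

theorem lst_val : ∀ l : List Bool, lst l.length (val l) = l
  | [] => rfl
  | a :: l => by
    rw [List.length_cons, lst]
    cases a
    · have h1 : val (false :: l) = 2 * val l := by simp [val]
      rw [h1, Nat.mul_div_cancel_left _ (by norm_num), lst_val l]
      simp
    · have h1 : val (true :: l) = 1 + 2 * val l := by simp [val]
      have h2 : (1 + 2 * val l) / 2 = val l := by omega
      have h3 : (1 + 2 * val l) % 2 = 1 := by omega
      rw [h1, h2, lst_val l, h3]
      simp

theorem step_lst (n : ℕ) : ∀ v, v + 1 < 2 ^ n → cstep true (lst n v) = (lst n (v + 1), false) := by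
  induction n with
  | zero => intro v hv; simp at hv
  | succ n ih =>
    intro v hv
    rw [lst, lst]
    rw [pow_succ] at hv
    by_cases h : v % 2 = 1
    · have h1 := ih (v / 2) (by omega)
      have h2 : (v + 1) % 2 = 0 := by omega
      have h3 : (v + 1) / 2 = v / 2 + 1 := by omega
      rw [h3]
      simp [cstep, h, h1, h2]
    · have h0 : v % 2 = 0 := by omega
      have h2 : (v + 1) % 2 = 1 := by omega
      have h3 : (v + 1) / 2 = v / 2 := by omega
      rw [h3]
      simp [cstep, h0, h2]

theorem step_last (n : ℕ) : cstep true (lst n (2 ^ n - 1)) = (lst n 0, true) := by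
  induction n with
  | zero => rfl
  | succ n ih =>
    have h0 : 0 < 2 ^ n := by positivity
    have h1 : (2 ^ (n + 1) - 1) % 2 = 1 := by rw [pow_succ]; omega
    have h2 : (2 ^ (n + 1) - 1) / 2 = 2 ^ n - 1 := by rw [pow_succ]; omega
    rw [lst, lst, h1, h2]
    simp [cstep, ih]

theorem lst_zero (n : ℕ) : lst n 0 = List.replicate n false := by
  induction n with
  | zero => rfl
  | succ n ih => rw [lst, List.replicate_succ, Nat.zero_div, ih]; simp

theorem count_lst (n : ℕ) (p : List Bool → Prop) [DecidablePred p] :
    Nat.count (fun v => p (lst n v)) (2 ^ n) = {s : List Bool | s.length = n ∧ p s}.ncard := by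
  classical
  rw [Nat.count_eq_card_filter_range]
  have h1 : {s : List Bool | s.length = n ∧ p s} =
      (((Finset.range (2 ^ n)).filter fun v => p (lst n v)).image (lst n) : Finset (List Bool)) := by
    ext s
    simp only [Set.mem_setOf_eq, Finset.coe_image, Finset.coe_filter, Finset.mem_range,
      Set.mem_image]
    constructor
    · rintro ⟨h1, h2⟩
      have h3 : lst n (val s) = s := by
        rw [← h1]
        exact lst_val s
      have h4 : val s < 2 ^ n := by
        rw [← h3, val_lst]
        exact Nat.mod_lt _ (by positivity)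
      exact ⟨val s, ⟨h4, by rw [h3]; exact h2⟩, h3⟩
    · rintro ⟨v, ⟨_, h2⟩, rfl⟩
      exact ⟨len_lst n v, h2⟩
  rw [h1, Set.ncard_coe_finset, Finset.card_image_of_injOn]
  intro v hv w hw h
  have hv' : v < 2 ^ n := Finset.mem_range.1 (Finset.mem_filter.1 hv).1
  have hw' : w < 2 ^ n := Finset.mem_range.1 (Finset.mem_filter.1 hw).1
  have h2 := congrArg val h
  rw [val_lst, val_lst, Nat.mod_eq_of_lt hv', Nat.mod_eq_of_lt hw'] at h2
  exact h2

theorem len_lstep : ∀ z, (lstep z).1.length = z.length
  | [] => rfl
  | a :: l => by
    have h := len_lstep l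
    cases a <;> simp [lstep, lnext, h]

theorem lval_lt : ∀ z, lval z < 8 ^ z.length
  | [] => by simp [lval]
  | a :: l => by
    have h := lval_lt l
    rw [List.length_cons, pow_succ]
    cases a <;> simp only [lval, lnum] <;> omega

theorem lval_inj : ∀ z z' : List DA, z.length = z'.length → lval z = lval z' → z = z'
  | [], [], _, _ => rfl
  | [], b :: l, h, _ => by simp at h
  | a :: l, [], h, _ => by simp at h
  | a :: l, b :: l', h, h' => by
    have h1 : l.length = l'.length := by simpa using h
    have h2 : lnum a = lnum b ∧ lval l = lval l' := by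
      rw [lval, lval] at h'
      have ha : lnum a < 8 := by cases a <;> simp [lnum]
      have hb : lnum b < 8 := by cases b <;> simp [lnum]
      omega
    have h3 : a = b := by
      have := h2.1
      revert this
      cases a <;> cases b <;> simp [lnum]
    rw [h3, lval_inj l l' h1 h2.2]

theorem lstep_false : ∀ z, (lstep z).2 = false → lval (lstep z).1 = lval z + 1
  | [], h => by simp [lstep] at h
  | a :: l, h => by
    have ih := lstep_false l
    revert h
    cases a <;> simp only [lstep, lnext, lval, lnum] <;> intro h
    all_goals try omega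
    have := ih h
    omega

theorem lstep_true : ∀ z, (lstep z).2 = true → lval z + 1 = 8 ^ z.length
  | [], _ => by simp [lval]
  | a :: l, h => by
    have ih := lstep_true l
    revert h
    rw [List.length_cons, pow_succ]
    cases a <;> simp only [lstep, lnext, lval, lnum] <;> intro h
    all_goals try exact (Bool.false_ne_true h).elim
    have := ih h
    omega

theorem lstep_rep : ∀ z, (lstep z).2 = true → (lstep z).1 = List.replicate z.length .zero
  | [], _ => rfl
  | a :: l, h => by
    have ih := lstep_rep l
    revert h
    rw [List.length_cons, List.replicate_succ]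
    cases a <;> simp only [lstep, lnext] <;> intro h
    all_goals try exact (Bool.false_ne_true h).elim
    rw [ih h]

theorem lval_rep (n : ℕ) : lval (List.replicate n .zero) = 0 := by
  induction n with
  | zero => rfl
  | succ n ih => rw [List.replicate_succ, lval, ih]; simp [lnum]

end EOdo

/-- Enumeration of words by counters. -/
theorem e_odo (_hC : StCount) : StEOdo :=
  ⟨EOdo.mem_bl, EOdo.card_bl, EOdo.len_lst, EOdo.val_lst, EOdo.lst_val, EOdo.step_lst,
    EOdo.step_last, EOdo.lst_zero, fun n p _ => EOdo.count_lst n p, EOdo.len_lstep, EOdo.lval_lt,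
    EOdo.lval_inj, EOdo.lstep_false, EOdo.lstep_true, EOdo.lstep_rep, EOdo.lval_rep⟩

end Pool.Agent.Lib.MP_9dcf40_lc
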