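import Pool.Agent.Lib.MP_9dcf40_lc.Av.SpecM

/-!
# Parseval and counting: a word with small correlations
-/

set_option autoImplicit false

namespace Pool.Agent.Lib.MP_9dcf40_lc

namespace EPars

theorem mem_bl : ∀ (n : ℕ) (l : List Bool), l ∈ bl n ↔ l.length = n
  | 0, l => by
    show l ∈ ({[]} : Finset (List Bool)) ↔ _
    rw [Finset.mem_singleton, List.length_eq_zero_iff]
  | n + 1, l => by
    show l ∈ (bl n).image (List.cons false) ∪ (bl n).image (List.cons true) ↔ _
    rw [Finset.mem_union, Finset.mem_image, Finset.mem_image]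
    constructor
    · rintro (⟨s, hs, rfl⟩ | ⟨s, hs, rfl⟩)
      · rw [List.length_cons, (mem_bl n s).1 hs]
      · rw [List.length_cons, (mem_bl n s).1 hs]
    · intro h
      cases l with
      | nil => simp at h
      | cons b s =>
        rw [List.length_cons, Nat.add_right_cancel_iff] at h
        cases b
        · exact Or.inl ⟨s, (mem_bl n s).2 h, rfl⟩
        · exact Or.inr ⟨s, (mem_bl n s).2 h, rfl⟩

theorem sum_succ {M : Type} [AddCommMonoid M] (n : ℕ) (F : List Bool → M) :
    ∑ s ∈ bl (n + 1), F s = ∑ s ∈ bl n, (F (false :: s) + F (true :: s)) := by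
  show ∑ s ∈ (bl n).image (List.cons false) ∪ (bl n).image (List.cons true), F s = _
  rw [Finset.sum_union, Finset.sum_image, Finset.sum_image, Finset.sum_add_distrib]
  · intro a _ b _ h
    exact List.cons_injective h
  · intro a _ b _ h
    exact List.cons_injective h
  · rw [Finset.disjoint_left]
    intro s h1 h2
    obtain ⟨a, -, rfl⟩ := Finset.mem_image.1 h1
    obtain ⟨b, -, hb⟩ := Finset.mem_image.1 h2
    have := (List.cons.inj hb).1
    exact Bool.noConfusion this

theorem card_bl (n : ℕ) : (bl n).card = 2 ^ n := by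
  induction n with
  | zero => rfl
  | succ n ih =>
    rw [Finset.card_eq_sum_ones, sum_succ, Finset.sum_const, ih, pow_succ]
    rfl

/-- the transform -/
def W (n : ℕ) (G : List Bool → ℤ) (h : List Bool) : ℤ :=
  ∑ s ∈ bl n, G s * (if dot h s then -1 else 1)

theorem W_false (n : ℕ) (G : List Bool → ℤ) (h : List Bool) :
    W (n + 1) G (false :: h) = W n (fun s => G (false :: s) + G (true :: s)) h := by
  unfold W
  rw [sum_succ]
  refine Finset.sum_congr rfl fun s _ => ?_
  have h1 : ∀ b, dot (false :: h) (b :: s) = dot h s := fun b => by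
    show ((false && b) ^^ dot h s) = dot h s
    rw [Bool.false_and, Bool.false_xor]
  rw [h1, h1, add_mul]

theorem W_true (n : ℕ) (G : List Bool → ℤ) (h : List Bool) :
    W (n + 1) G (true :: h) = W n (fun s => G (false :: s) - G (true :: s)) h := by
  unfold W
  rw [sum_succ]
  refine Finset.sum_congr rfl fun s _ => ?_
  have h1 : dot (true :: h) (false :: s) = dot h s := by
    show ((true && false) ^^ dot h s) = dot h s
    rw [Bool.and_false, Bool.false_xor]
  have h2 : dot (true :: h) (true :: s) = !dot h s := by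
    show ((true && true) ^^ dot h s) = !dot h s
    rw [Bool.and_true, Bool.true_xor]
  rw [h1, h2]
  cases dot h s <;> simp <;> ring

theorem parseval (n : ℕ) : ∀ G : List Bool → ℤ,
    ∑ h ∈ bl n, (W n G h) ^ 2 = 2 ^ n * ∑ s ∈ bl n, (G s) ^ 2 := by
  induction n with
  | zero =>
    intro G
    show ∑ h ∈ ({[]} : Finset (List Bool)), (W 0 G h) ^ 2 =
      2 ^ 0 * ∑ s ∈ ({[]} : Finset (List Bool)), (G s) ^ 2
    rw [Finset.sum_singleton, Finset.sum_singleton, pow_zero, one_mul]
    unfold W
    show (∑ s ∈ ({[]} : Finset (List Bool)), G s * (if dot [] s then -1 else 1)) ^ 2 = _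
    rw [Finset.sum_singleton]
    show (G [] * (if false = true then -1 else 1)) ^ 2 = _
    simp
  | succ n ih =>
    intro G
    rw [sum_succ, Finset.sum_add_distrib]
    simp only [W_false, W_true]
    rw [ih, ih, sum_succ, ← mul_add, ← Finset.sum_add_distrib, pow_succ, mul_assoc]
    congr 1
    rw [Finset.mul_sum]
    exact Finset.sum_congr rfl fun s _ => by ring

end EPars

open EPars in
/-- Existence of a good word. -/
theorem e_pars : StEPars := by
  classical
  intro l g hl
  let G : List DA → List Bool → ℤ := fun z s => if g z s then -1 else 1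
  have hG : ∀ z s, (G z s) ^ 2 = 1 := by
    intro z s
    show (if g z s then (-1 : ℤ) else 1) ^ 2 = 1
    split_ifs <;> norm_num
  let bad : List DA → Finset (List Bool) := fun z =>
    (bl (6 * l)).filter fun h => 2 ^ (5 * l) ≤ W (6 * l) (G z) h
  have hbad : ∀ z, (bad z).card ≤ 2 ^ (2 * l) := by
    intro z
    have h1 : ∑ h ∈ bl (6 * l), (W (6 * l) (G z) h) ^ 2 = 2 ^ (6 * l) * 2 ^ (6 * l) := by
      rw [parseval]
      simp only [hG]
      rw [Finset.sum_const, card_bl]
      simp
    have h2 : ((bad z).card : ℤ) * 2 ^ (10 * l) ≤ ∑ h ∈ bad z, (W (6 * l) (G z) h) ^ 2 := by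
      rw [← nsmul_eq_mul]
      refine Finset.card_nsmul_le_sum _ _ _ fun h hh => ?_
      have h3 := (Finset.mem_filter.1 hh).2
      have h4 : (2 : ℤ) ^ (10 * l) = (2 ^ (5 * l)) ^ 2 := by
        rw [← pow_mul]
        congr 1
        ring
      rw [h4]
      exact pow_le_pow_left₀ (by positivity) h3 2
    have h3 : ∑ h ∈ bad z, (W (6 * l) (G z) h) ^ 2 ≤ ∑ h ∈ bl (6 * l), (W (6 * l) (G z) h) ^ 2 :=
      Finset.sum_le_sum_of_subset_of_nonneg (Finset.filter_subset _ _)
        fun _ _ _ => sq_nonneg _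
    have h4 : ((bad z).card : ℤ) * 2 ^ (10 * l) ≤ 2 ^ (2 * l) * 2 ^ (10 * l) := by
      refine (h2.trans h3).trans (le_of_eq ?_)
      rw [h1, ← pow_add, ← pow_add]
      congr 1
      ring
    have h5 : ((bad z).card : ℤ) ≤ 2 ^ (2 * l) := le_of_mul_le_mul_right h4 (by positivity)
    exact_mod_cast h5
  have hcard : Fintype.card (List.Vector DA l) = 8 ^ l := by
    rw [card_vector]
    rfl
  have hun : ((Finset.univ : Finset (List.Vector DA l)).biUnion fun z => bad z.1).card <
      (bl (6 * l)).card := by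
    refine lt_of_le_of_lt Finset.card_biUnion_le ?_
    refine lt_of_le_of_lt (Finset.sum_le_sum fun z _ => hbad z.1) ?_
    rw [Finset.sum_const, Finset.card_univ, hcard, card_bl, smul_eq_mul]
    have h8 : (8 : ℕ) ^ l = 2 ^ (3 * l) := by
      rw [pow_mul]
      norm_num
    rw [h8, ← pow_add]
    exact Nat.pow_lt_pow_right (by norm_num) (by omega)
  obtain ⟨h, hh, hn⟩ := Finset.exists_mem_notMem_of_card_lt_card hun
  refine ⟨h, (mem_bl _ _).1 hh, fun z hz => ?_⟩
  have hW : W (6 * l) (G z) h < 2 ^ (5 * l) := by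
    by_contra hcon
    rw [not_lt] at hcon
    apply hn
    rw [Finset.mem_biUnion]
    exact ⟨⟨z, hz⟩, Finset.mem_univ _, Finset.mem_filter.2 ⟨hh, hcon⟩⟩
  have hset : {s : List Bool | s.length = 6 * l ∧ (g z s ↔ dot h s = true)} =
      ((bl (6 * l)).filter fun s => (g z s ↔ dot h s = true) : Finset (List Bool)) := by
    ext s
    rw [Finset.mem_coe, Finset.mem_filter, mem_bl]
    rfl
  rw [hset, Set.ncard_coe_finset]
  have hval : W (6 * l) (G z) h =
      2 * (((bl (6 * l)).filter fun s => (g z s ↔ dot h s = true)).card : ℤ) - 2 ^ (6 * l) := by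
    have h1 : W (6 * l) (G z) h =
        ∑ s ∈ bl (6 * l), (2 * (if (g z s ↔ dot h s = true) then 1 else 0) - 1) := by
      unfold W
      refine Finset.sum_congr rfl fun s _ => ?_
      show (if g z s then (-1 : ℤ) else 1) * _ = _
      by_cases h1 : g z s <;> cases h2 : dot h s <;> simp [h1]
    rw [h1, Finset.sum_sub_distrib, ← Finset.mul_sum, Finset.sum_boole, Finset.sum_const, card_bl]
    simp
  rw [hval] at hW
  have e1 : (2 : ℤ) ^ (6 * l) = 2 * 2 ^ (6 * l - 1) := by
    rw [← pow_succ']
    congr 1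
    omega
  have e2 : (2 : ℤ) ^ (5 * l) = 2 * 2 ^ (5 * l - 1) := by
    rw [← pow_succ']
    congr 1
    omega
  rw [e1, e2] at hW
  have h6 : (((bl (6 * l)).filter fun s => (g z s ↔ dot h s = true)).card : ℤ) <
      2 ^ (6 * l - 1) + 2 ^ (5 * l - 1) := by linarith
  exact_mod_cast h6

end Pool.Agent.Lib.MP_9dcf40_lc
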