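import Pool.Agent.Lib.MP_9dcf40_lc.Av.Rules

/-!
# Powers in unary for the averaging machine
-/

set_option autoImplicit false

namespace Pool.Agent.Lib.MP_9dcf40_lc

open Rout

namespace EPow

variable {G : Type} [Finite G] {x : List Bool} {s : ℕ}

/-- The data in the middle of the loop of `mulE`. -/
def mid (D : Data (EG G) EN) (j w : ℕ) : Data (EG G) EN :=
  ⟨D.pos, Function.update (Function.update D.st .R (List.replicate j .mark)) .WL
    (List.replicate w .mark)⟩

theorem mid_st (D : Data (EG G) EN) (j w : ℕ) (i : EN) (hR : i ≠ .R) (hW : i ≠ .WL) :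
    (mid D j w).st i = D.st i := by
  show Function.update (Function.update D.st .R _) .WL _ i = _
  rw [Function.update_of_ne hW, Function.update_of_ne hR]

theorem mid_R (D : Data (EG G) EN) (j w : ℕ) : (mid D j w).st .R = List.replicate j .mark := by
  unfold mid
  show Function.update (Function.update D.st .R (List.replicate j .mark)) .WL
    (List.replicate w .mark) .R = _
  rw [Function.update_of_ne (by decide), Function.update_self]

theorem mid_W (D : Data (EG G) EN) (j w : ℕ) : (mid D j w).st .WL = List.replicate w .mark := by
  unfold mid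
  show Function.update (Function.update D.st .R (List.replicate j .mark)) .WL
    (List.replicate w .mark) .WL = _
  rw [Function.update_self]

theorem mid_le {D : Data (EG G) EN} (hD : D.le s) {j w : ℕ} (hj : j ≤ s) (hw : w ≤ s) :
    (mid D j w).le s := by
  intro i
  by_cases hR : i = .R
  · subst hR
    rw [mid_R, List.length_replicate]
    exact hj
  · by_cases hW : i = .WL
    · subst hW
      rw [mid_W, List.length_replicate]
      exact hw
    · rw [mid_st D j w i hR hW]
      exact hD i

theorem mid_upR (D : Data (EG G) EN) (j w j' : ℕ) :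
    (⟨(mid D j w).pos, Function.update (mid D j w).st .R (List.replicate j' .mark)⟩ :
      Data (EG G) EN) = mid D j' w := by
  unfold mid
  rw [Function.update_comm (by decide : (EN.WL) ≠ .R), Function.update_idem]

theorem mid_upW (D : Data (EG G) EN) (j w w' : ℕ) :
    (⟨(mid D j w).pos, Function.update (mid D j w).st .WL (List.replicate w' .mark)⟩ :
      Data (EG G) EN) = mid D j w' := by
  unfold mid
  rw [Function.update_idem]

theorem mul (hX : StXfer) (hR : StERules) (D : Data (EG G) EN) (k : ℕ) (hD : D.le s)
    (hT : D.st .T = []) (hW : D.st .WL = []) (hk : D.st .R = List.replicate k .mark)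
    (hs : k * ((D.st .N).length + 1) ≤ s) :
    Ends x (mulE (G := G)) s D fun _ D' => D' = ⟨D.pos, Function.update D.st .R
      (List.replicate (k * ((D.st .N).length + 1)) .mark)⟩ := by
  unfold mulE
  set L := (D.st .N).length with hL
  have hks : k ≤ s := by
    have := hD .R
    rwa [hk, List.length_replicate] at this
  refine ends_seq (P := fun _ D' => D' = mid D 0 (k * (L + 1))) ?_ ?_
  · refine ends_iter (fun _ D₁ => ∃ j, j ≤ k ∧ D₁ = mid D j ((k - j) * (L + 1)))
      (fun _ D₁ => (D₁.st .R).length) ?_ ?_
    · rintro _ D₁ ⟨j, hj, rfl⟩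
      have hw : (k - j) * (L + 1) ≤ s := (Nat.mul_le_mul_right _ (Nat.sub_le k j)).trans hs
      have hD₁ : (mid D j ((k - j) * (L + 1))).le s := mid_le hD (hj.trans hks) hw
      refine ends_seq (ends_pop (Q := fun o D' => o = ((mid D j ((k - j) * (L + 1))).st .R).head? ∧
        D' = ⟨(mid D j ((k - j) * (L + 1))).pos, Function.update
          (mid D j ((k - j) * (L + 1))).st .R ((mid D j ((k - j) * (L + 1))).st .R).tail⟩)
          .R hD₁ ⟨rfl, rfl⟩) ?_
      rintro o D' hD' ⟨rfl, rfl⟩
      rw [mid_R] at hD' ⊢
      rcases j with _ | j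
      · rw [List.replicate_zero, List.tail_nil, ← List.replicate_zero, mid_upR] at hD' ⊢
        rw [List.replicate_zero, List.head?_nil]
        refine ends_pure _ hD' ⟨fun t' ht => absurd ht (by simp), fun _ _ => ?_⟩
        rw [Nat.sub_zero]
      · rw [List.tail_replicate, Nat.add_sub_cancel, mid_upR] at hD' ⊢
        rw [List.replicate_succ, List.head?_cons]
        have e1 : (k - j) * (L + 1) = (k - (j + 1)) * (L + 1) + (L + 1) := by
          have : k - j = (k - (j + 1)) + 1 := by omega
          rw [this, Nat.succ_mul]
        have hw' : (k - j) * (L + 1) ≤ s := (Nat.mul_le_mul_right _ (Nat.sub_le k j)).trans hs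
        refine ends_seq (ends_push (Q := fun _ D' => D' = mid D j ((k - (j + 1)) * (L + 1) + 1))
          .WL _ hD' ?_ ?_) ?_
        · rw [mid_W, List.length_replicate]
          omega
        · rw [mid_W, ← List.replicate_succ, mid_upW]
        · rintro _ D' hD' rfl
          have hN : (mid D j ((k - (j + 1)) * (L + 1) + 1)).st .N = D.st .N :=
            mid_st _ _ _ _ (by decide) (by decide)
          have hT' : (mid D j ((k - (j + 1)) * (L + 1) + 1)).st .T = [] := by
            rw [mid_st _ _ _ _ (by decide) (by decide), hT]
          refine ends_seq ((hR G x s _ hD').2.2.1 (fun _ => .mark) .N .WL (by decide) (by decide)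
            (by decide) hT' ?_) ?_
          · rw [hN, mid_W, List.length_replicate, ← hL]
            omega
          · rintro _ D' hD' rfl
            rw [hN, mid_W, List.map_const', List.replicate_append_replicate, mid_upW, ← hL,
              show L + ((k - (j + 1)) * (L + 1) + 1) = (k - j) * (L + 1) by omega] at hD' ⊢
            refine ends_pure _ hD' ⟨fun t' _ => ⟨⟨j, by omega, rfl⟩, ?_⟩,
              fun b hb => absurd hb (by simp)⟩
            rw [mid_R, List.length_cons]
            exact Nat.lt_succ_self _
    · refine ⟨k, le_rfl, ?_⟩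
      unfold mid
      rw [Nat.sub_self, Nat.zero_mul, List.replicate_zero, ← hk, Function.update_eq_self, ← hW,
        Function.update_eq_self]
  · rintro _ D' hD' rfl
    refine ends_xfer hX .WL .R (by decide) hD' ?_ ?_
    · rw [mid_W, mid_R, List.length_replicate, List.length_replicate]
      omega
    · rw [mid_W, mid_R, List.replicate_zero, List.append_nil, List.reverse_replicate]
      congr 1
      unfold mid
      show Function.update (Function.update (Function.update (Function.update D.st .R _) .WL _)
        .WL []) .R _ = _
      rw [Function.update_idem, Function.update_comm (by decide : (EN.WL) ≠ .R),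
        Function.update_idem, Function.update_comm (by decide : (EN.R) ≠ .WL), ← hW,
        Function.update_eq_self]

end EPow

theorem e_pow (hX : StXfer) (hR : StERules) : StEPow := by
  intro G _ x s e D hD hT hR0 hW hs
  unfold powE
  set L := (D.st .N).length with hL
  have h1s : 1 ≤ s := (Nat.one_le_pow _ _ (Nat.succ_pos L)).trans hs
  have key : ∀ (e c : ℕ) (D₁ : Data (EG G) EN), D₁.le s → D₁.st .T = [] → D₁.st .WL = [] →
      (D₁.st .N).length = L → D₁.st .R = List.replicate c .mark → c * (L + 1) ^ e ≤ s →
      Ends x (repeatR (mulE (G := G)) e) s D₁ fun _ D' => D' = ⟨D₁.pos, Function.update D₁.st .R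
        (List.replicate (c * (L + 1) ^ e) .mark)⟩ := by
    intro e
    induction e with
    | zero =>
      intro c D₁ hD₁ _ _ _ hc _
      refine ends_pure _ hD₁ ?_
      rw [pow_zero, Nat.mul_one, ← hc, Function.update_eq_self]
    | succ e ih =>
      intro c D₁ hD₁ hT₁ hW₁ hN₁ hc hs₁
      have e1 : c * (L + 1) ^ (e + 1) = c * (L + 1) * (L + 1) ^ e := by ring
      have h2 : c * (L + 1) ≤ s := by
        refine le_trans ?_ hs₁
        rw [e1]
        exact Nat.le_mul_of_pos_right _ (Nat.pow_pos (Nat.succ_pos L))
      show Ends x (mulE.bind fun _ => repeatR mulE e) s D₁ _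
      refine ends_seq (EPow.mul hX hR D₁ c hD₁ hT₁ hW₁ hc (by rw [hN₁]; exact h2)) ?_
      rintro _ D' hD' rfl
      rw [hN₁] at hD' ⊢
      have hoff : ∀ i, i ≠ EN.R → Function.update D₁.st .R
          (List.replicate (c * (L + 1)) .mark) i = D₁.st i :=
        fun i hi => Function.update_of_ne hi _ _
      refine (ih (c * (L + 1)) _ hD' ((hoff _ (by decide)).trans hT₁)
        ((hoff _ (by decide)).trans hW₁) ((congrArg _ (hoff _ (by decide))).trans hN₁)
        (Function.update_self EN.R (List.replicate (c * (L + 1)) (EG.mark (G := G))) D₁.st)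
        (by rw [← e1]; exact hs₁)).imp ?_
      rintro _ D' _ rfl
      rw [Function.update_idem, ← e1]
  refine ends_seq (ends_push (Q := fun _ D' => D' = ⟨D.pos, Function.update D.st .R
    (List.replicate 1 .mark)⟩) .R _ hD ?_ ?_) ?_
  · rw [hR0]
    simpa using h1s
  · rw [hR0]
    rfl
  · rintro _ D' hD' rfl
    have hoff : ∀ i, i ≠ EN.R → Function.update D.st .R
        (List.replicate 1 .mark) i = D.st i :=
      fun i hi => Function.update_of_ne hi _ _
    refine (key e 1 _ hD' ((hoff _ (by decide)).trans hT)
      ((hoff _ (by decide)).trans hW) (congrArg List.length (hoff .N (by decide)))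
      (Function.update_self EN.R (List.replicate 1 (EG.mark (G := G))) D.st)
      (by rw [Nat.one_mul]; exact hs)).imp ?_
    rintro _ D' _ rfl
    rw [Function.update_idem, Nat.one_mul]

end Pool.Agent.Lib.MP_9dcf40_lc
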