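import Pool.Agent.Lib.MP_9dcf40_lc.Av.SpecM

/-!
# Derived rules for the routines of the averaging machine
-/

namespace Pool.Agent.Lib.MP_9dcf40_lc

open Rout

namespace ERules

variable {G : Type} [Finite G] {x : List Bool} {s : ℕ} {D : Data (EG G) EN}

theorem cnt (hS : StEScan) (hL : StEList) (hD : D.le s) (b : Bool) (i : EN) (l : List Bool)
    (hi : i ≠ .T) (hT : D.st .T = []) (hl : D.st i = l.map .bit) :
    Ends x (cntE (G := G) b i) s D fun o D' => o = (cstep b l).2 ∧
      D' = ⟨D.pos, Function.update D.st i ((cstep b l).1.map .bit)⟩ := by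
  unfold cntE
  refine ends_seq (hS G Unit (bStep b) none i () x s D hi hD hT (by simpa using hD i)) ?_
  rintro r D' hD' ⟨rfl, rfl⟩
  refine ends_pure _ hD' ?_
  rw [hl, hL.1 G b l]
  exact ⟨rfl, rfl⟩

theorem map (hS : StEScan) (hL : StEList) (hD : D.le s) (φ : EG G → EG G) (i : EN) (hi : i ≠ .T)
    (hT : D.st .T = []) : Ends x (mapR φ i) s D fun _ D' =>
    D' = ⟨D.pos, Function.update D.st i ((D.st i).map φ)⟩ := by
  unfold mapR
  refine ends_seq (hS G Unit (fun _ g => ((), φ g, false)) none i () x s D hi hD hT
    (by simpa using hD i)) ?_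
  rintro r D' hD' ⟨rfl, rfl⟩
  refine ends_pure _ hD' ?_
  rw [hL.2.2.2.2.2.2.1 G φ (D.st i)]

theorem cp (hC : StECopy) (hL : StEList) (hD : D.le s) (φ : EG G → EG G) (i j : EN) (hi : i ≠ .T)
    (hj : j ≠ .T) (hij : i ≠ j) (hT : D.st .T = []) (h : (D.st i).length + (D.st j).length ≤ s) :
    Ends x (cpR φ i j) s D fun _ D' =>
      D' = ⟨D.pos, Function.update D.st j ((D.st i).map φ ++ D.st j)⟩ := by
  unfold cpR
  have e := hL.2.2.2.2.2.2.2.1 G φ (D.st i)
  refine (hC G Unit (fun _ g => ((), some (φ g))) i j () x s D hi hj hij hD hT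
    (by rw [e]; simpa using h)).imp ?_
  rintro _ D' _ rfl
  rw [e]

theorem rep (hC : StECopy) (hL : StEList) (c : EG G) (i j : EN) (hi : i ≠ .T) (hj : j ≠ .T)
    (hij : i ≠ j) (k : ℕ) : ∀ D : Data (EG G) EN, D.le s → D.st .T = [] →
    k * (D.st i).length + (D.st j).length ≤ s →
    Ends x (repeatR (cpR (fun _ => c) i j) k) s D fun _ D' => D' = ⟨D.pos, Function.update D.st j
      (List.replicate (k * (D.st i).length) c ++ D.st j)⟩ := by
  induction k with
  | zero =>
    intro D hD hT h
    refine ends_pure _ hD ?_
    simp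
  | succ k ih =>
    intro D hD hT h
    rw [Nat.succ_mul] at h
    refine ends_seq (cp hC hL hD _ i j hi hj hij hT (by omega)) ?_
    rintro _ D' hD' rfl
    refine (ih _ hD' ?_ ?_).imp ?_
    · show Function.update D.st j _ .T = []
      rw [Function.update_of_ne hj.symm, hT]
    · show k * (Function.update D.st j _ i).length + (Function.update D.st j _ j).length ≤ s
      rw [Function.update_of_ne hij, Function.update_self, List.length_append, List.length_map]
      omega
    · rintro _ D' _ rfl
      simp only [Function.update_of_ne hij, Function.update_self, Function.update_idem]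
      rw [List.map_const', ← List.append_assoc, List.replicate_append_replicate, Nat.succ_mul]

theorem peek (hD : D.le s) (i : EN) : Ends x (peekE (G := G) i) s D fun o D' =>
    o = (D.st i).head? ∧ D' = D := by
  unfold peekE
  refine ends_seq (ends_pop (Q := fun o D' => o = (D.st i).head? ∧
    D' = ⟨D.pos, Function.update D.st i (D.st i).tail⟩) i hD ⟨rfl, rfl⟩) ?_
  rintro o D' hD' ⟨rfl, rfl⟩
  cases h : D.st i with
  | nil =>
    rw [h] at hD'
    refine ends_pure _ hD' ⟨rfl, ?_⟩
    rw [List.tail_nil, ← h, Function.update_eq_self]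
  | cons g l =>
    rw [h] at hD'
    have h1 := hD i
    rw [h, List.length_cons] at h1
    refine ends_bind (ends_push i g hD' (by simpa using h1) ?_)
    have e : (⟨D.pos, Function.update (Function.update D.st i l) i
        (g :: Function.update D.st i l i)⟩ : Data (EG G) EN) = D := by
      rw [Function.update_idem, Function.update_self, ← h, Function.update_eq_self]
    show Ends x (pureR (some g)) s ⟨D.pos, Function.update (Function.update D.st i l) i
        (g :: Function.update D.st i l i)⟩ _
    rw [e]
    exact ends_pure _ hD ⟨rfl, rfl⟩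

theorem one (hD : D.le s) (i j : EN) (hij : i ≠ j) (hj : (D.st j).length + 1 ≤ s) :
    Ends x (oneE (G := G) i j) s D fun o D' =>
    (D.st i = [] ∧ o = false ∧ D' = D) ∨ ∃ g l, D.st i = g :: l ∧ o = true ∧
      D' = ⟨D.pos, Function.update (Function.update D.st i l) j (g :: D.st j)⟩ := by
  unfold oneE
  refine ends_seq (ends_pop (Q := fun o D' => o = (D.st i).head? ∧
    D' = ⟨D.pos, Function.update D.st i (D.st i).tail⟩) i hD ⟨rfl, rfl⟩) ?_
  rintro o D' hD' ⟨rfl, rfl⟩
  cases h : D.st i with
  | nil =>
    rw [h] at hD'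
    refine ends_pure _ hD' (Or.inl ⟨rfl, rfl, ?_⟩)
    rw [List.tail_nil, ← h, Function.update_eq_self]
  | cons g l =>
    rw [h] at hD'
    refine ends_bind (ends_push j g hD' ?_ ?_)
    · show (Function.update D.st i l j).length + 1 ≤ s
      rwa [Function.update_of_ne hij.symm]
    · have e : Function.update D.st i l j = D.st j := Function.update_of_ne hij.symm _ _
      have hle : (⟨D.pos, Function.update (Function.update D.st i l) j
          (g :: D.st j)⟩ : Data (EG G) EN).le s := by
        intro k
        by_cases hk : k = j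
        · subst hk
          simpa using hj
        · show (Function.update (Function.update D.st i l) j (g :: D.st j) k).length ≤ s
          rw [Function.update_of_ne hk]
          exact hD' k
      show Ends x (pureR true) s ⟨D.pos, Function.update (Function.update D.st i l) j
          (g :: Function.update D.st i l j)⟩ _
      rw [e]
      exact ends_pure _ hle (Or.inr ⟨g, l, rfl, rfl, rfl⟩)

end ERules

theorem e_rules (hS : StEScan) (hC : StECopy) (hL : StEList) : StERules := by
  intro G _ x s D hD
  exact ⟨fun b i l hi hT hl => ERules.cnt hS hL hD b i l hi hT hl,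
    fun φ i hi hT => ERules.map hS hL hD φ i hi hT,
    fun φ i j hi hj hij hT h => ERules.cp hC hL hD φ i j hi hj hij hT h,
    fun c k i j hi hj hij hT h => ERules.rep hC hL c i j hi hj hij k D hD hT h,
    fun i => ERules.peek hD i,
    fun i j hij hj => ERules.one hD i j hij hj⟩

end Pool.Agent.Lib.MP_9dcf40_lc
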