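import Pool.Agent.Lib.MP_9dcf40_lc.Av.Rules

/-!
# The generic scan routine (`StEScan`)
-/

namespace Pool.Agent.Lib.MP_9dcf40_lc

open Rout

namespace EScan

/-- One round of a loop. -/
theorem ends_unroll {A Γ ι β τ : Type} [DecidableEq ι] [Finite τ] {x : List A} {s : ℕ}
    {D : Data Γ ι} {Q : β → Data Γ ι → Prop} {body : τ → Rout A Γ ι (τ ⊕ β)} {t : τ}
    (h : Ends x (body t) s D fun r D' =>
      (∀ t', r = .inl t' → Ends x (Rout.iter body t') s D' Q) ∧ ∀ b, r = .inr b → Q b D') :
    Ends x (Rout.iter body t) s D Q := by
  intro c
  obtain ⟨T, r, D', hr, h1, h2⟩ := h c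
  rcases r with t' | b
  · obtain ⟨T', b, D'', hr', hq⟩ := h1 t' rfl c
    exact ⟨_, b, D'', runs_iter_step hr hr', hq⟩
  · exact ⟨_, b, D', runs_iter_done hr, h2 b rfl⟩

theorem update_self_of {Γ : Type} (st : EN → List Γ) (i : EN) (l : List Γ) (h : st i = l) :
    Function.update st i l = st := by
  subst h
  exact Function.update_eq_self i st

variable {G : Type} [Finite G] {τ : Type} [Finite τ]

/-- The body of the loop of `scanR`. -/
abbrev body (f : τ → EG G → τ × EG G × Bool) (e : Option (EG G)) (i : EN) (t : τ) :
    ER G (τ ⊕ (τ × Bool)) :=
  (pop i).bind fun o =>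
    match o with
    | none =>
      (match e with
        | none => pureR ()
        | some g => push i g : ER G Unit).bind fun _ => pureR (.inr (t, true))
    | some a =>
      if (f t a).2.2 then (push i (f t a).2.1).bind fun _ => pureR (.inr ((f t a).1, false))
      else (push .T (f t a).2.1).bind fun _ => pureR (.inl (f t a).1)

theorem loop (f : τ → EG G → τ × EG G × Bool) (e : Option (EG G)) (i : EN) (hi : i ≠ .T)
    (x : List Bool) (s : ℕ) (l : List (EG G)) :
    ∀ (t : τ) (u : List (EG G)) (D : Data (EG G) EN), D.le s → D.st .T = u → D.st i = l →
      l.length + u.length + e.toList.length ≤ s →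
      Ends x (iter (body f e i) t) s D fun r D' => r = (scan f e t l).1 ∧
        ∃ v w : List (EG G), (scan f e t l).2 = v ++ w ∧
          v.length + w.length + u.length ≤ s ∧
          D' = ⟨D.pos, Function.update (Function.update D.st i w) .T (v.reverse ++ u)⟩ := by
  induction l with
  | nil =>
    intro t u D hD hT hl hs
    refine ends_unroll ?_
    refine ends_bind ?_
    refine ends_pop i hD ?_
    have h1 : Function.update D.st i (D.st i).tail = D.st := by
      rw [hl]
      exact update_self_of _ _ _ hl
    rw [h1, hl]
    cases e with
    | none =>
      refine ends_bind (ends_pure _ hD ?_)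
      refine ends_pure _ hD ⟨fun t' ht => absurd ht (by simp), fun b hb => ?_⟩
      simp only [Sum.inr.injEq] at hb
      subst hb
      refine ⟨rfl, [], [], rfl, by simp at hs ⊢; omega, ?_⟩
      rw [List.reverse_nil, List.nil_append, update_self_of D.st i [] hl,
        update_self_of D.st .T u hT]
    | some g =>
      have hs' : u.length + 1 ≤ s := by simpa using hs
      refine ends_bind (ends_push i g hD (by rw [hl]; simp; omega) ?_)
      have hD' : Data.le (⟨D.pos, Function.update D.st i (g :: D.st i)⟩ : Data (EG G) EN) s := by
        intro j
        show (Function.update D.st i (g :: D.st i) j).length ≤ s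
        by_cases hj : j = i
        · subst hj
          rw [Function.update_self, hl]
          simp
          omega
        · rw [Function.update_of_ne hj]
          exact hD j
      refine ends_pure _ hD' ⟨fun t' ht => absurd ht (by simp), fun b hb => ?_⟩
      simp only [Sum.inr.injEq] at hb
      subst hb
      refine ⟨rfl, [], [g], rfl, by simp; omega, ?_⟩
      rw [hl, List.reverse_nil, List.nil_append]
      have h2 : Function.update D.st i [g] .T = u := by
        rw [Function.update_of_ne (Ne.symm hi), hT]
      rw [update_self_of _ .T u h2]
  | cons a l ih =>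
    intro t u D hD hT hl hs
    have hs' : l.length + 1 + u.length + e.toList.length ≤ s := by simpa using hs
    refine ends_unroll ?_
    refine ends_seq (P := fun o D' => o = some a ∧
      D' = ⟨D.pos, Function.update D.st i l⟩) (ends_pop i hD ?_) ?_
    · rw [hl]
      exact ⟨rfl, rfl⟩
    rintro o D' hD' ⟨rfl, rfl⟩
    by_cases hf : (f t a).2.2
    · dsimp only
      rw [if_pos hf]
      refine ends_seq (P := fun _ D' => D' =
        ⟨D.pos, Function.update D.st i ((f t a).2.1 :: l)⟩) (ends_push i _ hD' ?_ ?_) ?_
      · show (Function.update D.st i l i).length + 1 ≤ s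
        rw [Function.update_self]
        omega
      · show (⟨D.pos, _⟩ : Data (EG G) EN) = _
        dsimp only
        rw [Function.update_self, Function.update_idem]
      rintro _ D' hD'' rfl
      refine ends_pure _ hD'' ⟨fun t' ht => absurd ht (by simp), fun b hb => ?_⟩
      simp only [Sum.inr.injEq] at hb
      subst hb
      have h3 : scan f e t (a :: l) = (((f t a).1, false), (f t a).2.1 :: l) := by
        show (if (f t a).2.2 then _ else _) = _
        rw [if_pos hf]
      rw [h3]
      refine ⟨rfl, [], (f t a).2.1 :: l, rfl, by simp; omega, ?_⟩
      have h2 : Function.update D.st i ((f t a).2.1 :: l) .T = u := by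
        rw [Function.update_of_ne (Ne.symm hi), hT]
      rw [List.reverse_nil, List.nil_append, update_self_of _ .T u h2]
    · dsimp only
      rw [if_neg hf]
      have h2 : Function.update D.st i l .T = u := by
        rw [Function.update_of_ne (Ne.symm hi), hT]
      refine ends_seq (P := fun _ D' => D' =
        ⟨D.pos, Function.update (Function.update D.st i l) .T ((f t a).2.1 :: u)⟩)
        (ends_push .T _ hD' ?_ ?_) ?_
      · show (Function.update D.st i l .T).length + 1 ≤ s
        rw [h2]
        omega
      · show (⟨D.pos, _⟩ : Data (EG G) EN) = _
        dsimp only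
        rw [h2]
      rintro _ D' hD'' rfl
      refine ends_pure _ hD'' ⟨fun t' ht => ?_, fun b hb => absurd hb (by simp)⟩
      simp only [Sum.inl.injEq] at ht
      subst ht
      have h3 : scan f e t (a :: l) =
          ((scan f e (f t a).1 l).1, (f t a).2.1 :: (scan f e (f t a).1 l).2) := by
        show (if (f t a).2.2 then _ else _) = _
        rw [if_neg hf]
      refine (ih (f t a).1 ((f t a).2.1 :: u) _ hD'' ?_ ?_ ?_).imp ?_
      · show Function.update (Function.update D.st i l) .T _ .T = _
        exact Function.update_self _ _ _
      · show Function.update (Function.update D.st i l) .T _ i = _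
        rw [Function.update_of_ne hi, Function.update_self]
      · simp only [List.length_cons]
        omega
      rintro r D' - ⟨rfl, v, w, hvw, hlen, rfl⟩
      rw [h3]
      refine ⟨rfl, (f t a).2.1 :: v, w, by rw [hvw]; rfl, by
        simp only [List.length_cons] at hlen ⊢; omega, ?_⟩
      refine congrArg (Data.mk D.pos) ?_
      funext j
      by_cases hj : j = .T
      · subst hj
        rw [Function.update_self, Function.update_self]
        simp
      · rw [Function.update_of_ne hj, Function.update_of_ne hj]
        by_cases hj' : j = i
        · subst hj'
          rw [Function.update_self, Function.update_self]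
        · rw [Function.update_of_ne hj', Function.update_of_ne hj']
          show Function.update (Function.update D.st i l) .T ((f t a).2.1 :: u) j = D.st j
          rw [Function.update_of_ne hj, Function.update_of_ne hj']

end EScan

open EScan in
/-- Scans. -/
theorem e_scan (hX : StXfer) : StEScan := by
  intro G _ τ _ f e i t₀ x s D hi hD hT hs
  unfold scanR
  refine ends_seq (loop f e i hi x s (D.st i) t₀ [] D hD hT rfl (by simpa using hs)) ?_
  rintro r D' hD' ⟨rfl, v, w, hvw, hlen, rfl⟩
  refine ends_seq (P := fun _ D' => D' =
    ⟨D.pos, Function.update D.st i (scan f e t₀ (D.st i)).2⟩)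
    (ends_xfer hX .T i (Ne.symm hi) hD' ?_ ?_) ?_
  · show (Function.update (Function.update D.st i w) .T (v.reverse ++ []) .T).length +
      (Function.update (Function.update D.st i w) .T (v.reverse ++ []) i).length ≤ s
    rw [Function.update_self, Function.update_of_ne hi, Function.update_self]
    simp only [List.append_nil, List.length_reverse, List.length_nil] at hlen ⊢
    omega
  · refine congrArg (Data.mk D.pos) ?_
    funext j
    by_cases hj : j = i
    · subst hj
      rw [Function.update_self, Function.update_self]
      show (Function.update (Function.update D.st j w) .T (v.reverse ++ []) .T).reverse ++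
        Function.update (Function.update D.st j w) .T (v.reverse ++ []) j = _
      rw [Function.update_self, Function.update_of_ne hi, Function.update_self, hvw]
      simp
    · rw [Function.update_of_ne hj, Function.update_of_ne hj]
      by_cases hj' : j = .T
      · subst hj'
        rw [Function.update_self, hT]
      · rw [Function.update_of_ne hj']
        show Function.update (Function.update D.st i w) .T (v.reverse ++ []) j = _
        rw [Function.update_of_ne hj', Function.update_of_ne hj]
  rintro _ D' hD'' rfl
  exact ends_pure _ hD'' ⟨rfl, rfl⟩

end Pool.Agent.Lib.MP_9dcf40_lc
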