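import Pool.Agent.Lib.MP_9dcf40_lc.Av.Rules

/-!
# The search loop
-/

namespace Pool.Agent.Lib.MP_9dcf40_lc

open Rout

namespace ESearchN

theorem sel_eq {p : ℕ → Prop} {N v : ℕ} (hv : v < N) (hp : p v) (hmin : ∀ v' < v, ¬ p v') :
    sel p N = v := by
  classical
  have h : ∃ v, v < N ∧ p v := ⟨v, hv, hp⟩
  unfold sel
  rw [dif_pos h, Nat.find_eq_iff]
  exact ⟨⟨hv, hp⟩, fun n hn h => hmin n hn h.2⟩

theorem sel_none {p : ℕ → Prop} {N : ℕ} (h : ∀ v < N, ¬ p v) : sel p N = 0 := by
  unfold sel
  rw [dif_neg]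
  rintro ⟨v, hv, hp⟩
  exact h v hv hp

/-- The first components of the pairs on a stack. -/
def fs {G : Type} (L : List (EG G)) : List Bool :=
  L.map fun g => match g with
    | .pr a _ => a
    | _ => false

theorem fs_zip {G : Type} (h s : List Bool) (hl : h.length = s.length) :
    fs (List.zipWith (EG.pr (G := G)) h s) = h := by
  induction h generalizing s with
  | nil => rfl
  | cons a h ih =>
    cases s with
    | nil => simp at hl
    | cons b s =>
      have h1 := ih s (by simpa using hl)
      unfold fs at h1 ⊢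
      rw [List.zipWith_cons_cons, List.map_cons, h1]

theorem einv_Y {G : Type} {x : List Bool} {m q k : ℕ} {D : Data (EG G) EN}
    (h : EInv x m q k D) (L : List (EG G)) :
    EInv x m q k ⟨D.pos, Function.update D.st .Y L⟩ := by
  simpa [EInv] using h

/-- One step of the counter `h` on the stack `Y`. -/
theorem flag (hSc : StEScan) (hLi : StEList) {G : Type} [Finite G] (x : List Bool) {sp : ℕ}
    (D : Data (EG G) EN) (hD : D.le sp) (hTT : D.st .T = []) (h s : List Bool)
    (hl : h.length = s.length) (hY : D.st .Y = List.zipWith .pr h s) :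
    Ends x (flagE (G := G) hStep .Y) sp D fun o D' => o = (cstep true h).2 ∧
      D' = ⟨D.pos, Function.update D.st .Y (List.zipWith .pr (cstep true h).1 s)⟩ := by
  unfold flagE
  refine ends_seq (hSc G Unit hStep none .Y () x sp D (by decide) hD hTT
    (by simpa using hD .Y)) ?_
  rintro r D' hD' ⟨rfl, rfl⟩
  refine ends_pure _ hD' ?_
  rw [hY, hLi.2.2.1 G h s hl]
  exact ⟨rfl, rfl⟩

end ESearchN

open ESearchN

theorem e_search (hG : StEGood) (hSc : StEScan) (hLi : StEList) (hO : StEOdo) : StESearch := by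
  intro V _ _ x sp sV m q k l z s D hD hI hP hz hs hl hx hq hsp hES hsV
  obtain ⟨-, -, hO1, hO2, -, hO3, hO4, hO5, -⟩ := hO
  have hpow : 0 < 2 ^ (6 * l) := Nat.pow_pos (by norm_num)
  unfold searchE
  refine ends_loop (fun D => D.le sp ∧ EInv x m q k D ∧ ∃ (z : List DA) (s : List Bool) (v : ℕ),
      z.length = l ∧ v < 2 ^ (6 * l) ∧ EPre z (lst (6 * l) v) s D ∧
        ∀ v' < v, ¬ EGood V x m k l (lst (6 * l) v'))
    (fun D => 2 ^ (6 * l) - val (fs (D.st .Y))) ?_ ?_
  · rintro D ⟨hDle, hI, z, s, v, hz, hv, hP, hall⟩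
    have hsl : s.length = 6 * l := by rw [← hP.2.2, hO1]
    have hμ : val (fs (D.st .Y)) = v := by
      rw [hP.2.1, fs_zip _ _ hP.2.2, hO2, Nat.mod_eq_of_lt hv]
    refine ends_seq (hG V x sp sV m q k l z _ s D hDle hI hP hz hsl hl hx hq hsp hES hsV) ?_
    rintro b D' hD' ⟨hI', ⟨z', s', hz', hP'⟩, hb⟩
    refine ends_pure _ hD' ⟨?_, ?_⟩
    · intro b' hb'
      cases b with
      | false => exact absurd hb' (by simp)
      | true =>
        have hg := hb.1 rfl
        refine ⟨hI', z', s', ?_⟩
        unfold EFind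
        rw [sel_eq hv hg hall]
        exact hP'
    · intro hbn
      have hbf : b = false := by
        cases b with
        | false => rfl
        | true => exact absurd hbn (by simp)
      have hng : ¬ EGood V x m k l (lst (6 * l) v) := fun hg => by
        have := hb.2 hg
        rw [hbf] at this
        exact absurd this (by simp)
      have hall' : ∀ v' < v + 1, ¬ EGood V x m k l (lst (6 * l) v') := by
        intro v' hv'
        rcases Nat.lt_succ_iff_lt_or_eq.1 hv' with h1 | h1
        · exact hall v' h1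
        · rw [h1]
          exact hng
      refine (flag hSc hLi x D' hD' hI'.1 _ s' hP'.2.2 hP'.2.1).imp ?_
      rintro o D'' hD'' ⟨ho, hDe⟩
      have hs'l : s'.length = 6 * l := by rw [← hP'.2.2, hO1]
      by_cases hlast : v + 1 < 2 ^ (6 * l)
      · rw [hO3 (6 * l) v hlast] at ho hDe
        subst hDe
        refine ⟨fun h1 => absurd (h1.symm.trans ho) (by simp), fun _ => ⟨⟨hD'', einv_Y hI' _,
          z', s', v + 1, hz', hlast, ⟨?_, ?_, ?_⟩, hall'⟩, ?_⟩⟩
        · simpa using hP'.1
        · simp
        · rw [hO1, hs'l]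
        · show 2 ^ (6 * l) - val (fs (Function.update D'.st .Y
            (List.zipWith .pr (lst (6 * l) (v + 1)) s') .Y)) <
            2 ^ (6 * l) - val (fs (D.st .Y))
          rw [hμ, Function.update_self, fs_zip _ _ (by rw [hO1, hs'l]), hO2,
            Nat.mod_eq_of_lt hlast]
          omega
      · have hv1 : v = 2 ^ (6 * l) - 1 := by omega
        have h1 := hO4 (6 * l)
        rw [← hv1] at h1
        rw [h1] at ho hDe
        subst hDe
        refine ⟨fun _ => ⟨einv_Y hI' _, z', s', ?_⟩, fun h2 => absurd (h2.symm.trans ho) (by simp)⟩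
        have h3 : sel (fun v => EGood V x m k l (lst (6 * l) v)) (2 ^ (6 * l)) = 0 :=
          sel_none fun v' hv' => hall' v' (by omega)
        unfold EFind
        rw [h3]
        refine ⟨?_, ?_, ?_⟩
        · simpa using hP'.1
        · simp
        · rw [hO1, hs'l]
  · refine ⟨hD, hI, z, s, 0, hz, hpow, ?_, fun v' hv' => absurd hv' (Nat.not_lt_zero _)⟩
    rw [hO5]
    exact hP

end Pool.Agent.Lib.MP_9dcf40_lc
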