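import Pool.Agent.Lib.MP_9dcf40_lc.Av.Rules

/-!
# The start phase (`StESetup`)
-/

namespace Pool.Agent.Lib.MP_9dcf40_lc

open Rout

namespace ESetup

/-- The stacks which occur in the start phase. -/
def stk {G : Type} (N R P X K Z Y : List (EG G)) : EN → List (EG G)
  | .N => N
  | .R => R
  | .P => P
  | .X => X
  | .K => K
  | .Z => Z
  | .Y => Y
  | .T => []
  | .WL => []
  | .WR => []
  | .ZL => []
  | .ZR => []
  | .AL => []
  | .AR => []
  | .C => []

section

variable {G : Type} (N R P X K Z Y L : List (EG G))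

theorem stk_init : Function.update (fun _ : EN => ([] : List (EG G))) .N N =
    stk N [] [] [] [] [] [] := by
  funext j
  cases j <;> rfl

theorem upd_R : Function.update (stk N R P X K Z Y) .R L = stk N L P X K Z Y := by
  funext j
  cases j <;> rfl

theorem upd_P : Function.update (stk N R P X K Z Y) .P L = stk N R L X K Z Y := by
  funext j
  cases j <;> rfl

theorem upd_X : Function.update (stk N R P X K Z Y) .X L = stk N R P L K Z Y := by
  funext j
  cases j <;> rfl

theorem upd_K : Function.update (stk N R P X K Z Y) .K L = stk N R P X L Z Y := by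
  funext j
  cases j <;> rfl

theorem upd_Z : Function.update (stk N R P X K Z Y) .Z L = stk N R P X K L Y := by
  funext j
  cases j <;> rfl

theorem upd_Y : Function.update (stk N R P X K Z Y) .Y L = stk N R P X K Z L := by
  funext j
  cases j <;> rfl

end

/-- A step with known result. -/
theorem step {G β γ : Type} [Finite G] [Finite β] {x : List Bool} {s p p' : ℕ}
    {st st' st'' : EN → List (EG G)} {q : ER G β} {f : β → ER G γ}
    {Q : γ → Data (EG G) EN → Prop}
    (h : Ends x q s ⟨p, st⟩ fun _ D' => D' = ⟨p', st'⟩) (he : st' = st'')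
    (h' : ∀ b, (⟨p', st''⟩ : Data (EG G) EN).le s → Ends x (f b) s ⟨p', st''⟩ Q) :
    Ends x (q.bind f) s ⟨p, st⟩ Q := by
  subst he
  refine ends_seq h ?_
  rintro b D' hD' rfl
  exact h' b hD'

end ESetup

open ESetup in
/-- The start phase. -/
theorem e_setup (hZ : StESize) (hP : StEPow) (hR : StERules) (hT : StETape) (hC : StCount) :
    StESetup := by
  intro G _ x s d e e₁ h1 h2 h3 h4
  obtain ⟨N, hN⟩ : ∃ N, N = (cinc^[x.length] []).map (EG.bit (G := G)) := ⟨_, rfl⟩
  have hlen : N.length = Nat.size x.length := by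
    rw [hN, List.length_map]
    exact hC.2.2.2.2.2.2.2.2.2.2 _
  have h0 := hZ G x s h4
  rw [← hN] at h0
  unfold setupE
  refine step h0 (stk_init N) fun _ hD => ?_
  -- `P`
  refine step (hP G x s (d + 1) _ hD rfl rfl rfl ?_) (upd_R _ _ _ _ _ _ _ _) fun _ hD => ?_
  · show (N.length + 1) ^ (d + 1) ≤ s
    rw [hlen]
    exact h1
  refine step ((hR G x s _ hD).2.2.1 (fun _ => .bit true) .R .P (by decide) (by decide)
    (by decide) rfl ?_) (upd_P _ _ _ _ _ _ _ _) fun _ hD => ?_
  · show (List.replicate ((N.length + 1) ^ (d + 1)) EG.mark).length + 0 ≤ s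
    rw [List.length_replicate, hlen]
    exact h1
  refine step ((hT G x s _ hD).1 .R) (upd_R _ _ _ _ _ _ _ _) fun _ hD => ?_
  -- `K`
  refine step (hP G x s e _ hD rfl rfl rfl ?_) (upd_R _ _ _ _ _ _ _ _) fun _ hD => ?_
  · show (N.length + 1) ^ e ≤ s
    rw [hlen]
    exact h2
  refine step ((hR G x s _ hD).2.2.1 (fun _ => .bit false) .R .K (by decide) (by decide)
    (by decide) rfl ?_) (upd_K _ _ _ _ _ _ _ _) fun _ hD => ?_
  · show (List.replicate ((N.length + 1) ^ e) EG.mark).length + 0 ≤ s
    rw [List.length_replicate, hlen]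
    exact h2
  refine step ((hT G x s _ hD).1 .R) (upd_R _ _ _ _ _ _ _ _) fun _ hD => ?_
  -- `Z`, `Y`
  refine step (hP G x s e₁ _ hD rfl rfl rfl ?_) (upd_R _ _ _ _ _ _ _ _) fun _ hD => ?_
  · show (N.length + 1) ^ e₁ ≤ s
    rw [hlen]
    omega
  refine step ((hR G x s _ hD).2.2.1 (fun _ => .ltr .zero) .R .Z (by decide) (by decide)
    (by decide) rfl ?_) (upd_Z _ _ _ _ _ _ _ _) fun _ hD => ?_
  · show (List.replicate ((N.length + 1) ^ e₁) EG.mark).length + 0 ≤ s
    rw [List.length_replicate, hlen]
    omega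
  refine step ((hR G x s _ hD).2.2.2.1 (.pr false false) 6 .R .Y (by decide) (by decide)
    (by decide) rfl ?_) (upd_Y _ _ _ _ _ _ _ _) fun _ hD => ?_
  · show 6 * (List.replicate ((N.length + 1) ^ e₁) EG.mark).length + 0 ≤ s
    rw [List.length_replicate, hlen]
    omega
  refine step ((hT G x s _ hD).1 .R) (upd_R _ _ _ _ _ _ _ _) fun _ hD => ?_
  -- `X`
  refine ((hR G x s _ hD).2.2.1 (fun _ => .bit true) .N .X (by decide) (by decide)
    (by decide) rfl ?_).imp ?_
  · show N.length + 0 ≤ s
    rw [hlen]
    omega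
  rintro _ D' - hD'
  have h5 := hD'.trans (congrArg (Data.mk (x.length + 1)) (upd_X _ _ _ _ _ _ _ _))
  subst h5
  refine ⟨rfl, rfl, ?_, ?_, ?_, ?_, ?_⟩
  · show (List.map (fun _ => EG.bit true)
      (List.replicate ((N.length + 1) ^ (d + 1)) EG.mark) ++ []).length = _
    rw [List.append_nil, List.length_map, List.length_replicate, hlen]
  · show (List.map (fun _ => EG.bit true) N ++ []).length = _
    rw [List.append_nil, List.length_map, hlen]
  · show (List.map (fun _ => EG.bit false)
      (List.replicate ((N.length + 1) ^ e) EG.mark) ++ []).length = _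
    rw [List.append_nil, List.length_map, List.length_replicate, hlen]
  · show List.map (fun _ => EG.ltr .zero)
      (List.replicate ((N.length + 1) ^ e₁) EG.mark) ++ [] = _
    rw [List.append_nil, List.map_replicate, List.map_replicate, hlen]
  · show List.replicate (6 * (List.replicate ((N.length + 1) ^ e₁) EG.mark).length)
      (EG.pr false false) ++ [] = _
    rw [List.append_nil, List.length_replicate, hlen, List.zipWith_replicate, min_self]

end Pool.Agent.Lib.MP_9dcf40_lc
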