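import Pool.Agent.Lib.MP_9dcf40_lc.Av.SpecM
import Pool.Agent.Lib.MP_9dcf40_lc.DVStep
import Pool.Agent.Lib.MP_9dcf40_lc.FContr

/-!
# The averaging machine: the simulation of the machine `V` with a clock
-/

namespace Pool.Agent.Lib.MP_9dcf40_lc

open Rout

namespace ESim

/-- One round of a loop. -/
theorem ends_round {A Γ ι β τ : Type} [DecidableEq ι] [Finite τ] {x : List A} {s : ℕ}
    {D : Data Γ ι} {Q : β → Data Γ ι → Prop} {body : τ → Rout A Γ ι (τ ⊕ β)} {t : τ}
    (h : Ends x (body t) s D fun r D' =>
      (∀ t', r = .inl t' → Ends x (Rout.iter body t') s D' Q) ∧ ∀ b, r = .inr b → Q b D') :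
    Ends x (Rout.iter body t) s D Q := by
  intro c
  obtain ⟨T, r, D', hr, h1, h2⟩ := h c
  rcases r with t' | b
  · obtain ⟨T', b, D'', hr', hq⟩ := h1 t' rfl c
    exact ⟨_, b, D'', runs_iter_step hr hr', hq⟩
  · exact ⟨_, b, D', runs_iter_done hr, h2 b rfl⟩

theorem rep_congr {G : Type} {x : List Bool} {z : List DA} {s : List Bool} {m q : ℕ} {μ : EM}
    {D D' : Data (EG G) EN} {vp : ℕ} (h : ERep x z s m q μ D vp) (hp : D'.pos = D.pos)
    (hs : ∀ j ∈ headSt, D'.st j = D.st j) : ERep x z s m q μ D' vp := by
  unfold ERep at h ⊢
  rw [hp, hs .ZL (by decide), hs .ZR (by decide), hs .AL (by decide), hs .AR (by decide),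
    hs .X (by decide), hs .P (by decide)]
  exact h

theorem inv_of_rep {G : Type} {x : List Bool} {z : List DA} {s : List Bool} {m q k : ℕ} {μ : EM}
    {D : Data (EG G) EN} {vp : ℕ} (h : ERep x z s m q μ D vp) (hs : s.length < x.length)
    (hT : D.st .T = []) (hK : (D.st .K).length = k) : EInv x m q k D := by
  obtain ⟨zl, zr, al, ar, lx, lp, -, -, -, -, hX, hP, hx, hp, -, -, hμ⟩ := h
  refine ⟨hT, by rw [hP, List.length_map, hp], by rw [hX, List.length_map, hx], hK, ?_⟩
  cases μ
  · have := hμ.2.2.2.1
    omega
  · have := hμ.2.2.2.2.1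
    omega
  · have := hμ.2.2.2.1
    omega
  · have := hμ.2.2.2.1
    omega

/-- The body of the loop of `simE`. -/
def body (V : TM VB) [Finite V.G] [Finite V.Q] (t : V.Q × EM) : ER V.G ((V.Q × EM) ⊕ Bool) :=
  match V.out t.1 with
  | some b => pureR (.inr b)
  | none => (cntE true .K).bind fun o => if o then pureR (.inr false) else
      (stepE V t.1 t.2).bind fun t' => pureR (.inl t')

theorem simE_eq (V : TM VB) [Finite V.G] [Finite V.Q] :
    simE V = iter (body V) (V.start, .z) := rfl

theorem body_some (V : TM VB) [Finite V.G] [Finite V.Q] (q : V.Q) (μ : EM)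
    (b : Bool) (h : V.out q = some b) : body V (q, μ) = pureR (.inr b) := by
  simp only [body, h]

theorem body_none (V : TM VB) [Finite V.G] [Finite V.Q] (q : V.Q) (μ : EM)
    (h : V.out q = none) : body V (q, μ) =
      (cntE true .K).bind fun o => if o then pureR (.inr false) else
        (stepE V q μ).bind fun t' => pureR (.inl t') := by
  simp only [body, h]

theorem main (hS : StEStep) (hR : StERules) (hZ : StZip) (hC : StCount) (V : TM VB) [Finite V.G]
    [Finite V.Q] (x : List Bool) (sp sV m q k : ℕ) (z : List DA) (s : List Bool)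
    (hs : s.length < x.length) (hq : x.length < 2 ^ q) (hz : z.length + s.length + 1 ≤ sp)
    (w : List VB) (hw : w = eword z (s ++ x.drop s.length) m)
    (hV : V.SpaceLe w sV) (hsp : sV + 2 ≤ sp) (r : ℕ) : ∀ t : ℕ, t + r + 1 = 2 ^ k →
    (∀ t' < t, V.out (V.run w (fun _ => false) t').q = none) →
    ∀ (D : Data (EG V.G) EN) (μ : EM) (kl : List Bool), D.le sp → D.st .T = [] →
    ERep x z s m q μ D (V.run w (fun _ => false) t).p →
    D.st .WL = (zrun V w t).1.map .work → D.st .WR = (zrun V w t).2.map .work →
    WRep V (V.run w (fun _ => false) t) (zrun V w t).1 (zrun V w t).2 →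
    D.st .K = kl.map .bit → kl.length = k → val kl = t →
    Ends x (iter (body V) ((V.run w (fun _ => false) t).q, μ)) sp D fun b D' =>
      (b = true ↔ EAcc V x m k z s) ∧ EInv x m q k D' ∧ Fr simSt D D' := by
  obtain ⟨c1, c2, c3, -, c5, c6, -⟩ := hC
  induction r using Nat.strong_induction_on with
  | h r ih =>
    intro t ht hnone D μ kl hD hT hrep hWL hWR hW hK hkl hval
    refine ends_round ?_
    cases hout : V.out (V.run w (fun _ => false) t).q with
    | some b =>
      rw [body_some V _ μ b hout]
      refine ends_pure _ hD ⟨fun t' ht' => absurd ht' (by simp), fun b' hb' => ?_⟩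
      simp only [Sum.inr.injEq] at hb'
      subst hb'
      refine ⟨?_, inv_of_rep hrep hs hT (by rw [hK, List.length_map, hkl]), Fr.refl _ _⟩
      constructor
      · rintro rfl
        exact ⟨t, by omega, by rw [← hw]; exact hout⟩
      · rintro ⟨t', ht', h⟩
        rw [← hw] at h
        rcases lt_or_ge t' t with h1 | h1
        · rw [hnone t' h1] at h
          simp at h
        · obtain ⟨j, rfl⟩ := Nat.exists_eq_add_of_le h1
          rw [FContr.run_stop V w _ t (by rw [hout]; simp) j, hout] at h
          simpa using h
    | none =>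
      rw [body_none V _ μ hout]
      refine ends_seq ((hR V.G x sp D hD).1 true .K kl (by decide) hT hK) ?_
      rintro o D₁ hD₁ ⟨rfl, rfl⟩
      have hfr : Fr simSt D ⟨D.pos, Function.update D.st .K ((cstep true kl).1.map .bit)⟩ := by
        intro j hj
        dsimp only
        rw [Function.update_of_ne]
        rintro rfl
        exact hj (by decide)
      have hrep₁ : ERep x z s m q μ ⟨D.pos, Function.update D.st .K
          ((cstep true kl).1.map .bit)⟩ (V.run w (fun _ => false) t).p := by
        refine rep_congr hrep rfl fun j hj => ?_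
        dsimp only
        rw [Function.update_of_ne]
        rintro rfl
        exact absurd hj (by decide)
      cases hov : (cstep true kl).2 with
      | true =>
        refine ends_pure _ hD₁ ⟨fun t' ht' => absurd ht' (by simp), fun b' hb' => ?_⟩
        simp only [Sum.inr.injEq] at hb'
        subst hb'
        refine ⟨?_, inv_of_rep hrep₁ hs ?_ ?_, hfr⟩
        · simp only [Bool.false_eq_true, false_iff]
          rintro ⟨t', ht', h⟩
          rw [← hw] at h
          have h1 := (c5 kl hov).1
          have h2 := c3 k
          rw [hkl] at h1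
          rw [← h1, hval] at h2
          rcases lt_or_ge t' t with h3 | h3
          · rw [hnone t' h3] at h
            simp at h
          · have h4 : t' = t := by omega
            rw [h4, hout] at h
            simp at h
        · show Function.update D.st .K ((cstep true kl).1.map .bit) .T = []
          rw [Function.update_of_ne (by decide), hT]
        · show (Function.update D.st .K ((cstep true kl).1.map .bit) .K).length = k
          rw [Function.update_self, List.length_map, c1, hkl]
      | false =>
        have hval' : val (cstep true kl).1 = t + 1 := by rw [c6 kl hov, hval]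
        have hlt : t + 1 < 2 ^ k := by
          have h2 := c2 (cstep true kl).1
          rwa [c1, hkl, hval'] at h2
        have hzip := hZ V w sV t hV
        have hrun : V.run w (fun _ => false) (t + 1) =
            V.next w false (V.run w (fun _ => false) t) := rfl
        set cf := V.run w (fun _ => false) t with hcf
        set a := V.δ false cf.q (inSym w cf.p) (cf.T cf.h) with ha
        have hzr : zrun V w (t + 1) = zmove V a.2.1 a.2.2.2 (zrun V w t).1 (zrun V w t).2 := by
          conv_lhs => unfold zrun
          simp only [← hcf, hout, ← ha]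
        have hnext : V.next w false cf = ⟨a.1, movePos w.length a.2.2.1 cf.p,
            moveTape a.2.2.2 cf.h, Function.update cf.T cf.h a.2.1⟩ := by
          unfold TM.next
          rw [hout]
        rw [if_neg (by decide)]
        have hstep := hS V x sp m q z s μ _ cf (zrun V w t).1 (zrun V w t).2 hD₁
          (by
            dsimp only
            rw [Function.update_of_ne (by decide), hT]) hrep₁ hs hq hz
          (by
            dsimp only
            rw [Function.update_of_ne (by decide), hWL])
          (by
            dsimp only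
            rw [Function.update_of_ne (by decide), hWR]) hW (by omega) (by omega) (by omega) hout
        rw [← hw] at hstep
        refine ends_seq hstep ?_
        rintro ⟨q', μ'⟩ D₂ hD₂ ⟨h1, h2, h3, h4, h5⟩
        simp only at h1 h2
        subst h1
        refine ends_pure _ hD₂ ⟨?_, fun b' hb' => absurd hb' (by simp)⟩
        intro t' ht'
        simp only [Sum.inl.injEq] at ht'
        subst ht'
        have hK₂ : D₂.st .K = (cstep true kl).1.map .bit := by
          rw [h5 .K (by decide)]
          dsimp only
          rw [Function.update_self]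
        have hT₂ : D₂.st .T = [] := by
          rw [h5 .T (by decide)]
          dsimp only
          rw [Function.update_of_ne (by decide), hT]
        refine (ih (r - 1) (by omega) (t + 1) (by omega) ?_ D₂ μ' (cstep true kl).1 hD₂ hT₂ h2
          ?_ ?_ ?_ hK₂ (by rw [c1, hkl]) hval').imp ?_
        · intro t' ht'
          rcases Nat.lt_succ_iff_lt_or_eq.mp ht' with h6 | h6
          · exact hnone t' h6
          · rw [h6]
            exact hout
        · rw [hzr]
          exact h3
        · rw [hzr]
          exact h4
        · rw [hzr, hrun]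
          exact DVStep.wrep_zmove V cf _ _ _ a.2.1 a.2.2.2 hW (by rw [hnext]) (by rw [hnext])
        · rintro b D₃ - ⟨h6, h7, h8⟩
          refine ⟨h6, h7, (hfr.trans (h5.mono ?_)).trans h8⟩
          decide

end ESim

open ESim in
theorem e_sim (hS : StEStep) (hR : StERules) (hZ : StZip) (hC : StCount) (_hA : StEAdv) :
    StESim := by
  intro V _ _ x sp sV m q k z s D hD hrdy hs hq hz hV hsp
  obtain ⟨hrep, hWL, hWR, hK, hT⟩ := hrdy
  rw [simE_eq]
  have h1 : 1 ≤ 2 ^ k := Nat.one_le_two_pow
  refine main hS hR hZ hC V x sp sV m q k z s hs hq hz _ rfl hV hsp (2 ^ k - 1) 0 (by omega)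
    (by intro t' ht'; omega) D .z (List.replicate k false) hD hT hrep ?_ ?_ ?_ hK (by simp)
    (hC.2.2.2.1 k)
  · rw [hWL]
    rfl
  · rw [hWR]
    rfl
  · refine ⟨fun i => ?_, fun i => ?_⟩
    · simp [TM.run, TM.init, zrun]
    · simp [TM.run, TM.init, zrun]

end Pool.Agent.Lib.MP_9dcf40_lc
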