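import Pool.Agent.Lib.MP_9dcf40_lc.Av.SpecM

/-!
# The averaging machine: length of the input in binary
-/

namespace Pool.Agent.Lib.MP_9dcf40_lc

open Rout

namespace ESize

theorem len_cinc (hC : StCount) (p : ℕ) : (cinc^[p] []).length = Nat.size p :=
  hC.2.2.2.2.2.2.2.2.2.2 p

/-- The data when the head is at `p`. -/
def dat (G : Type) (q p : ℕ) : Data (EG G) EN :=
  ⟨q, Function.update (fun _ => []) EN.N ((cinc^[p] []).map .bit)⟩

theorem le_of_len {G : Type} {s q p : ℕ} (h : (cinc^[p] []).length ≤ s) :
    (dat G q p).le s := by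
  intro i
  by_cases hi : i = EN.N
  · subst hi
    simpa [dat] using h
  · simp [dat, Function.update_of_ne hi]

theorem dat_zero (G : Type) : dat G 0 0 = .init := by
  have : Function.update (fun _ => []) EN.N ((cinc^[0] []).map EG.bit)
      = (fun _ => ([] : List (EG G))) := by
    funext i
    by_cases hi : i = EN.N
    · subst hi
      simp
    · simp [Function.update_of_ne hi]
  unfold dat
  rw [this]
  rfl

theorem main (hS : StEScan) (hL : StEList) (hC : StCount) : StESize := by
  intro G _ x s hs
  unfold sizeE
  refine ends_iter (fun _ D => ∃ p, p ≤ x.length ∧ D = dat G p p)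
    (fun _ D => x.length + 1 - D.pos) ?_ ⟨0, Nat.zero_le _, (dat_zero G).symm⟩
  rintro _ D ⟨p, hp, rfl⟩
  have hlen : (cinc^[p] []).length + 1 ≤ s := by
    rw [len_cinc hC]
    have : Nat.size p ≤ Nat.size x.length := Nat.size_le_size hp
    omega
  have hle : (dat G p p).le s := le_of_len (by omega)
  have hle' : (dat G (p + 1) p).le s := le_of_len (by omega)
  have e1 : movePos x.length Dir.right p = p + 1 := by
    simp only [movePos]
    omega
  have e1' : (⟨movePos x.length Dir.right (dat G p p).pos, (dat G p p).st⟩ : Data (EG G) EN) =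
      dat G (p + 1) p := by
    show (⟨movePos x.length Dir.right p, (dat G p p).st⟩ : Data (EG G) EN) = _
    rw [e1]
    rfl
  refine ends_bind (ends_move .right hle ?_)
  rw [e1']
  refine ends_bind (ends_read hle' ?_)
  rcases Nat.lt_or_ge p x.length with hpx | hpx
  · have e2 : inSym x (dat G (p + 1) p).pos = .letter (x[p]) := by
      simp [dat, inSym, List.getElem?_eq_getElem hpx]
    rw [e2]
    refine ends_seq (hS G Unit (bStep true) (some (.bit true)) .N () x s (dat G (p + 1) p)
      (by decide) hle' (by simp [dat]) (by simpa [dat] using hlen)) fun r D' hD' hr => ?_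
    refine ends_pure _ hD' ⟨fun t' _ => ?_, fun b hb => absurd hb (by simp)⟩
    have h3 : D' = dat G (p + 1) (p + 1) := by
      rw [hr.2]
      have h4 : (dat G (p + 1) p).st .N = (cinc^[p] []).map .bit := by simp [dat]
      rw [h4, hL.2.1 G]
      unfold dat
      rw [Function.update_idem, Function.iterate_succ_apply']
    rw [h3]
    refine ⟨⟨p + 1, hpx, rfl⟩, ?_⟩
    show x.length + 1 - (p + 1) < x.length + 1 - p
    omega
  · have hpe : p = x.length := le_antisymm hp hpx
    have e2 : inSym x (dat G (p + 1) p).pos = .right := by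
      simp [dat, inSym, hpe]
    rw [e2]
    refine ends_pure _ hle' ⟨fun t' ht => absurd ht (by simp), fun b _ => ?_⟩
    rw [hpe]
    rfl

end ESize

theorem e_size (hS : StEScan) (hL : StEList) (hC : StCount) : StESize := ESize.main hS hL hC

end Pool.Agent.Lib.MP_9dcf40_lc
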