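import Pool.Agent.Lib.MP_9dcf40_lc.Av.SpecM

/-!
# The machine which skips three fields of its input
-/

namespace Pool.Agent.Lib.MP_9dcf40_lc

namespace ESk

/-- The symbols of the new machine, as they are read by the old one. -/
def cv : InSym DB → InSym (Bool ⊕ Bool)
  | .left => .left
  | .right => .right
  | .letter (.inr b) => .letter (.inr b)
  | .letter (.inl .zero) => .letter (.inl false)
  | .letter (.inl .one) => .letter (.inl true)
  | .letter (.inl _) => .left

/-- On `hash` a move to the left is replaced by no move. -/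
def mv (a : InSym DB) (d : Dir) : Dir :=
  if a = .letter (.inl .hash) ∧ d = .left then .stay else d

/-- The new machine. -/
def sk (M : TM (Bool ⊕ Bool)) : TM DB where
  Q := Fin 3 ⊕ M.Q
  G := M.G
  finQ := by
    have := M.finQ
    infer_instance
  finG := M.finG
  start := .inl 0
  blank := M.blank
  out := fun q => q.elim (fun _ => none) M.out
  δ := fun b q a g =>
    match q with
    | .inl k =>
      if a = .letter (.inl .hash) then
        (if k = 2 then (.inr M.start, g, .stay, .stay) else (.inl (k + 1), g, .right, .stay))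
      else (.inl k, g, .right, .stay)
    | .inr q =>
      (.inr (M.δ b q (cv a) g).1, (M.δ b q (cv a) g).2.1, mv a (M.δ b q (cv a) g).2.2.1,
        (M.δ b q (cv a) g).2.2.2)

variable (M : TM (Bool ⊕ Bool))

theorem inSym_mid {A : Type} (a : List A) (z : A) (b : List A) :
    inSym (a ++ z :: b) (a.length + 1) = .letter z := by
  simp [inSym]

theorem inSym_succ {A : Type} (x : List A) (p : ℕ) :
    inSym x (p + 1) = ((x[p]?).map InSym.letter).getD .right := by
  simp only [inSym]
  cases x[p]? <;> rfl

theorem next_skip (Y : List DB) (b : Bool) (k : Fin 3) (p : ℕ) (h : ℤ) (T : ℤ → M.G)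
    (hp : inSym Y p ≠ .letter (.inl .hash)) (hl : p ≤ Y.length) :
    (sk M).next Y b ⟨.inl k, p, h, T⟩ = ⟨.inl k, p + 1, h, T⟩ := by
  have e : (sk M).out (.inl k) = none := rfl
  simp only [TM.next, e]
  simp [sk, hp, movePos, moveTape, hl]

theorem next_hash (Y : List DB) (b : Bool) (k : Fin 3) (p : ℕ) (h : ℤ) (T : ℤ → M.G)
    (hp : inSym Y p = .letter (.inl .hash)) (hl : p ≤ Y.length) (hk : k ≠ 2) :
    (sk M).next Y b ⟨.inl k, p, h, T⟩ = ⟨.inl (k + 1), p + 1, h, T⟩ := by
  have e : (sk M).out (.inl k) = none := rfl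
  simp only [TM.next, e]
  simp [sk, hp, movePos, moveTape, hl, hk]

theorem next_last (Y : List DB) (b : Bool) (p : ℕ) (h : ℤ) (T : ℤ → M.G)
    (hp : inSym Y p = .letter (.inl .hash)) :
    (sk M).next Y b ⟨.inl 2, p, h, T⟩ = ⟨.inr M.start, p, h, T⟩ := by
  have e : (sk M).out (.inl 2) = none := rfl
  simp only [TM.next, e]
  simp [sk, hp, movePos, moveTape]

/-- The run over one field. -/
theorem phase (ch : ℕ → Bool) (k : Fin 3) (a b : List DB) (f : List DA) (hf : .hash ∉ f)
    (t₀ : ℕ) (h : ℤ) (T : ℤ → M.G)
    (h0 : (sk M).run (a ++ (f.map .inl ++ .inl .hash :: b)) ch t₀ = ⟨.inl k, a.length + 1, h, T⟩)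
    (j : ℕ) (hj : j ≤ f.length) :
    (sk M).run (a ++ (f.map .inl ++ .inl .hash :: b)) ch (t₀ + j) =
      ⟨.inl k, a.length + 1 + j, h, T⟩ := by
  induction j with
  | zero => exact h0
  | succ j ih =>
    have h1 := ih (by omega)
    rw [← Nat.add_assoc, TM.run, h1, next_skip M _ _ _ _ _ _ _ _]
    · rfl
    · have e : a.length + 1 + j = (a.length + j) + 1 := by omega
      rw [e]
      have e2 : (a ++ (f.map (Sum.inl : DA → DB) ++ .inl .hash :: b))[a.length + j]? =
          some (.inl f[j]) := by
        rw [List.getElem?_append_right (by omega), Nat.add_sub_cancel_left,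
          List.getElem?_append_left (by simpa using hj), List.getElem?_map,
          List.getElem?_eq_getElem (by omega)]
        rfl
      simp only [inSym, e2]
      intro h3
      simp only [InSym.letter.injEq, Sum.inl.injEq] at h3
      exact hf (h3 ▸ List.getElem_mem _)
    · simp only [List.length_append, List.length_map, List.length_cons]
      omega

theorem inSym_hash (a b : List DB) (f : List DA) :
    inSym (a ++ (f.map .inl ++ .inl .hash :: b)) (a.length + 1 + f.length) =
      .letter (.inl .hash) := by
  have h := inSym_mid (a ++ f.map .inl) (.inl .hash) b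
  rw [List.append_assoc, List.length_append, List.length_map] at h
  rw [← h]
  congr 1
  omega

/-- The configurations of the two machines. -/
def lift (P : ℕ) (c : Cfg M.Q M.G) : Cfg (sk M).Q (sk M).G := ⟨.inr c.q, P + c.p, c.h, c.T⟩

/-- The embedding of the alphabets. -/
def emb : Bool ⊕ Bool → DB := Sum.map bitL id

theorem cv_emb (z : Bool ⊕ Bool) : cv (.letter (emb z)) = .letter z := by
  rcases z with (_ | _) | b <;> rfl

theorem emb_ne (z : Bool ⊕ Bool) : emb z ≠ .inl .hash := by
  rcases z with (_ | _) | b <;> decide +revert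

theorem next_inr (Y : List DB) (b : Bool) (q : M.Q) (p : ℕ) (h : ℤ) (T : ℤ → M.G)
    (ho : M.out q = none) :
    (sk M).next Y b ⟨.inr q, p, h, T⟩ = ⟨.inr (M.δ b q (cv (inSym Y p)) (T h)).1,
      movePos Y.length (mv (inSym Y p) (M.δ b q (cv (inSym Y p)) (T h)).2.2.1) p,
      moveTape (M.δ b q (cv (inSym Y p)) (T h)).2.2.2 h,
      Function.update T h (M.δ b q (cv (inSym Y p)) (T h)).2.1⟩ := by
  have e : (sk M).out (.inr q) = none := ho
  simp only [TM.next, e]
  rfl

/-- One step of the two machines. -/
theorem next_lift (pr : List DB) (X : List (Bool ⊕ Bool)) (b : Bool) (c : Cfg M.Q M.G) :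
    (sk M).next ((pr ++ [.inl .hash]) ++ X.map emb) b (lift M (pr.length + 1) c) =
      lift M (pr.length + 1) (M.next X b c) := by
  obtain ⟨q, p, h, T⟩ := c
  have hlen : ((pr ++ [(.inl .hash : DB)]) ++ X.map emb).length = pr.length + 1 + X.length := by
    simp only [List.length_append, List.length_map, List.length_cons, List.length_nil]
  have hsym : cv (inSym ((pr ++ [.inl .hash]) ++ X.map emb) (pr.length + 1 + p)) = inSym X p ∧
      (inSym ((pr ++ [.inl .hash]) ++ X.map emb) (pr.length + 1 + p) = .letter (.inl .hash) ↔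
        p = 0) := by
    cases p with
    | zero =>
      have h1 : inSym ((pr ++ [.inl .hash]) ++ X.map emb) (pr.length + 1) =
          .letter (.inl .hash) := by
        have h2 := inSym_mid pr (.inl .hash) (X.map emb)
        rw [← h2]
        congr 1
        simp
      rw [Nat.add_zero, h1]
      exact ⟨rfl, by simp⟩
    | succ p =>
      have h1 : ((pr ++ [.inl .hash]) ++ X.map emb)[pr.length + 1 + p]? = (X[p]?).map emb := by
        rw [List.getElem?_append_right (by simp), List.getElem?_map]
        congr 2
        simp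
      have h2 : inSym ((pr ++ [.inl .hash]) ++ X.map emb) (pr.length + 1 + (p + 1)) =
          (((X[p]?).map emb).map InSym.letter).getD .right := by
        rw [← h1]
        exact inSym_succ _ _
      rw [h2, inSym_succ]
      cases h3 : X[p]? with
      | none =>
        simp only [Option.map_none, Option.getD_none]
        exact ⟨rfl, by simp⟩
      | some z =>
        simp only [Option.map_some, Option.getD_some]
        refine ⟨cv_emb z, ?_⟩
        simp [emb_ne]
  cases ho : M.out q with
  | some o =>
    have e : (sk M).out (.inr q) = some o := ho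
    simp only [TM.next, lift, e, ho]
  | none =>
    have e : M.next X b ⟨q, p, h, T⟩ = ⟨(M.δ b q (inSym X p) (T h)).1,
        movePos X.length (M.δ b q (inSym X p) (T h)).2.2.1 p,
        moveTape (M.δ b q (inSym X p) (T h)).2.2.2 h,
        Function.update T h (M.δ b q (inSym X p) (T h)).2.1⟩ := by
      simp only [TM.next, ho]
    rw [e]
    unfold lift
    rw [next_inr M _ _ _ _ _ _ ho, hsym.1, hlen]
    congr 1
    generalize (M.δ b q (inSym X p) (T h)).2.2.1 = dd
    unfold mv
    by_cases hp : p = 0
    · subst hp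
      have h4 := hsym.2.2 rfl
      rw [h4]
      cases dd <;> simp [movePos]
    · have h4 : ¬ (inSym ((pr ++ [.inl .hash]) ++ X.map emb) (pr.length + 1 + p) =
        .letter (.inl .hash)) := fun h5 => hp (hsym.2.1 h5)
      rw [if_neg (fun h5 => h4 h5.1)]
      cases dd <;> simp only [movePos] <;> omega

/-- The run after the start phase. -/
theorem run_lift (pr : List DB) (X : List (Bool ⊕ Bool)) (ch : ℕ → Bool) (t₀ : ℕ)
    (h0 : (sk M).run ((pr ++ [.inl .hash]) ++ X.map emb) ch t₀ =
      ⟨.inr M.start, pr.length + 1, 0, fun _ => M.blank⟩) (t : ℕ) :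
    (sk M).run ((pr ++ [.inl .hash]) ++ X.map emb) ch (t₀ + t) =
      lift M (pr.length + 1) (M.run X (fun i => ch (t₀ + i)) t) := by
  induction t with
  | zero => exact h0
  | succ t ih => rw [← Nat.add_assoc, TM.run, ih, next_lift, TM.run]

end ESk

open ESk

theorem e_sk : StESk := by
  intro M
  refine ⟨sk M, ?_⟩
  intro f₁ f₂ f₃ x w h₁ h₂ h₃
  -- the input word
  have hY : pairL (f₁ ++ .hash :: (f₂ ++ .hash :: (f₃ ++ .hash :: x.map bitL))) w =
      (f₁.map .inl ++ .inl .hash :: (f₂.map .inl ++ .inl .hash :: (f₃.map .inl ++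
        .inl .hash :: (pairL x w).map emb)) : List DB) := by
    unfold pairL emb
    simp [Function.comp_def]
  rw [hY]
  set Z : List DB := (pairL x w).map emb with hZ
  set Y : List DB := f₁.map .inl ++ .inl .hash :: (f₂.map .inl ++ .inl .hash :: (f₃.map .inl ++
        .inl .hash :: Z)) with hYY
  have s0 : ∀ ch, (sk M).run Y ch 0 = ⟨.inl 0, 0, 0, fun _ => M.blank⟩ := fun ch => rfl
  have s1 : ∀ ch, (sk M).run Y ch 1 = ⟨.inl 0, 1, 0, fun _ => M.blank⟩ := by
    intro ch
    rw [TM.run, s0, next_skip]
    · intro h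
      simp [inSym] at h
    · omega
  have hlen : Y.length = f₁.length + 1 + (f₂.length + 1 + (f₃.length + 1 + Z.length)) := by
    rw [hYY]
    simp only [List.length_append, List.length_map, List.length_cons]
    omega
  have p1 : ∀ (ch : ℕ → Bool) (j : ℕ), j ≤ f₁.length →
      (sk M).run Y ch (1 + j) = ⟨.inl 0, 1 + j, 0, fun _ => M.blank⟩ := by
    intro ch j hj
    have := phase M ch 0 [] (f₂.map .inl ++ .inl .hash :: (f₃.map .inl ++ .inl .hash :: Z)) f₁ h₁
      1 0 (fun _ => M.blank) (s1 ch) j hj
    simpa using this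
  have e1 : ∀ ch : ℕ → Bool, (sk M).run Y ch (f₁.length + 2) =
      ⟨.inl 1, f₁.length + 2, 0, fun _ => M.blank⟩ := by
    intro ch
    have h := p1 ch f₁.length le_rfl
    have e : f₁.length + 2 = (1 + f₁.length) + 1 := by omega
    rw [e, TM.run, h, next_hash]
    · rfl
    · have := inSym_hash [] (f₂.map .inl ++ .inl .hash :: (f₃.map .inl ++ .inl .hash :: Z)) f₁
      simpa using this
    · omega
    · decide
  set a₂ : List DB := f₁.map .inl ++ [.inl .hash] with ha₂
  have hY2 : Y = a₂ ++ (f₂.map .inl ++ .inl .hash :: (f₃.map .inl ++ .inl .hash :: Z)) := by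
    rw [hYY, ha₂]
    simp
  have la₂ : a₂.length = f₁.length + 1 := by rw [ha₂]; simp
  have p2 : ∀ (ch : ℕ → Bool) (j : ℕ), j ≤ f₂.length →
      (sk M).run Y ch (f₁.length + 2 + j) =
        ⟨.inl 1, f₁.length + 2 + j, 0, fun _ => M.blank⟩ := by
    intro ch j hj
    have := phase M ch 1 a₂ (f₃.map .inl ++ .inl .hash :: Z) f₂ h₂
      (f₁.length + 2) 0 (fun _ => M.blank) (by rw [← hY2, e1, la₂]) j hj
    rw [← hY2, la₂] at this
    exact this
  have e2 : ∀ ch : ℕ → Bool, (sk M).run Y ch (f₁.length + f₂.length + 3) =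
      ⟨.inl 2, f₁.length + f₂.length + 3, 0, fun _ => M.blank⟩ := by
    intro ch
    have h := p2 ch f₂.length le_rfl
    have e : f₁.length + f₂.length + 3 = (f₁.length + 2 + f₂.length) + 1 := by omega
    rw [e, TM.run, h, next_hash]
    · rfl
    · have := inSym_hash a₂ (f₃.map .inl ++ .inl .hash :: Z) f₂
      rw [← hY2, la₂] at this
      exact this
    · omega
    · decide
  set a₃ : List DB := f₁.map .inl ++ .inl .hash :: (f₂.map .inl ++ [.inl .hash]) with ha₃
  have hY3 : Y = a₃ ++ (f₃.map .inl ++ .inl .hash :: Z) := by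
    rw [hYY, ha₃]
    simp
  have la₃ : a₃.length = f₁.length + f₂.length + 2 := by
    rw [ha₃]
    simp only [List.length_append, List.length_map, List.length_cons, List.length_nil]
    omega
  have p3 : ∀ (ch : ℕ → Bool) (j : ℕ), j ≤ f₃.length →
      (sk M).run Y ch (f₁.length + f₂.length + 3 + j) =
        ⟨.inl 2, f₁.length + f₂.length + 3 + j, 0, fun _ => M.blank⟩ := by
    intro ch j hj
    have := phase M ch 2 a₃ Z f₃ h₃
      (f₁.length + f₂.length + 3) 0 (fun _ => M.blank) (by rw [← hY3, e2, la₃]) j hj
    rw [← hY3, la₃] at this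
    exact this
  have e3 : ∀ ch : ℕ → Bool, (sk M).run Y ch (f₁.length + f₂.length + f₃.length + 4) =
      ⟨.inr M.start, f₁.length + f₂.length + f₃.length + 3, 0, fun _ => M.blank⟩ := by
    intro ch
    have h := p3 ch f₃.length le_rfl
    have e : f₁.length + f₂.length + f₃.length + 4 =
      (f₁.length + f₂.length + 3 + f₃.length) + 1 := by omega
    rw [e, TM.run, h, next_last]
    · congr 1
      omega
    · have := inSym_hash a₃ Z f₃
      rw [← hY3, la₃] at this
      exact this
  constructor
  · intro ch t ht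
    rcases Nat.lt_or_ge t 1 with h | h
    · have e : t = 0 := by omega
      rw [e, s0]
      rfl
    rcases Nat.lt_or_ge t (f₁.length + 2) with h' | h'
    · have := p1 ch (t - 1) (by omega)
      have e : 1 + (t - 1) = t := by omega
      rw [e] at this
      rw [this]
      rfl
    rcases Nat.lt_or_ge t (f₁.length + f₂.length + 3) with h'' | h''
    · have := p2 ch (t - (f₁.length + 2)) (by omega)
      have e : f₁.length + 2 + (t - (f₁.length + 2)) = t := by omega
      rw [e] at this
      rw [this]
      rfl
    · have := p3 ch (t - (f₁.length + f₂.length + 3)) (by omega)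
      have e : f₁.length + f₂.length + 3 + (t - (f₁.length + f₂.length + 3)) = t := by omega
      rw [e] at this
      rw [this]
      rfl
  · intro ch t
    set pr : List DB := a₃ ++ f₃.map .inl with hpr
    have hY4 : Y = (pr ++ [.inl .hash]) ++ (pairL x w).map emb := by
      rw [hY3, hpr, hZ]
      simp
    have lpr : pr.length + 1 = f₁.length + f₂.length + f₃.length + 3 := by
      rw [hpr, List.length_append, List.length_map, la₃]
      omega
    have := run_lift M pr (pairL x w) ch (f₁.length + f₂.length + f₃.length + 4)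
      (by rw [← hY4, e3, lpr]) t
    rw [← hY4] at this
    rw [this]
    rfl

end Pool.Agent.Lib.MP_9dcf40_lc
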