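import Pool.Agent.Lib.MP_9dcf40_lc.Av.SpecM
import Pool.Agent.Lib.MP_9dcf40_lc.DVStep

/-!
# The averaging machine: one step of the simulated machine
-/

namespace Pool.Agent.Lib.MP_9dcf40_lc

open Rout

namespace EStep

theorem rep_congr {G : Type} {x : List Bool} {z : List DA} {s : List Bool} {m q : ℕ} {μ : EM}
    {D D' : Data (EG G) EN} {vp : ℕ} (h : ERep x z s m q μ D vp) (hp : D'.pos = D.pos)
    (hs : ∀ j ∈ headSt, D'.st j = D.st j) : ERep x z s m q μ D' vp := by
  unfold ERep at h ⊢
  rw [hp, hs .ZL (by decide), hs .ZR (by decide), hs .AL (by decide), hs .AR (by decide),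
    hs .X (by decide), hs .P (by decide)]
  exact h

theorem wsym_map (V : TM VB) (l : List V.G) :
    wsymE V (l.map (EG.work : V.G → EG V.G)).head? = l[0]?.getD V.blank := by
  cases l <;> simp [wsymE]

theorem wsym_head (V : TM VB) (l : List V.G) :
    wsymE V (l.map (EG.work : V.G → EG V.G)).head? = l.head?.getD V.blank := by
  cases l <;> simp [wsymE]

/-- The move of the work head. -/
theorem work (V : TM VB) [Finite V.G] (x : List Bool) (sp : ℕ) (D : Data (EG V.G) EN) (g : V.G)
    (dir : Dir) (wl wr : List V.G) (hD : D.le sp) (hWL : D.st .WL = wl.map .work)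
    (hWR : D.st .WR = (g :: wr.tail).map .work) (hl : wl.length + 1 ≤ sp)
    (hr : wr.tail.length + 2 ≤ sp) :
    Ends x (workE V dir) sp D fun _ D' => D'.pos = D.pos ∧
      D'.st .WL = (zmove V g dir wl wr).1.map .work ∧
      D'.st .WR = (zmove V g dir wl wr).2.map .work ∧
      ∀ j, j ≠ .WL → j ≠ .WR → D'.st j = D.st j := by
  cases dir with
  | stay => exact ends_pure _ hD ⟨rfl, hWL, hWR, fun _ _ _ => rfl⟩
  | right =>
    refine ends_seq (ends_pop (Q := fun o D' => o = (D.st .WR).head? ∧
      D' = ⟨D.pos, Function.update D.st .WR (D.st .WR).tail⟩) .WR hD ⟨rfl, rfl⟩) ?_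
    rintro o D' hD' ⟨rfl, rfl⟩
    refine ends_push _ _ hD' ?_ ⟨rfl, ?_, ?_, ?_⟩
    · show (Function.update D.st .WR (D.st .WR).tail .WL).length + 1 ≤ sp
      rw [Function.update_of_ne (by decide), hWL, List.length_map]
      exact hl
    · dsimp only
      rw [Function.update_self, Function.update_of_ne (by decide), hWL, hWR, wsym_head]
      rfl
    · dsimp only
      rw [Function.update_of_ne (by decide), Function.update_self, hWR]
      rfl
    · intro j h1 h2
      show Function.update (Function.update D.st .WR (D.st .WR).tail) .WL _ j = _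
      rw [Function.update_of_ne h1, Function.update_of_ne h2]
  | left =>
    refine ends_seq (ends_pop (Q := fun o D' => o = (D.st .WL).head? ∧
      D' = ⟨D.pos, Function.update D.st .WL (D.st .WL).tail⟩) .WL hD ⟨rfl, rfl⟩) ?_
    rintro o D' hD' ⟨rfl, rfl⟩
    refine ends_push _ _ hD' ?_ ⟨rfl, ?_, ?_, ?_⟩
    · show (Function.update D.st .WL (D.st .WL).tail .WR).length + 1 ≤ sp
      rw [Function.update_of_ne (by decide), hWR, List.length_map, List.length_cons]
      omega
    · dsimp only
      rw [Function.update_of_ne (by decide), Function.update_self, hWL, ← List.map_tail]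
      rfl
    · dsimp only
      rw [Function.update_self, Function.update_of_ne (by decide), hWR, hWL, wsym_head]
      rfl
    · intro j h1 h2
      show Function.update (Function.update D.st .WL (D.st .WL).tail) .WR _ j = _
      rw [Function.update_of_ne h2, Function.update_of_ne h1]

end EStep

theorem e_step (hH : StEHead) : StEStep := by
  intro V _ x sp m q z s μ D cf wl wr hD hT hrep hs hq hz hWL hWR hW hwl hwr hsp hout
  obtain ⟨hsym, -⟩ := hH V.G x sp m q z s μ D cf.p hD hT hrep hs hq hz
  set w := eword z (s ++ x.drop s.length) m with hw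
  have hws : wsymE V (D.st .WR).head? = cf.T cf.h := by
    rw [hWR, EStep.wsym_map]
    have := hW.1 0
    simpa using this.symm
  unfold stepE
  refine ends_seq hsym ?_
  rintro a D₁ - ⟨rfl, rfl⟩
  refine ends_seq (ends_pop (Q := fun o D' => o = (D₁.st .WR).head? ∧
    D' = ⟨D₁.pos, Function.update D₁.st .WR (D₁.st .WR).tail⟩) .WR hD ⟨rfl, rfl⟩) ?_
  rintro o D₂ hD₂ ⟨rfl, rfl⟩
  rw [hws]
  set r := V.δ false cf.q (inSym w cf.p) (cf.T cf.h) with hr
  have hwrt : wr.tail.length + 2 ≤ sp := by
    cases wr with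
    | nil => simpa using hsp
    | cons g t => simp at hwr ⊢; omega
  refine ends_seq (ends_push (Q := fun _ D' => D' = ⟨D₁.pos, Function.update D₁.st .WR
    ((r.2.1 :: wr.tail).map .work)⟩) .WR (.work r.2.1) hD₂ ?_ ?_) ?_
  · show (Function.update D₁.st .WR (D₁.st .WR).tail .WR).length + 1 ≤ sp
    rw [Function.update_self, hWR, List.length_tail, List.length_map]
    rw [List.length_tail] at hwrt
    omega
  · show (⟨D₁.pos, Function.update (Function.update D₁.st .WR (D₁.st .WR).tail) .WR
      (_ :: Function.update D₁.st .WR (D₁.st .WR).tail .WR)⟩ : Data (EG V.G) EN) = _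
    rw [Function.update_idem, Function.update_self, hWR, ← List.map_tail]
    rfl
  rintro _ D₃ hD₃ rfl
  refine ends_seq (EStep.work V x sp _ r.2.1 r.2.2.2 wl wr hD₃ ?_ ?_ hwl hwrt) ?_
  · show Function.update D₁.st .WR ((r.2.1 :: wr.tail).map .work) .WL = _
    rw [Function.update_of_ne (by decide), hWL]
  · show Function.update D₁.st .WR ((r.2.1 :: wr.tail).map .work) .WR = _
    rw [Function.update_self]
  rintro _ D₄ hD₄ ⟨hp, h1, h2, h3⟩
  have h4 : ∀ j, j ≠ .WL → j ≠ .WR → D₄.st j = D₁.st j := by
    intro j hj hj'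
    rw [h3 j hj hj']
    show Function.update D₁.st .WR ((r.2.1 :: wr.tail).map .work) j = _
    rw [Function.update_of_ne hj']
  have hrep' : ERep x z s m q μ D₄ cf.p := by
    refine EStep.rep_congr hrep hp fun j hj => h4 j ?_ ?_
    · rintro rfl
      exact absurd hj (by decide)
    · rintro rfl
      exact absurd hj (by decide)
  refine ends_seq ((hH V.G x sp m q z s μ D₄ cf.p hD₄ (by rw [h4 .T (by decide) (by decide), hT])
    hrep' hs hq hz).2 r.2.2.1) ?_
  rintro μ' D₅ hD₅ ⟨h5, h6⟩
  have hnext : V.next w false cf = ⟨r.1, movePos w.length r.2.2.1 cf.p,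
      moveTape r.2.2.2 cf.h, Function.update cf.T cf.h r.2.1⟩ := by
    unfold TM.next
    rw [hout]
  refine ends_pure _ hD₅ ⟨?_, ?_, ?_, ?_, ?_⟩
  · rw [hnext]
  · rw [hnext]
    exact h5
  · rw [h6 .WL (by decide), h1]
  · rw [h6 .WR (by decide), h2]
  · intro j hj
    simp only [List.mem_cons, not_or] at hj
    rw [h6 j hj.2.2, h4 j hj.1 hj.2.1]

end Pool.Agent.Lib.MP_9dcf40_lc
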