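import Pool.Agent.Lib.MP_9dcf40_lc.Av.Rules

/-!
# Small loops: empty a stack, moves of the head, inner product with the input
-/

namespace Pool.Agent.Lib.MP_9dcf40_lc

open Rout

namespace ETape

variable {G : Type} [Finite G] {x : List Bool} {s : ℕ} {D : Data (EG G) EN}

theorem empty (hD : D.le s) (i : EN) : Ends x (emptyR (G := G) i) s D fun _ D' =>
    D' = ⟨D.pos, Function.update D.st i []⟩ := by
  unfold emptyR
  refine ends_iter (fun _ D' => D'.le s ∧ D'.pos = D.pos ∧ ∀ j, j ≠ i → D'.st j = D.st j)
    (fun _ D' => (D'.st i).length) ?_ ⟨hD, rfl, fun _ _ => rfl⟩
  rintro _ D₁ ⟨hle, hp, hj⟩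
  refine ends_bind (ends_pop i hle ?_)
  cases hl : D₁.st i with
  | nil =>
    refine ends_pure _ ?_ ⟨fun _ h => absurd h (by simp), fun _ _ => ?_⟩
    · intro j
      by_cases h : j = i
      · subst h; simp
      · simp only [Function.update_of_ne h]; exact hle j
    · simp only [hp, List.tail_nil, Data.mk.injEq, true_and]
      funext j
      by_cases h : j = i
      · subst h; simp
      · simp only [Function.update_of_ne h]; exact hj j h
  | cons a l =>
    have hle' : Data.le ⟨D₁.pos, Function.update D₁.st i l⟩ s := by
      intro j
      by_cases h : j = i
      · subst h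
        have := hle j
        simp only [hl, List.length_cons] at this
        simp only [Function.update_self]
        omega
      · simp only [Function.update_of_ne h]; exact hle j
    refine ends_pure _ hle' ⟨fun _ _ => ⟨⟨hle', hp, fun j h => ?_⟩, ?_⟩,
      fun _ h => absurd h (by simp)⟩
    · simp only [List.tail_cons, Function.update_of_ne h]; exact hj j h
    · simp

theorem inSym_zero (y : List Bool) : inSym y 0 = .left := rfl

theorem inSym_succ_ne (y : List Bool) (p : ℕ) : inSym y (p + 1) ≠ .left := by
  unfold inSym
  cases h : y[p]? <;> simp [h]

omit [Finite G] in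
theorem left (hD : D.le s) : Ends x (leftE (G := G)) s D fun _ D' => D' = ⟨0, D.st⟩ := by
  unfold leftE
  refine ends_iter (fun _ D' => D'.le s ∧ D'.st = D.st) (fun _ D' => D'.pos) ?_ ⟨hD, rfl⟩
  rintro _ D₁ ⟨hle, hst⟩
  refine ends_bind (ends_move _ hle ?_)
  refine ends_bind (ends_read ?_ ?_)
  · exact hle
  simp only [movePos]
  cases hp : D₁.pos - 1 with
  | zero =>
    simp only [inSym_zero]
    exact ends_pure _ hle ⟨fun _ h => absurd h (by simp), fun _ _ => by rw [hst]⟩
  | succ q =>
    have h1 := inSym_succ_ne x q
    cases h2 : inSym x (q + 1) with
    | left => exact absurd h2 h1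
    | letter a =>
      refine ends_pure _ hle ⟨fun _ _ => ⟨⟨hle, hst⟩, ?_⟩, fun _ h => absurd h (by simp)⟩
      show q + 1 < D₁.pos
      omega
    | right =>
      refine ends_pure _ hle ⟨fun _ _ => ⟨⟨hle, hst⟩, ?_⟩, fun _ h => absurd h (by simp)⟩
      show q + 1 < D₁.pos
      omega

theorem skip (hX : StXfer) (hD : D.le s) (i : EN) (hi : i ≠ .T) (hT : D.st .T = [])
    (hp : D.pos ≤ x.length + 1) : Ends x (skipE (G := G) i) s D fun _ D' =>
    D' = ⟨min (D.pos + (D.st i).length) (x.length + 1), D.st⟩ := by
  unfold skipE
  refine ends_seq (P := fun _ D' =>
    D' = ⟨min (D.pos + (D.st i).length) (x.length + 1),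
      Function.update (Function.update D.st i []) .T (D.st i).reverse⟩) ?_ ?_
  · refine ends_iter (fun _ D' => D'.le s ∧ ∃ u l : List (EG G), D.st i = u ++ l ∧
      D' = ⟨min (D.pos + u.length) (x.length + 1),
        Function.update (Function.update D.st i l) .T u.reverse⟩)
      (fun _ D' => (D'.st i).length) ?_ ⟨hD, [], D.st i, rfl, ?_⟩
    · rintro _ D₁ ⟨hle, u, l, hul, rfl⟩
      refine ends_bind (ends_pop i hle ?_)
      simp only [Function.update_of_ne hi, Function.update_self]
      cases l with
      | nil =>
        refine ends_pure _ ?_ ⟨fun _ h => absurd h (by simp), fun _ _ => ?_⟩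
        · intro j
          have := hle j
          by_cases h : j = i
          · subst h; simp
          · simpa [Function.update_of_ne h] using this
        · simp only [List.append_nil] at hul
          subst hul
          simp only [List.tail_nil, Data.mk.injEq, true_and]
          funext j
          by_cases h : j = i
          · subst h; simp [hi]
          · simp [h, Function.update_of_ne]
      | cons a l =>
        have hlen : u.length + 1 ≤ s := by
          have := hD i
          rw [hul] at this
          simp at this
          omega
        have e : (Function.update (Function.update (Function.update D.st i (a :: l)) .T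
            u.reverse) i l) = Function.update (Function.update D.st i l) .T u.reverse := by
          funext j
          by_cases h : j = i
          · subst h; simp [hi]
          · by_cases h' : j = .T
            · subst h'; simp [h]
            · simp [h, h']
        simp only [List.head?_cons, List.tail_cons, e]
        have hle1 : Data.le ⟨min (D.pos + u.length) (x.length + 1),
            Function.update (Function.update D.st i l) .T u.reverse⟩ s := by
          intro j
          have := hle j
          by_cases h : j = i
          · subst h
            simp only [Function.update_of_ne hi, Function.update_self, List.length_cons] at this ⊢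
            omega
          · by_cases h' : j = .T
            · subst h'; simpa using this
            · simpa [h, h'] using this
        refine ends_bind (ends_push _ _ hle1 (by simpa using hlen) ?_)
        have hle2 : Data.le ⟨min (D.pos + u.length) (x.length + 1),
            Function.update (Function.update (Function.update D.st i l) .T u.reverse) .T
              (a :: Function.update (Function.update D.st i l) .T u.reverse .T)⟩ s := by
          intro j
          by_cases h' : j = .T
          · subst h'; simpa using hlen
          · have := hle1 j
            simpa [h'] using this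
        refine ends_bind (ends_move _ hle2 ?_)
        refine ends_pure _ hle2 ⟨fun _ _ => ⟨⟨hle2, u ++ [a], l, by simp [hul], ?_⟩, ?_⟩,
          fun _ h => absurd h (by simp)⟩
        · simp only [movePos, Function.update_self, Function.update_idem, List.reverse_append,
            List.reverse_cons, List.reverse_nil, List.nil_append, List.length_append,
            List.length_cons, List.length_nil, Data.mk.injEq]
          refine ⟨by omega, rfl⟩
        · simp [hi]
    · have e : Function.update (Function.update D.st i (D.st i)) .T [] = D.st := by
        funext j
        by_cases h' : j = .T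
        · subst h'; simp [hT]
        · simp [h']
      simp only [List.length_nil, Nat.add_zero, List.reverse_nil, e]
      rw [min_eq_left hp]
  · rintro _ D₁ hle rfl
    refine ends_xfer hX .T i (Ne.symm hi) hle ?_ ?_
    · have := hD i
      simpa [Function.update_of_ne hi] using this
    · simp only [Function.update_self, Function.update_of_ne hi, List.reverse_reverse,
        List.append_nil, Data.mk.injEq, true_and]
      funext j
      by_cases h' : j = .T
      · subst h'; simp [Ne.symm hi, hT]
      · by_cases h : j = i
        · subst h; simp
        · simp [h, h']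

theorem inSym_letter {y : List Bool} {p : ℕ} (h : p < y.length) :
    inSym y (p + 1) = .letter y[p] := by
  simp [inSym, List.getElem?_eq_getElem h]

theorem fin (hD : D.le s) (h t : List Bool) (hp : D.pos = 0)
    (hY : D.st .Y = List.zipWith .pr h t) (hlen : h.length = t.length)
    (hx : h.length ≤ x.length) : Ends x (finE (G := G)) s D fun b _ => b = dot h x := by
  unfold finE
  refine ends_iter (fun (u : Bool) D' => D'.le s ∧ ∃ k : ℕ, D'.pos = k ∧ k ≤ h.length ∧
    D'.st .Y = List.zipWith .pr (h.drop k) (t.drop k) ∧
    dot h x = (u ^^ dot (h.drop k) (x.drop k))) (fun _ D' => (D'.st .Y).length) ?_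
    ⟨hD, 0, hp, by omega, by simpa using hY, by simp⟩
  rintro u D₁ ⟨hle, k, hk, hkl, hY₁, hdot⟩
  refine ends_bind (ends_pop _ hle ?_)
  rcases Nat.lt_or_ge k h.length with hlt | hge
  · have e1 : h.drop k = h[k] :: h.drop (k + 1) := List.drop_eq_getElem_cons hlt
    have e2 : t.drop k = t[k] :: t.drop (k + 1) := List.drop_eq_getElem_cons (hlen ▸ hlt)
    have e3 : x.drop k = x[k] :: x.drop (k + 1) := List.drop_eq_getElem_cons (by omega)
    rw [hY₁, e1, e2]
    simp only [List.zipWith_cons_cons, List.head?_cons, List.tail_cons]
    have hle1 : Data.le ⟨D₁.pos, Function.update D₁.st .Y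
        (List.zipWith EG.pr (h.drop (k + 1)) (t.drop (k + 1)))⟩ s := by
      intro j
      by_cases h' : j = .Y
      · subst h'
        have := hle .Y
        rw [hY₁, e1, e2] at this
        simp only [List.zipWith_cons_cons, List.length_cons] at this
        simp only [Function.update_self]
        omega
      · simp only [Function.update_of_ne h']
        exact hle j
    refine ends_bind (ends_move _ hle1 ?_)
    refine ends_bind (ends_read ?_ ?_)
    · exact hle1
    simp only [movePos]
    rw [hk, min_eq_left (by omega), inSym_letter (by omega : k < x.length)]
    refine ends_pure _ hle1 ⟨?_, fun _ h => absurd h (by simp)⟩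
    intro u' hu'
    simp only [Sum.inl.injEq] at hu'
    subst hu'
    refine ⟨⟨hle1, k + 1, rfl, by omega, by simp, ?_⟩, ?_⟩
    · rw [hdot, e1, e3]
      simp [dot]
    · simp
  · have e1 : h.drop k = [] := List.drop_eq_nil_of_le hge
    rw [hY₁, e1]
    simp only [List.zipWith_nil_left, List.head?_nil, List.tail_nil]
    refine ends_pure _ ?_ ⟨fun _ h => absurd h (by simp), fun b hb => ?_⟩
    · intro j
      by_cases h' : j = .Y
      · subst h'; simp
      · simp only [Function.update_of_ne h']
        exact hle j
    · simp only [Sum.inr.injEq] at hb
      subst hb
      rw [hdot, e1]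
      simp [dot]

end ETape

open ETape in
theorem e_tape (hX : StXfer) : StETape := by
  intro G _ x s D hD
  exact ⟨fun i => empty hD i, fun _ => left hD, fun i hi hT hp => skip hX hD i hi hT hp,
    fun h t hp hY hlen hx => fin hD h t hp hY hlen hx⟩

end Pool.Agent.Lib.MP_9dcf40_lc
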