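import Pool.Agent.Lib.MP_9dcf40_lc.Av.SpecM

/-!
# Composition of the averaging machine
-/

namespace Pool.Agent.Lib.MP_9dcf40_lc

namespace ETotal

theorem inSym_letter {A : Type} {x : List A} {p : ℕ} (h : p < x.length) :
    inSym x (p + 1) = .letter x[p] := by
  show (match x[p]? with
    | some a => InSym.letter a
    | none => .right) = _
  rw [List.getElem?_eq_getElem h]

theorem inSym_right {A : Type} (x : List A) : inSym x (x.length + 1) = .right := by
  show (match x[x.length]? with
    | some a => InSym.letter a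
    | none => .right) = _
  rw [List.getElem?_eq_none le_rfl]

theorem len_le {G : Type} {D : Data (EG G) EN} {s n : ℕ} (hD : D.le s)
    (h : D.st .Y = List.zipWith .pr (List.replicate n false) (List.replicate n false)) :
    (D.st .Y).length = n := by
  rw [h, List.length_zipWith, List.length_replicate, min_self]

end ETotal

theorem e_total (hS : StESetup) (hT : StETape) (hSe : StESearch) (hO : StEOdo) : StETotal := by
  intro V _ _ d e e₁ x sp sV hV h1 h2 h3 h4 h5
  set L := (Nat.size x.length + 1) ^ e₁ with hL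
  set m := (Nat.size x.length + 1) ^ (d + 1) with hm
  set k := (Nat.size x.length + 1) ^ e with hk
  have hL1 : 1 ≤ L := Nat.one_le_pow _ _ (Nat.succ_pos _)
  unfold mainE
  refine ends_seq (hS V.G x sp d e e₁ h1 h2 (by omega) h4) ?_
  rintro _ D₁ hD₁ ⟨hp, hTT, hP, hX, hK, hZ, hY⟩
  have hlen := ETotal.len_le hD₁ hY
  refine ends_seq ((hT V.G x sp D₁ hD₁).2.1 (by omega)) ?_
  rintro _ D₂ hD₂ rfl
  refine ends_seq ((hT V.G x sp _ hD₂).2.2.1 .Y (by decide) hTT (Nat.zero_le _)) ?_
  rintro _ D₃ hD₃ rfl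
  refine ends_seq (P := fun _ D' => D' = ⟨movePos x.length .right
    (min (0 + (D₁.st .Y).length) (x.length + 1)), D₁.st⟩) (ends_move .right hD₃ rfl) ?_
  rintro _ D₄ hD₄ rfl
  refine ends_seq (P := fun a D' => a = inSym x (movePos x.length .right
    (min (0 + (D₁.st .Y).length) (x.length + 1))) ∧ D' = ⟨movePos x.length .right
    (min (0 + (D₁.st .Y).length) (x.length + 1)), D₁.st⟩) (ends_read hD₄ ⟨rfl, rfl⟩) ?_
  rintro a D₅ hD₅ ⟨rfl, rfl⟩
  by_cases hn : 6 * L < x.length
  · have hpos : movePos x.length .right (min (0 + (D₁.st .Y).length) (x.length + 1)) =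
        6 * L + 1 := by
      show min (min (0 + (D₁.st .Y).length) (x.length + 1) + 1) (x.length + 1) = 6 * L + 1
      rw [hlen]
      omega
    rw [hpos] at hD₅ ⊢
    rw [ETotal.inSym_letter hn]
    have hE : EInv x m (Nat.size x.length) k (⟨6 * L + 1, D₁.st⟩ : Data (EG V.G) EN) :=
      ⟨hTT, hP, hX, hK, by show 6 * L + 1 ≤ x.length + 1; omega⟩
    have hPre : EPre (List.replicate L DA.zero) (List.replicate (6 * L) false)
        (List.replicate (6 * L) false) (⟨6 * L + 1, D₁.st⟩ : Data (EG V.G) EN) :=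
      ⟨hZ, hY, by rw [List.length_replicate]⟩
    refine ends_seq (hSe V x sp sV m (Nat.size x.length) k L _ _ _ hD₅ hE hPre
      List.length_replicate List.length_replicate hL1 hn (Nat.lt_size_self _) (by omega) hV h5) ?_
    rintro _ D₆ hD₆ ⟨hE₆, z', s', hPre₆⟩
    refine ends_seq ((hT V.G x sp D₆ hD₆).2.1 hE₆.2.2.2.2) ?_
    rintro _ D₇ hD₇ rfl
    have hlF : (EFind V x m k L).length = 6 * L := hO.2.2.1 _ _
    refine ((hT V.G x sp _ hD₇).2.2.2 (EFind V x m k L) s' rfl hPre₆.2.1 hPre₆.2.2
      (by omega)).imp ?_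
    rintro b D₈ - rfl -
    rfl
  · have hpos : movePos x.length .right (min (0 + (D₁.st .Y).length) (x.length + 1)) =
        x.length + 1 := by
      show min (min (0 + (D₁.st .Y).length) (x.length + 1) + 1) (x.length + 1) = x.length + 1
      rw [hlen]
      omega
    rw [hpos] at hD₅ ⊢
    rw [ETotal.inSym_right]
    exact ends_pure false hD₅ fun h => absurd h hn

end Pool.Agent.Lib.MP_9dcf40_lc
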