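import Pool.Agent.Lib.MP_9dcf40_lc.Av.SpecM

/-!
# The number of errors at one length
-/

namespace Pool.Agent.Lib.MP_9dcf40_lc

open Filter

namespace GContr

theorem next_stop {A : Type} (M : TM A) (x : List A) (b : Bool) (c : Cfg M.Q M.G)
    (h : M.out c.q ≠ none) : M.next x b c = c := by
  unfold TM.next
  cases hq : M.out c.q with
  | none => exact absurd hq h
  | some _ => rfl

theorem run_stop {A : Type} (M : TM A) (x : List A) (ch : ℕ → Bool) (t : ℕ)
    (h : M.out (M.run x ch t).q ≠ none) (k : ℕ) : M.run x ch (t + k) = M.run x ch t := by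
  induction k with
  | zero => rfl
  | succ k ih =>
    show M.next x (ch (t + k)) (M.run x ch (t + k)) = _
    rw [ih]
    exact next_stop M x _ _ h

theorem run_det {A : Type} (M : TM A) (hM : M.IsDet) (x : List A) (ch : ℕ → Bool) (t : ℕ) :
    M.run x ch t = M.run x (fun _ => false) t := by
  induction t with
  | zero => rfl
  | succ t ih =>
    show M.next x (ch t) (M.run x ch t) = M.next x false (M.run x (fun _ => false) t)
    rw [ih]
    cases hb : ch t with
    | false => rfl
    | true =>
      unfold TM.next
      rw [hM]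

theorem accepts_iff {A : Type} (M : TM A) (x : List A) (T : ℕ) (hT : M.HaltsIn x T) :
    M.Accepts x ↔ ∃ ch : ℕ → Bool, ∃ t ≤ T, M.out (M.run x ch t).q = some true := by
  constructor
  · rintro ⟨ch, t, ht⟩
    refine ⟨ch, ?_⟩
    rcases le_total t T with h | h
    · exact ⟨t, h, ht⟩
    · refine ⟨T, le_rfl, ?_⟩
      obtain ⟨k, rfl⟩ := Nat.exists_eq_add_of_le h
      rw [run_stop M x ch T (hT ch) k] at ht
      exact ht
  · rintro ⟨ch, t, _, ht⟩
    exact ⟨ch, t, ht⟩

theorem hash_outL (o : Option Bool) : DA.hash ≠ outL o := by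
  rcases o with _ | (_ | _) <;> decide

theorem hash_dirL (d : Dir) : DA.hash ≠ dirL d := by
  cases d <;> decide

theorem hash_numL (n : ℕ) : DA.hash ∉ numL n := by
  unfold numL
  intro h
  rcases List.mem_append.mp h with h | h
  · exact absurd (List.eq_of_mem_replicate h) (by decide)
  · exact absurd (List.mem_singleton.mp h) (by decide)

theorem hash_entry (F : FM DB) (b : Bool) (q : Fin (F.a + 1)) (a : InSym DB) (s : Fin (F.b + 1)) :
    DA.hash ∉ entry F b q a s := by
  unfold entry
  intro h
  rcases List.mem_append.mp h with h | h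
  · rcases List.mem_append.mp h with h | h
    · simp only [List.mem_cons, List.not_mem_nil, or_false] at h
      rcases h with h | h | h
      · exact hash_outL _ h
      · exact hash_dirL _ h
      · exact hash_dirL _ h
    · exact hash_numL _ h
  · exact hash_numL _ h

theorem hash_code (F : FM DB) : DA.hash ∉ code F := by
  unfold code
  intro h
  rcases List.mem_cons.mp h with h | h
  · exact hash_outL _ h
  · unfold table at h
    obtain ⟨q, -, h⟩ := List.mem_flatMap.mp h
    rcases List.mem_append.mp h with h | h
    · unfold blockIn at h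
      obtain ⟨k, -, h⟩ := List.mem_flatMap.mp h
      rcases List.mem_append.mp h with h | h
      · unfold blockSym at h
        obtain ⟨s, -, h⟩ := List.mem_flatMap.mp h
        rcases List.mem_append.mp h with h | h
        · exact hash_entry _ _ _ _ _ h
        · exact absurd (List.mem_singleton.mp h) (by decide)
      · exact absurd (List.mem_singleton.mp h) (by decide)
    · exact absurd (List.mem_singleton.mp h) (by decide)

theorem hash_bitL (w : List Bool) : DA.hash ∉ w.map bitL := by
  intro h
  obtain ⟨b, -, h⟩ := List.mem_map.mp h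
  cases b
  · exact absurd h (by decide)
  · exact absurd h (by decide)

theorem map_bitOf_bitL (w : List Bool) : (w.map bitL).map bitOf = w := by
  rw [List.map_map]
  have : (bitOf ∘ bitL) = id := by
    funext b
    cases b <;> decide
  rw [this, List.map_id]

/-- the words which start with a given prefix of fields -/
def xr (F : FM DB) (w a : List Bool) (m : ℕ) (r : List DA) : List DA :=
  instX F w (a.map bitL ++ .hash :: (List.replicate m .one ++ .hash :: r))

theorem xr_inj (F : FM DB) (w a : List Bool) (m : ℕ) : Function.Injective (xr F w a m) := by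
  intro r r' h
  unfold xr instX at h
  simp only [List.append_cancel_left_eq, List.cons.injEq, true_and] at h
  exact h

/-- counting -/
theorem count (n j : ℕ) (f : List DA → List DA) (hf : Function.Injective f) (P : List DA → Prop)
    (h : ∀ r, r.length = j → (f r).length = n ∧ P (f r)) :
    8 ^ j ≤ {x : List DA | x.length = n ∧ P x}.ncard := by
  have h1 : Function.Injective (fun g : Fin j → DA => f (List.ofFn g)) :=
    hf.comp List.ofFn_injective
  have h2 : (Set.range fun g : Fin j → DA => f (List.ofFn g)).ncard = 8 ^ j := by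
    rw [← Set.image_univ, Set.ncard_image_of_injective _ h1, Set.ncard_univ, Nat.card_fun,
      Nat.card_eq_fintype_card, Nat.card_eq_fintype_card, Fintype.card_fin]
    rfl
  rw [← h2]
  refine Set.ncard_le_ncard ?_ ((List.finite_length_eq DA n).subset fun x hx => hx.1)
  rintro _ ⟨g, rfl⟩
  exact h _ (List.length_ofFn ..)

end GContr

open GContr in
theorem g_contr (hD : StDiag) (hN : StNorm) (hU : StUCorr) : StGContr := by
  intro nd B v d hB hKB
  obtain ⟨V, hVdet, ⟨k, hVspace⟩, hVacc⟩ := hB
  obtain ⟨D, hDin, hDn⟩ := hD V k d hVdet hVspace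
  refine ⟨D, hDin, fun M hM => ?_⟩
  obtain ⟨F, hF⟩ := hN DB M
  refine ⟨(code F).length + 4, ?_⟩
  filter_upwards [hDn] with n hn
  intro w m hm hlen hhalt
  set a : List Bool := v (n + 2 ^ m) with ha
  refine count n _ (xr F w a m) (xr_inj F w a m) (fun x => ¬ (x ∈ D ↔ M.Accepts (pairL x w))) ?_
  intro r hr
  set j : ℕ := n - ((code F).length + 4 + w.length + a.length + m) with hj
  set rest : List DA := a.map bitL ++ .hash :: (List.replicate m .one ++ .hash :: r) with hrest
  have hxr : xr F w a m r = instX F w rest := rfl
  rw [hxr]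
  set x : List DA := instX F w rest with hx
  have hxl : x.length = n := by
    rw [hx, instX, hrest]
    simp only [List.length_append, List.length_cons, List.length_map, List.length_replicate]
    omega
  have hform : DForm x (code F) (w.map bitL) (a.map bitL) m r :=
    ⟨rfl, hash_code F, hash_bitL w, hash_bitL a⟩
  have h1 := hn x hxl _ _ _ _ _ hform hm
  have hvw : vword x m (a.map bitL) = pairL (padL x (2 ^ m)) a := by
    rw [vword, map_bitOf_bitL]
  have hpl : (padL x (2 ^ m)).length = n + 2 ^ m := by
    rw [padL]
    simp only [List.length_append, List.length_map, List.length_replicate, hxl]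
  rw [hvw, ← hVacc] at h1
  have h2 := hKB (padL x (2 ^ m))
  rw [hpl, ← ha] at h2
  rw [← h2] at h1
  refine ⟨hxl, ?_⟩
  have h3 : padL x (2 ^ m) ∈ KU nd ↔ M.Accepts (pairL x w) := by
    have hacc := accepts_iff M (pairL x w) (2 ^ m) (hhalt x hxl)
    cases nd with
    | true =>
      have e : (padL x (2 ^ m) ∈ KU true) = ∃ c, uEval (padL x (2 ^ m)) c = true := rfl
      rw [e, hacc]
      constructor
      · rintro ⟨c, hc⟩
        rw [hx, hU F w rest (2 ^ m) c, ← hx] at hc
        obtain ⟨t, ht, ho⟩ := hc
        rw [hF] at ho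
        exact ⟨c, t, ht, ho⟩
      · rintro ⟨c, t, ht, ho⟩
        refine ⟨c, ?_⟩
        rw [hx, hU F w rest (2 ^ m) c, ← hx]
        refine ⟨t, ht, ?_⟩
        rw [hF]
        exact ho
    | false =>
      have e : (padL x (2 ^ m) ∈ KU false) = (uEval (padL x (2 ^ m)) (fun _ => false) = true) := rfl
      rw [e, hacc]
      constructor
      · intro hc
        rw [hx, hU F w rest (2 ^ m) _, ← hx] at hc
        obtain ⟨t, ht, ho⟩ := hc
        rw [hF] at ho
        exact ⟨_, t, ht, ho⟩
      · rintro ⟨c, t, ht, ho⟩
        rw [hx, hU F w rest (2 ^ m) _, ← hx]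
        refine ⟨t, ht, ?_⟩
        rw [hF]
        rw [run_det M (hM rfl)] at ho
        exact ho
  rw [h1, h3]
  tauto

end Pool.Agent.Lib.MP_9dcf40_lc
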