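import Pool.Agent.Lib.MP_9dcf40_lc.Av.SpecM

/-!
# Fourth main statement
-/

set_option autoImplicit false

namespace Pool.Agent.Lib.MP_9dcf40_lc

open Filter

namespace GMain

theorem halts_mono {A : Type} (M : TM A) (z : List A) {T T' : ℕ} (h : M.HaltsIn z T)
    (hT : T ≤ T') : M.HaltsIn z T' := by
  intro ch
  induction T', hT using Nat.le_induction with
  | base => exact h ch
  | succ t _ ih =>
    have h1 : M.run z ch (t + 1) = M.next z (ch t) (M.run z ch t) := rfl
    rw [h1]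
    rcases ho : M.out (M.run z ch t).q with _ | b
    · exact absurd ho ih
    · have h2 : M.next z (ch t) (M.run z ch t) = M.run z ch t := by
        unfold TM.next
        rw [ho]
      rw [h2, ho]
      exact Option.some_ne_none b

theorem length_pairL {α : Type} (x : List α) (w : List Bool) :
    (pairL x w).length = x.length + w.length := by
  simp [pairL]

theorem card_DA : Nat.card DA = 8 := by
  rw [Nat.card_eq_fintype_card]
  rfl

/-- the common part of the two claims -/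
theorem main (hC : StGContr) (hN : StGNum) (nd : Bool) (d : ℕ) (hd : 1 ≤ d)
    (hK : Adv InPolyL (Small d) (Option DA) (KU nd)) :
    ∃ D : Set (List DA), InPolyL DA D ∧
      ∀ (M : TM DB) (k : ℕ) (h : ℕ → List Bool) (δ : ℝ), (nd = false → M.IsDet) →
        (∀ x, M.HaltsIn x (2 ^ (k * (Nat.log 2 x.length + 1) ^ d))) → 0 < δ →
        (∀ᶠ n : ℕ in atTop, ((h n).length : ℝ) ≤ (n : ℝ) - (n : ℝ) ^ δ) →
        ¬ ∃ᶠ n : ℕ in atTop,
          ({x : List DA | x.length = n ∧
            ¬ (x ∈ D ↔ M.Accepts (pairL x (h x.length)))}.ncard : ℝ) <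
            (Nat.card DA : ℝ) ^ ((n : ℝ) - (h n).length - (n : ℝ) ^ δ) := by
  obtain ⟨B, v, hB, hv, hiff⟩ := hK
  obtain ⟨D, hD, hM⟩ := hC nd B v (d + 1) hB hiff
  refine ⟨D, hD, fun M k h δ hdet hk hδ hal hfreq => ?_⟩
  obtain ⟨C₀, hC₀⟩ := hM M hdet
  have hN' := hN C₀ k d (fun n => (v n).length) (fun n => (h n).length) δ hd hv hδ hal
  obtain ⟨n, hn1, ⟨hn2, m, hm, hm1, hm2⟩, hn3⟩ :=
    (hfreq.and_eventually ((hC₀.and hN').and hal)).exists
  have h1 : C₀ + (h n).length + (v (n + 2 ^ m)).length + m ≤ n := by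
    have h2 : ((C₀ + (h n).length + (v (n + 2 ^ m)).length + m : ℕ) : ℝ) ≤ (n : ℝ) := by
      push_cast at hm1 ⊢
      linarith
    exact_mod_cast h2
  have h2 := hn2 (h n) m hm h1 (fun x hx => by
    refine halts_mono M _ (hk _) ?_
    rw [length_pairL, hx]
    exact hm2)
  have h3 : {x : List DA | x.length = n ∧ ¬ (x ∈ D ↔ M.Accepts (pairL x (h n)))} =
      {x : List DA | x.length = n ∧ ¬ (x ∈ D ↔ M.Accepts (pairL x (h x.length)))} := by
    ext x
    constructor
    · rintro ⟨hx, hx'⟩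
      exact ⟨hx, by rw [hx]; exact hx'⟩
    · rintro ⟨hx, hx'⟩
      exact ⟨hx, by rw [hx] at hx'; exact hx'⟩
  rw [h3] at h2
  refine absurd hn1 (not_lt.2 ?_)
  have h4 : ((8 ^ (n - (C₀ + (h n).length + (v (n + 2 ^ m)).length + m)) : ℕ) : ℝ) ≤
      ({x : List DA | x.length = n ∧
        ¬ (x ∈ D ↔ M.Accepts (pairL x (h x.length)))}.ncard : ℝ) := by
    exact_mod_cast h2
  refine le_trans ?_ h4
  rw [card_DA]
  push_cast
  rw [← Real.rpow_natCast]
  refine Real.rpow_le_rpow_of_exponent_le (by norm_num) ?_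
  rw [Nat.cast_sub h1]
  push_cast at hm1 ⊢
  linarith

end GMain

open GMain in
theorem g_main (hC : StGContr) (hN : StGNum) (hD : StKD) (hK : StKN) : StGMain := by
  intro d hd
  constructor
  · intro hI
    have h1 : Adv InPolyL (Small d) (Option DA) (KU false) := hI (Option DA) KD hD
    obtain ⟨D, hD1, hD2⟩ := main hC hN false d hd h1
    refine ⟨D, hD1, ?_⟩
    rintro ⟨B', h, δ, ⟨M, hdet, ⟨k, hk⟩, hacc⟩, hδ, hal, hfreq⟩
    refine hD2 M k h δ (fun _ => hdet) hk hδ hal (hfreq.mono fun n hn => ?_)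
    have e : {x : List DA | x.length = n ∧ ¬ (x ∈ D ↔ M.Accepts (pairL x (h x.length)))} =
        {x : List DA | x.length = n ∧
          ¬ (x ∈ D ↔ x.map Sum.inl ++ (h x.length).map Sum.inr ∈ B')} := by
      ext x
      simp only [Set.mem_ofPred_eq, hacc]
      rfl
    rw [e]
    exact hn
  · intro hI
    have h1 : Adv InPolyL (Small d) (Option DA) (KU true) := hI (Option DA) KN hK
    obtain ⟨D, hD1, hD2⟩ := main hC hN true d hd h1
    refine ⟨D, hD1, ?_⟩
    rintro ⟨B', h, δ, ⟨M, ⟨k, hk⟩, hacc⟩, hδ, hal, hfreq⟩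
    refine hD2 M k h δ (fun hh => absurd hh (by simp)) hk hδ hal (hfreq.mono fun n hn => ?_)
    have e : {x : List DA | x.length = n ∧ ¬ (x ∈ D ↔ M.Accepts (pairL x (h x.length)))} =
        {x : List DA | x.length = n ∧
          ¬ (x ∈ D ↔ x.map Sum.inl ++ (h x.length).map Sum.inr ∈ B')} := by
      ext x
      simp only [Set.mem_ofPred_eq, hacc]
      rfl
    rw [e]
    exact hn

end Pool.Agent.Lib.MP_9dcf40_lc
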