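import Pool.Agent.Lib.MP_9dcf40_lc.Av.SpecM
import Pool.Agent.Lib.MP_9dcf40_lc.FNumQ

/-!
# Numbers for the advice theorem
-/

set_option autoImplicit false

open Filter

namespace Pool.Agent.Lib.MP_9dcf40_lc

namespace GNum

/-- `Nat.size n + 1 ≤ 2 log₂ n`. -/
theorem size_le_logb {n : ℕ} (hn : 4 ≤ n) :
    ((Nat.size n + 1 : ℕ) : ℝ) ≤ 2 * Real.logb 2 n := by
  have hs : Nat.size n = Nat.log 2 n + 1 := by
    apply le_antisymm
    · rw [Nat.size_le]
      exact Nat.lt_pow_succ_log_self (by norm_num) n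
    · rw [Nat.succ_le_iff, Nat.lt_size]
      exact Nat.pow_log_le_self 2 (by omega)
  have hn0 : (0 : ℝ) < n := by
    have : 0 < n := by omega
    exact_mod_cast this
  have h1 : (Nat.log 2 n : ℝ) ≤ Real.logb 2 n := by
    rw [Real.le_logb_iff_rpow_le (by norm_num) hn0, Real.rpow_natCast]
    exact_mod_cast Nat.pow_log_le_self 2 (by omega)
  have h2 : (2 : ℝ) ≤ Real.logb 2 n := by
    rw [Real.le_logb_iff_rpow_le (by norm_num) hn0]
    have : (4 : ℝ) ≤ n := by exact_mod_cast hn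
    calc (2 : ℝ) ^ (2 : ℝ) = 4 := by norm_num
      _ ≤ n := this
  rw [hs]
  push_cast
  linarith

theorem size_large (K : ℕ) : ∀ᶠ n : ℕ in atTop, K ≤ Nat.size n := by
  filter_upwards [eventually_ge_atTop (2 ^ K)] with n hn
  exact (Nat.lt_size.2 hn).le

end GNum

open GNum in
theorem g_num : StGNum := by
  intro C₀ k d a b δ hd ha hδ hb
  set ε : ℝ := δ / (4 * ((k : ℝ) + 1)) with hε
  have hk1 : (0 : ℝ) < (k : ℝ) + 1 := by positivity
  have hεpos : 0 < ε := by positivity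
  obtain ⟨N₀, hN₀⟩ := eventually_atTop.1 (ha ε hεpos)
  have hx : Tendsto (fun n : ℕ => (n : ℝ) ^ (δ / 2)) atTop atTop :=
    (tendsto_rpow_atTop (half_pos hδ)).comp tendsto_natCast_atTop_atTop
  filter_upwards [hb, FNumQAux.poly_size_le k d (half_pos hδ),
    hx.eventually (eventually_ge_atTop (3 : ℝ)),
    hx.eventually (eventually_ge_atTop (C₀ : ℝ)), eventually_ge_atTop 4,
    eventually_ge_atTop N₀, size_large (k + 1)] with n hbn hm h3 hC h4 hN hk
  have hn0 : (0 : ℝ) < n := by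
    have : 0 < n := by omega
    exact_mod_cast this
  have hbn' : b n ≤ n := by
    have h5 : (0 : ℝ) ≤ (n : ℝ) ^ δ := Real.rpow_nonneg hn0.le _
    have h6 : (b n : ℝ) ≤ (n : ℝ) := by linarith
    exact_mod_cast h6
  set s := Nat.size n + 1 with hs
  have hs1 : 1 ≤ s := by omega
  have hlt : n < 2 ^ Nat.size n := Nat.lt_size_self n
  have hlog : Nat.log 2 (n + b n) + 1 ≤ s := by
    have h1 : Nat.log 2 (n + b n) < Nat.size n + 1 := by
      apply Nat.log_lt_of_lt_pow (by omega)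
      calc n + b n ≤ 2 * n := by omega
        _ < 2 * 2 ^ Nat.size n := by omega
        _ = 2 ^ (Nat.size n + 1) := by ring
    omega
  set m := k * (Nat.log 2 (n + b n) + 1) ^ d with hmdef
  have hmk : m ≤ k * s ^ d := Nat.mul_le_mul_left k (Nat.pow_le_pow_left hlog d)
  refine ⟨m, ?_, ?_, le_refl _⟩
  · calc m ≤ k * s ^ d := hmk
      _ ≤ s * s ^ d := Nat.mul_le_mul_right _ (by omega)
      _ = s ^ (d + 1) := by ring
  · -- the length of the advice
    have hNle : n + 2 ^ m ≤ 2 ^ ((k + 1) * s ^ d) := by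
      have hsd : s ≤ s ^ d := Nat.le_self_pow (by omega) s
      have e0 : (k + 1) * s ^ d = k * s ^ d + s ^ d := by ring
      have e1 : 2 ^ Nat.size n ≤ 2 ^ (k * s ^ d + Nat.size n) :=
        Nat.pow_le_pow_right (by norm_num) (by omega)
      have e2 : 2 ^ m ≤ 2 ^ (k * s ^ d + Nat.size n) :=
        Nat.pow_le_pow_right (by norm_num) (by omega)
      calc n + 2 ^ m ≤ 2 ^ (k * s ^ d + Nat.size n) + 2 ^ (k * s ^ d + Nat.size n) := by omega
        _ = 2 ^ (k * s ^ d + Nat.size n + 1) := by ring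
        _ ≤ 2 ^ (k * s ^ d + s ^ d) := Nat.pow_le_pow_right (by norm_num) (by omega)
        _ = 2 ^ ((k + 1) * s ^ d) := by rw [e0]
    have hlb : Real.logb 2 ((n + 2 ^ m : ℕ) : ℝ) ≤ ((k : ℝ) + 1) * (s : ℝ) ^ d := by
      have h5 : (0 : ℝ) < ((n + 2 ^ m : ℕ) : ℝ) := by positivity
      rw [Real.logb_le_iff_le_rpow (by norm_num) h5]
      have h6 : ((k : ℝ) + 1) * (s : ℝ) ^ d = (((k + 1) * s ^ d : ℕ) : ℝ) := by push_cast; ring
      rw [h6, Real.rpow_natCast]
      exact_mod_cast hNle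
    have hlb0 : 0 ≤ Real.logb 2 ((n + 2 ^ m : ℕ) : ℝ) := by
      apply Real.logb_nonneg (by norm_num)
      have : 1 ≤ n + 2 ^ m := le_trans (by omega : 1 ≤ n) (Nat.le_add_right _ _)
      exact_mod_cast this
    have hd0 : (0 : ℝ) < d := by
      have : 0 < d := by omega
      exact_mod_cast this
    have hroot : Real.logb 2 ((n + 2 ^ m : ℕ) : ℝ) ^ ((1 : ℝ) / d) ≤ ((k : ℝ) + 1) * s := by
      have h5 : (0 : ℝ) ≤ ((k : ℝ) + 1) * s := by positivity
      have h6 : ((k : ℝ) + 1) * (s : ℝ) ^ d ≤ (((k : ℝ) + 1) * s) ^ d := by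
        rw [mul_pow]
        apply mul_le_mul_of_nonneg_right _ (by positivity)
        have h7 : (1 : ℝ) ≤ (k : ℝ) + 1 := by
          have : (0 : ℝ) ≤ k := Nat.cast_nonneg k
          linarith
        exact le_self_pow₀ h7 (by omega)
      calc Real.logb 2 ((n + 2 ^ m : ℕ) : ℝ) ^ ((1 : ℝ) / d)
          ≤ ((((k : ℝ) + 1) * s) ^ d) ^ ((1 : ℝ) / d) :=
            Real.rpow_le_rpow hlb0 (hlb.trans h6) (by positivity)
        _ = ((k : ℝ) + 1) * s := by
            rw [← Real.rpow_natCast, ← Real.rpow_mul h5, mul_one_div_cancel hd0.ne',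
              Real.rpow_one]
    have haN : (a (n + 2 ^ m) : ℝ) ≤ (n : ℝ) ^ (δ / 2) := by
      refine (hN₀ _ (le_trans hN (Nat.le_add_right _ _))).trans ?_
      have h5 : ε * Real.logb 2 ((n + 2 ^ m : ℕ) : ℝ) ^ ((1 : ℝ) / d) ≤
          Real.logb 2 n * (δ / 2) := by
        calc ε * Real.logb 2 ((n + 2 ^ m : ℕ) : ℝ) ^ ((1 : ℝ) / d)
            ≤ ε * (((k : ℝ) + 1) * s) := mul_le_mul_of_nonneg_left hroot hεpos.le
          _ ≤ ε * (((k : ℝ) + 1) * (2 * Real.logb 2 n)) := by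
              apply mul_le_mul_of_nonneg_left _ hεpos.le
              exact mul_le_mul_of_nonneg_left (size_le_logb h4) hk1.le
          _ = Real.logb 2 n * (δ / 2) := by
              rw [hε]
              field_simp
              ring
      calc (2 : ℝ) ^ (ε * Real.logb 2 ((n + 2 ^ m : ℕ) : ℝ) ^ ((1 : ℝ) / d))
          ≤ 2 ^ (Real.logb 2 n * (δ / 2)) :=
            Real.rpow_le_rpow_of_exponent_le (by norm_num) h5
        _ = (n : ℝ) ^ (δ / 2) := by
            rw [Real.rpow_mul (by norm_num), Real.rpow_logb (by norm_num) (by norm_num) hn0]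
    have hm' : (m : ℝ) ≤ (n : ℝ) ^ (δ / 2) := le_trans (by exact_mod_cast hmk) hm
    have hsq : (n : ℝ) ^ δ = (n : ℝ) ^ (δ / 2) * (n : ℝ) ^ (δ / 2) := by
      rw [← Real.rpow_add hn0]
      congr 1
      ring
    have h6 : 3 * (n : ℝ) ^ (δ / 2) ≤ (n : ℝ) ^ δ := by
      rw [hsq]
      apply mul_le_mul_of_nonneg_right h3
      linarith
    push_cast
    linarith

end Pool.Agent.Lib.MP_9dcf40_lc
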