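import Pool.Agent.Lib.MP_9dcf40_lc.Final
import Pool.Agent.Lib.MP_9dcf40_lc.Av.EAdv
import Pool.Agent.Lib.MP_9dcf40_lc.Av.EAgree
import Pool.Agent.Lib.MP_9dcf40_lc.Av.EContr
import Pool.Agent.Lib.MP_9dcf40_lc.Av.ECopy
import Pool.Agent.Lib.MP_9dcf40_lc.Av.ECount
import Pool.Agent.Lib.MP_9dcf40_lc.Av.EDiag
import Pool.Agent.Lib.MP_9dcf40_lc.Av.EFind
import Pool.Agent.Lib.MP_9dcf40_lc.Av.EGood
import Pool.Agent.Lib.MP_9dcf40_lc.Av.EHead
import Pool.Agent.Lib.MP_9dcf40_lc.Av.EList
import Pool.Agent.Lib.MP_9dcf40_lc.Av.ELoad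
import Pool.Agent.Lib.MP_9dcf40_lc.Av.EMain
import Pool.Agent.Lib.MP_9dcf40_lc.Av.ENumD
import Pool.Agent.Lib.MP_9dcf40_lc.Av.ENumQ
import Pool.Agent.Lib.MP_9dcf40_lc.Av.EOdo
import Pool.Agent.Lib.MP_9dcf40_lc.Av.EPars
import Pool.Agent.Lib.MP_9dcf40_lc.Av.EPow
import Pool.Agent.Lib.MP_9dcf40_lc.Av.ERules
import Pool.Agent.Lib.MP_9dcf40_lc.Av.EScan
import Pool.Agent.Lib.MP_9dcf40_lc.Av.ESearch
import Pool.Agent.Lib.MP_9dcf40_lc.Av.ESetup
import Pool.Agent.Lib.MP_9dcf40_lc.Av.ESim
import Pool.Agent.Lib.MP_9dcf40_lc.Av.ESize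
import Pool.Agent.Lib.MP_9dcf40_lc.Av.ESk
import Pool.Agent.Lib.MP_9dcf40_lc.Av.EStep
import Pool.Agent.Lib.MP_9dcf40_lc.Av.ETape
import Pool.Agent.Lib.MP_9dcf40_lc.Av.ETotal
import Pool.Agent.Lib.MP_9dcf40_lc.Av.GContr
import Pool.Agent.Lib.MP_9dcf40_lc.Av.GMain
import Pool.Agent.Lib.MP_9dcf40_lc.Av.GNum

/-!
# Assembly of the average case and of the general advice theorem
-/

namespace Pool.Agent.Lib.MP_9dcf40_lc

theorem all_eodo : StEOdo := e_odo d_count
theorem all_escan : StEScan := e_scan u_xfer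
theorem all_ecopy : StECopy := e_copy u_xfer
theorem all_etape : StETape := e_tape u_xfer
theorem all_erules : StERules := e_rules all_escan all_ecopy e_list
theorem all_esize : StESize := e_size all_escan e_list d_count
theorem all_epow : StEPow := e_pow u_xfer all_erules
theorem all_esetup : StESetup := e_setup all_esize all_epow all_erules all_etape d_count
theorem all_eload : StELoad := e_load all_erules all_ecopy e_list all_etape e_adv
theorem all_ehead : StEHead := e_head all_erules d_count e_adv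
theorem all_esim : StESim := e_sim (e_step all_ehead) all_erules d_zip d_count e_adv
theorem all_eagree : StEAgree := e_agree all_eload all_esim all_escan e_list all_erules
theorem all_ecount : StECount :=
  e_count all_eagree all_erules all_etape all_escan e_list d_count all_eodo
theorem all_egood : StEGood := e_good all_ecount all_erules all_escan e_list all_eodo
theorem all_esearch : StESearch := e_search all_egood all_escan e_list all_eodo
theorem all_etotal : StETotal := e_total all_esetup all_etape all_esearch all_eodo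
theorem all_efind : StEFind := e_find e_pars all_eodo
theorem all_ediag : StEDiag := e_diag all_comp_d all_etotal all_efind f_clock e_numd e_adv
theorem all_econtr : StEContr := e_contr all_ediag e_sk u_norm all_ucorr e_adv
theorem all_emain : StEMain := e_main all_econtr e_numq all_kd all_kn
theorem all_gmain : StGMain := g_main (g_contr all_diag u_norm all_ucorr) g_num all_kd all_kn

end Pool.Agent.Lib.MP_9dcf40_lc
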