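import Pool.Agent.Lib.MP_9dcf40_lc.SpecD

/-!
# Total correctness of routines

`Ends x R s D Q`: the routine `R`, started with data `D`, stops (with all stacks of length at most
`s` all the time, without using choices) with a result and data which satisfy `Q`.
-/

namespace Pool.Agent.Lib.MP_9dcf40_lc

variable {A Γ ι β γ τ : Type}

/-- Only the stacks in the list `M` may have changed. -/
def Fr (M : List ι) (D D' : Data Γ ι) : Prop := ∀ j, j ∉ M → D'.st j = D.st j

theorem Fr.refl (M : List ι) (D : Data Γ ι) : Fr M D D := fun _ _ => rfl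

theorem Fr.trans {M : List ι} {D D₁ D₂ : Data Γ ι} (h : Fr M D D₁) (h' : Fr M D₁ D₂) :
    Fr M D D₂ := fun j hj => (h' j hj).trans (h j hj)

theorem Fr.mono {M M' : List ι} {D D' : Data Γ ι} (h : Fr M D D') (hM : ∀ j ∈ M, j ∈ M') :
    Fr M' D D' := fun j hj => h j fun hj' => hj (hM j hj')

variable [DecidableEq ι]

/-- Total correctness with the space bound `s`. -/
def Ends (x : List A) (R : Rout A Γ ι β) (s : ℕ) (D : Data Γ ι)
    (Q : β → Data Γ ι → Prop) : Prop :=
  ∀ c : Str, ∃ (T : ℕ) (b : β) (D' : Data Γ ι), Runs x R s T D c b D' c ∧ Q b D'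

variable {x : List A} {s s' : ℕ} {D : Data Γ ι} {Q Q' : β → Data Γ ι → Prop}

theorem Ends.start_le {R : Rout A Γ ι β} (h : Ends x R s D Q) : D.le s := by
  obtain ⟨T, b, D', h, _⟩ := h fun _ => false
  exact h.le_start

/-- Consequence rule; in the new post-condition one may use that the final data satisfy the space
bound. -/
theorem Ends.imp {R : Rout A Γ ι β} (h : Ends x R s D Q)
    (hQ : ∀ b D', D'.le s → Q b D' → Q' b D') : Ends x R s D Q' := by
  intro c
  obtain ⟨T, b, D', h, hq⟩ := h c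
  exact ⟨T, b, D', h, hQ b D' h.le_end hq⟩

theorem Ends.mono {R : Rout A Γ ι β} (h : Ends x R s D Q) (hs : s ≤ s') : Ends x R s' D Q := by
  intro c
  obtain ⟨T, b, D', h, hq⟩ := h c
  exact ⟨T, b, D', h.mono hs le_rfl, hq⟩

theorem Ends.and {R : Rout A Γ ι β} (h : Ends x R s D Q) (h' : Ends x R s D Q') :
    Ends x R s D fun b D' => Q b D' ∧ Q' b D' := by
  intro c
  obtain ⟨T, b, D', h, hq⟩ := h c
  obtain ⟨T₁, b₁, D₁, h₁, hq₁⟩ := h' c
  obtain ⟨rfl, rfl, _⟩ := h.det h₁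
  exact ⟨T, b, D', h, hq, hq₁⟩

theorem ends_pure (b : β) (hD : D.le s) (hQ : Q b D) : Ends x (Rout.pureR b) s D Q :=
  fun _ => ⟨0, b, D, runs_pure b hD, hQ⟩

theorem ends_bind [Finite β] {p : Rout A Γ ι β} {f : β → Rout A Γ ι γ}
    {Q : γ → Data Γ ι → Prop}
    (h : Ends x p s D fun b D' => Ends x (f b) s D' Q) : Ends x (p.bind f) s D Q := by
  intro c
  obtain ⟨T, b, D', h, hq⟩ := h c
  obtain ⟨T₁, b₁, D₁, h₁, hq₁⟩ := hq c
  exact ⟨T + T₁, b₁, D₁, runs_bind h h₁, hq₁⟩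

/-- Sequence rule: first `p`, whose post-condition is `P`, then `f b`. -/
theorem ends_seq [Finite β] {p : Rout A Γ ι β} {f : β → Rout A Γ ι γ}
    {P : β → Data Γ ι → Prop} {Q : γ → Data Γ ι → Prop} (h : Ends x p s D P)
    (h' : ∀ b D', D'.le s → P b D' → Ends x (f b) s D' Q) : Ends x (p.bind f) s D Q :=
  ends_bind (h.imp h')

theorem ends_push (i : ι) (a : Γ) (hD : D.le s) (h : (D.st i).length + 1 ≤ s)
    {Q : Unit → Data Γ ι → Prop}
    (hQ : Q () ⟨D.pos, Function.update D.st i (a :: D.st i)⟩) :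
    Ends x (Rout.push i a) s D Q := fun _ => ⟨1, (), _, runs_push i a hD h, hQ⟩

theorem ends_pop (i : ι) (hD : D.le s) {Q : Option Γ → Data Γ ι → Prop}
    (hQ : Q (D.st i).head? ⟨D.pos, Function.update D.st i (D.st i).tail⟩) :
    Ends x (Rout.pop i) s D Q := fun _ => ⟨1, _, _, runs_pop i hD, hQ⟩

theorem ends_read (hD : D.le s) {Q : InSym A → Data Γ ι → Prop} (hQ : Q (inSym x D.pos) D) :
    Ends x Rout.read s D Q := fun _ => ⟨1, _, _, runs_read hD, hQ⟩

theorem ends_move (dir : Dir) (hD : D.le s) {Q : Unit → Data Γ ι → Prop}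
    (hQ : Q () ⟨movePos x.length dir D.pos, D.st⟩) :
    Ends x (Rout.move dir) s D Q := fun _ => ⟨1, _, _, runs_move dir hD, hQ⟩

/-- Loop rule: invariant `I` (depending on the loop state) and measure `μ`. -/
theorem ends_iter [Finite τ] {body : τ → Rout A Γ ι (τ ⊕ β)} (I : τ → Data Γ ι → Prop)
    (μ : τ → Data Γ ι → ℕ)
    (h : ∀ t D, I t D → Ends x (body t) s D fun r D' =>
      (∀ t', r = .inl t' → I t' D' ∧ μ t' D' < μ t D) ∧ ∀ b, r = .inr b → Q b D')
    {t₀ : τ} (h₀ : I t₀ D) : Ends x (Rout.iter body t₀) s D Q := by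
  intro c
  suffices H : ∀ n t D, μ t D ≤ n → I t D → ∃ (T : ℕ) (b : β) (D' : Data Γ ι),
      Runs x (Rout.iter body t) s T D c b D' c ∧ Q b D' from H _ t₀ D le_rfl h₀
  intro n
  induction n with
  | zero =>
    intro t D hμ hI
    obtain ⟨T, r, D', hr, h1, h2⟩ := h t D hI c
    rcases r with t' | b
    · obtain ⟨_, h3⟩ := h1 t' rfl
      omega
    · exact ⟨_, b, D', runs_iter_done hr, h2 b rfl⟩
  | succ n ih =>
    intro t D hμ hI
    obtain ⟨T, r, D', hr, h1, h2⟩ := h t D hI c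
    rcases r with t' | b
    · obtain ⟨hI', h3⟩ := h1 t' rfl
      obtain ⟨T', b, D'', hr', hq⟩ := ih t' D' (by omega) hI'
      exact ⟨_, b, D'', runs_iter_step hr hr', hq⟩
    · exact ⟨_, b, D', runs_iter_done hr, h2 b rfl⟩

end Pool.Agent.Lib.MP_9dcf40_lc
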