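import Pool.Agent.Lib.MP_9dcf40_lc.Av.SpecS

/-!
# Two more rules for total correctness
-/

namespace Pool.Agent.Lib.MP_9dcf40_lc

open Rout

section

variable {A Γ ι : Type} [DecidableEq ι] {x : List A} {s : ℕ} {D : Data Γ ι}

theorem xfer_all (l acc : List Γ) : xfer (fun _ => false) l acc = ([], l.reverse ++ acc) := by
  induction l generalizing acc with
  | nil => rfl
  | cons a l ih => simp [xfer, ih]

/-- Transfer of a whole stack. -/
theorem ends_xfer [Finite Γ] (hX : StXfer) (i j : ι) (hij : i ≠ j) (hD : D.le s)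
    (h : (D.st i).length + (D.st j).length ≤ s) {Q : Unit → Data Γ ι → Prop}
    (hQ : Q () ⟨D.pos, Function.update (Function.update D.st i []) j
      ((D.st i).reverse ++ D.st j)⟩) :
    Ends x (xferR (fun _ => false) i j) s D Q := by
  intro c
  have h1 := hX A Γ ι (fun _ => false) i j hij x s D c hD h
  rw [xfer_all] at h1
  exact ⟨_, _, _, h1, hQ⟩

end

/-- The loop `loopE`: invariant `I`, measure `μ`. -/
theorem ends_loop {G : Type} [Finite G] {x : List Bool} {s : ℕ} {D : Data (EG G) EN}
    {body : ER G (Option Bool)} {inc : ER G Bool} {b₀ : Bool}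
    {Q : Bool → Data (EG G) EN → Prop} (I : Data (EG G) EN → Prop) (μ : Data (EG G) EN → ℕ)
    (h : ∀ D, I D → Ends x body s D fun r D' => (∀ b, r = some b → Q b D') ∧
      (r = none → Ends x inc s D' fun o D'' => (o = true → Q b₀ D'') ∧
        (o = false → I D'' ∧ μ D'' < μ D)))
    (h₀ : I D) : Ends x (loopE body inc b₀) s D Q := by
  unfold loopE
  refine ends_iter (fun _ => I) (fun _ => μ) ?_ h₀
  intro _ D hI
  refine ends_seq (h D hI) fun r D' hD' hr => ?_
  rcases r with _ | b
  · refine ends_seq (hr.2 rfl) fun o D'' hD'' ho => ?_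
    refine ends_pure _ hD'' ?_
    cases o with
    | true =>
      refine ⟨fun t' ht => absurd ht (by simp), fun b hb => ?_⟩
      simp only [if_true, Sum.inr.injEq] at hb
      subst hb
      exact ho.1 rfl
    | false =>
      refine ⟨fun t' _ => ho.2 rfl, fun b hb => absurd hb (by simp)⟩
  · refine ends_pure _ hD' ⟨fun t' ht => absurd ht (by simp), fun b' hb => ?_⟩
    simp only [Sum.inr.injEq] at hb
    subst hb
    exact hr.1 _ rfl

end Pool.Agent.Lib.MP_9dcf40_lc
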