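import Pool.Agent.Lib.MP_9dcf40_lc.Av.Hoare
import Pool.Agent.Lib.MP_9dcf40_lc.SpecF

/-!
# The averaging machine: definitions and statements

For a deterministic machine `V` with input alphabet `Option DA ⊕ Bool` and numbers `d`, `e`, `e₁`,
the averaging machine works on words `x` over `Bool`. Let `n = |x|`, `λ = size n`,
`ℓ = (λ + 1) ^ e₁`, `m = (λ + 1) ^ (d + 1)`, `κ = (λ + 1) ^ e`, and `x = s ++ r` with `|s| = 6 ℓ`. The
machine looks for the first word `h` of length `6 ℓ` such that for all words `z` of length `ℓ` over
`DA` the number of the words `s'` of length `6 ℓ` with the property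

  `V` accepts `eword z (s' ++ r) m` within `2 ^ κ` steps if and only if `dot h s' = true`

is less than `2 ^ (6 ℓ - 1) + 2 ^ (5 ℓ - 1)`. The answer is `dot h s`.
-/

namespace Pool.Agent.Lib.MP_9dcf40_lc

open Rout

/-! ## Lists -/

section Lists

variable {α τ : Type}

/-- Change the entries of a list from the left to the right with a finite state, until the flag is
set; the flag of the result tells whether the end of the list has been reached, and then `e` is
added at the end. -/
def scan (f : τ → α → τ × α × Bool) (e : Option α) : τ → List α → (τ × Bool) × List α
  | t, [] => ((t, true), e.toList)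
  | t, a :: l =>
    if (f t a).2.2 then (((f t a).1, false), (f t a).2.1 :: l)
    else ((scan f e (f t a).1 l).1, (f t a).2.1 :: (scan f e (f t a).1 l).2)

/-- The list of the symbols which `f` emits on a list, from the right to the left. -/
def emit (f : τ → α → τ × Option α) (t₀ : τ) : List α → τ × List α
  | [] => (t₀, [])
  | a :: l => ((f (emit f t₀ l).1 a).1, (f (emit f t₀ l).1 a).2.toList ++ (emit f t₀ l).2)

end Lists

/-- The inner product. -/
def dot : List Bool → List Bool → Bool
  | a :: h, b :: s => (a && b) ^^ dot h s
  | _, _ => false

/-- The list of the words of length `n` over `Bool`. -/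
def bl : ℕ → Finset (List Bool)
  | 0 => {[]}
  | n + 1 => (bl n).image (List.cons false) ∪ (bl n).image (List.cons true)

/-- The word of length `n` with value `v` (lowest digit first). -/
def lst : ℕ → ℕ → List Bool
  | 0, _ => []
  | n + 1, v => decide (v % 2 = 1) :: lst n (v / 2)

/-- The next letter (`none` for the last one). -/
def lnext : DA → Option DA
  | .zero => some .one
  | .one => some .hash
  | .hash => some .eState
  | .eState => some .eIn
  | .eIn => some .eSym
  | .eSym => some .dl
  | .dl => some .dr
  | .dr => none

/-- The number of a letter. -/
def lnum : DA → ℕ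
  | .zero => 0
  | .one => 1
  | .hash => 2
  | .eState => 3
  | .eIn => 4
  | .eSym => 5
  | .dl => 6
  | .dr => 7

/-- The number of a word over `DA` (lowest digit first, base 8). -/
def lval : List DA → ℕ
  | [] => 0
  | a :: l => lnum a + 8 * lval l

/-- The next word, with overflow flag. -/
def lstep : List DA → List DA × Bool
  | [] => ([], true)
  | a :: l =>
    match lnext a with
    | some b => (b :: l, false)
    | none => (.zero :: (lstep l).1, (lstep l).2)

/-- The smallest number below `N` with property `p`, and `0` if there is none. -/
noncomputable def sel (p : ℕ → Prop) (N : ℕ) : ℕ :=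
  open Classical in if h : ∃ v, v < N ∧ p v then Nat.find h else 0

/-! ## The virtual word -/

/-- States for the computation of the advice field: behind the third `hash`, in the third field,
before it. -/
inductive Fl : Type
  | a | b | c
  deriving DecidableEq, Fintype

/-- One step for the computation of the advice field, from the right to the left. -/
def advF : Fl → DA → Fl × Option Bool
  | .a, .hash => (.b, none)
  | .b, .hash => (.c, none)
  | .b, .zero => (.b, some false)
  | .b, .one => (.b, some true)
  | t, _ => (t, none)

/-- The advice bits in the word `z`: the letters `zero` and `one` between the last two `hash`. -/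
def advAux : List DA → Fl × List Bool
  | [] => (.a, [])
  | a :: z => ((advF (advAux z).1 a).1, (advF (advAux z).1 a).2.toList ++ (advAux z).2)

def advOf (z : List DA) : List Bool := (advAux z).2

/-- The virtual word. -/
def eword (z : List DA) (x : List Bool) (m : ℕ) : List VB :=
  pairL (padL (z ++ x.map bitL) (2 ^ m)) (advOf z)

/-! ## Stacks and routines -/

/-- Names of the stacks: `N` the counter of the length, `R` auxiliary (powers), `P` the pad counter,
`X` the counter of the position of the input head, `K` the clock, `T` auxiliary, `WL`, `WR` the work
tape of `V`, `ZL`, `ZR` the start of the virtual word, `AL`, `AR` the advice, `Y` the pairs of the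
bits of `h` and `s`, `Z` the word `z`, `C` the counter of the agreements. -/
inductive EN : Type
  | N | R | P | X | K | T | WL | WR | ZL | ZR | AL | AR | Y | Z | C
  deriving DecidableEq, Fintype

/-- Stack alphabet. -/
inductive EG (G : Type) : Type
  | bit (b : Bool)
  | ltr (a : DA)
  | mark
  | work (g : G)
  | pr (a b : Bool)

instance finite_EG (G : Type) [Finite G] : Finite (EG G) := by
  have h : Function.Injective
      (fun q : EG G => (match q with
        | .bit b => .inl (.inl b)
        | .ltr a => .inl (.inr a)
        | .mark => .inr (.inl none)
        | .work g => .inr (.inl (some g))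
        | .pr a b => .inr (.inr (a, b)) : (Bool ⊕ DA) ⊕ (Option G ⊕ (Bool × Bool)))) := by
    intro a b hab
    cases a <;> cases b <;> simp_all
  exact Finite.of_injective _ h

/-- Where the virtual input head is: in the start `z ++ s`, in the rest of `x`, in the padding, in
the advice. -/
inductive EM : Type
  | z | x | p | v
  deriving DecidableEq, Fintype

/-- Steps of scans: binary counters. -/
def bStep {G : Type} (b : Bool) : Unit → EG G → Unit × EG G × Bool
  | _, .bit a => if a = b then ((), .bit (!b), false) else ((), .bit b, true)
  | _, g => ((), g, true)

/-- Steps of scans: the first components of the pairs as a binary counter. -/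
def hStep {G : Type} : Unit → EG G → Unit × EG G × Bool
  | _, .pr true b => ((), .pr false b, false)
  | _, .pr false b => ((), .pr true b, true)
  | _, g => ((), g, true)

/-- Steps of scans: the second components of the pairs as a binary counter. -/
def sStep {G : Type} : Unit → EG G → Unit × EG G × Bool
  | _, .pr a true => ((), .pr a false, false)
  | _, .pr a false => ((), .pr a true, true)
  | _, g => ((), g, true)

/-- Steps of scans: letters. -/
def zStep {G : Type} : Unit → EG G → Unit × EG G × Bool
  | _, .ltr a =>
    match lnext a with
    | some b => ((), .ltr b, true)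
    | none => ((), .ltr .zero, false)
  | _, g => ((), g, true)

/-- Steps of scans: inner product. -/
def dStep {G : Type} : Bool → EG G → Bool × EG G × Bool
  | t, .pr a b => ((t ^^ (a && b)), .pr a b, false)
  | t, g => (t, g, false)

/-- Steps of `emit`: the advice. -/
def aStep {G : Type} : Fl → EG G → Fl × Option (EG G)
  | t, .ltr a => ((advF t a).1, (advF t a).2.map .bit)
  | t, _ => (t, none)

/-- The second component of a pair, as a letter. -/
def secL {G : Type} : EG G → EG G
  | .pr _ b => .ltr (bitL b)
  | g => g

/-- Put the second component of a pair to `false`. -/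
def clr2 {G : Type} : EG G → EG G
  | .pr a _ => .pr a false
  | g => g

section Routines

variable {G : Type} [Finite G]

/-- Routines of the averaging machine. -/
abbrev ER (G β : Type) : Type 1 := Rout Bool (EG G) EN β

/-- Scan the stack `i` (auxiliary stack `T`). -/
def scanR {τ : Type} [Finite τ] (f : τ → EG G → τ × EG G × Bool) (e : Option (EG G)) (i : EN)
    (t₀ : τ) : ER G (τ × Bool) :=
  (iter (τ := τ) (fun t => (pop i).bind fun o =>
    match o with
    | none =>
      (match e with
        | none => pureR ()
        | some g => push i g : ER G Unit).bind fun _ => pureR (.inr (t, true))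
    | some a =>
      if (f t a).2.2 then (push i (f t a).2.1).bind fun _ => pureR (.inr ((f t a).1, false))
      else (push .T (f t a).2.1).bind fun _ => pureR (.inl (f t a).1)) t₀).bind fun r =>
  (xferR (fun _ => false) .T i).bind fun _ => pureR r

/-- Push on the stack `j` what `f` emits on the stack `i` (auxiliary stack `T`). -/
def copyR {τ : Type} [Finite τ] (f : τ → EG G → τ × Option (EG G)) (i j : EN) (t₀ : τ) :
    ER G Unit :=
  (xferR (fun _ => false) i .T).bind fun _ =>
  iter (τ := τ) (fun t => (pop .T).bind fun o =>
    match o with
    | none => pureR (.inr ())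
    | some a => (push i a).bind fun _ =>
      (match (f t a).2 with
        | none => pureR ()
        | some g => push j g : ER G Unit).bind fun _ => pureR (.inl (f t a).1)) t₀

/-- Change all symbols of a stack. -/
def mapR (φ : EG G → EG G) (i : EN) : ER G Unit :=
  (scanR (τ := Unit) (fun _ g => ((), φ g, false)) none i ()).bind fun _ => pureR ()

/-- Copy a stack, with changed symbols. -/
def cpR (φ : EG G → EG G) (i j : EN) : ER G Unit :=
  copyR (τ := Unit) (fun _ g => ((), some (φ g))) i j ()

/-- Empty a stack. -/
def emptyR (i : EN) : ER G Unit :=
  iter (τ := Unit) (fun _ => (pop i).bind fun o =>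
    match o with
    | none => pureR (.inr ())
    | some _ => pureR (.inl ())) ()

/-- A counter step. The result is the overflow flag. -/
def cntE (b : Bool) (i : EN) : ER G Bool :=
  (scanR (bStep b) none i ()).bind fun r => pureR r.2

/-- Go to the left end mark. -/
def leftE : ER G Unit :=
  iter (τ := Unit) (fun _ => (move .left).bind fun _ => Rout.read.bind fun a =>
    match a with
    | .left => pureR (.inr ())
    | _ => pureR (.inl ())) ()

/-- Move the input head to the right by the length of the stack `i` (auxiliary stack `T`). -/
def skipE (i : EN) : ER G Unit :=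
  (iter (τ := Unit) (fun _ => (pop i).bind fun o =>
    match o with
    | none => pureR (.inr ())
    | some a => (push .T a).bind fun _ => (move .right).bind fun _ => pureR (.inl ())) ()).bind
  fun _ => xferR (fun _ => false) .T i

/-- The inner product of the first components on `Y` (which is emptied) and the letters on the right
of the input head. -/
def finE : ER G Bool :=
  iter (τ := Bool) (fun t => (pop .Y).bind fun o =>
    match o with
    | none => pureR (.inr t)
    | some g => (move .right).bind fun _ => Rout.read.bind fun c =>
      match g, c with
      | .pr a _, .letter b => pureR (.inl (t ^^ (a && b)))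
      | _, _ => pureR (.inl t)) false

/-- Count the letters of the input on the stack `N`. -/
def sizeE : ER G Unit :=
  iter (τ := Unit) (fun _ => (move .right).bind fun _ => Rout.read.bind fun a =>
    match a with
    | .right => pureR (.inr ())
    | _ => (scanR (bStep true) (some (.bit true)) .N ()).bind fun _ => pureR (.inl ())) ()

/-- Multiply the length of `R` with `length N + 1` (auxiliary stacks `WL`, `T`). -/
def mulE : ER G Unit :=
  (iter (τ := Unit) (fun _ => (pop .R).bind fun o =>
    match o with
    | none => pureR (.inr ())
    | some _ => (push .WL .mark).bind fun _ => (cpR (fun _ => .mark) .N .WL).bind fun _ =>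
        pureR (.inl ())) ()).bind fun _ =>
  xferR (fun _ => false) .WL .R

/-- Put `(length N + 1) ^ e` symbols `mark` on the empty stack `R`. -/
def powE (e : ℕ) : ER G Unit := (push .R .mark).bind fun _ => repeatR mulE e

/-- Start: `n` on `N`, `m` digits on `P`, `κ` digits on `K`, `λ` digits on `X`, `ℓ` letters on `Z`,
`6 ℓ` pairs on `Y`. -/
def setupE (d e e₁ : ℕ) : ER G Unit :=
  sizeE.bind fun _ =>
  (powE (d + 1)).bind fun _ => (cpR (fun _ => .bit true) .R .P).bind fun _ =>
  (emptyR .R).bind fun _ =>
  (powE e).bind fun _ => (cpR (fun _ => .bit false) .R .K).bind fun _ =>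
  (emptyR .R).bind fun _ =>
  (powE e₁).bind fun _ => (cpR (fun _ => .ltr .zero) .R .Z).bind fun _ =>
  (repeatR (cpR (fun _ => .pr false false) .R .Y) 6).bind fun _ =>
  (emptyR .R).bind fun _ => cpR (fun _ => .bit true) .N .X

/-- Prepare the simulation of `V` for the present `z` and `s`. -/
def loadE : ER G Unit :=
  (emptyR .ZL).bind fun _ => (emptyR .ZR).bind fun _ => (emptyR .AL).bind fun _ =>
  (emptyR .AR).bind fun _ => (emptyR .WL).bind fun _ => (emptyR .WR).bind fun _ =>
  (cpR secL .Y .ZR).bind fun _ => (cpR id .Z .ZR).bind fun _ => (push .ZR .mark).bind fun _ =>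
  (copyR aStep .Z .AR .a).bind fun _ =>
  (mapR (fun _ => .bit true) .P).bind fun _ => (mapR (fun _ => .bit true) .X).bind fun _ =>
  (mapR (fun _ => .bit false) .K).bind fun _ => leftE.bind fun _ => skipE .Y

/-- Look at the top of a stack. -/
def peekE (i : EN) : ER G (Option (EG G)) :=
  (pop i).bind fun o =>
    match o with
    | none => pureR none
    | some g => (push i g).bind fun _ => pureR (some g)

/-- Move one symbol from the stack `i` to the stack `j`. The result is `false` if the stack `i` was
empty. -/
def oneE (i j : EN) : ER G Bool :=
  (pop i).bind fun o =>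
    match o with
    | none => pureR false
    | some g => (push j g).bind fun _ => pureR true

/-- The virtual input symbol. -/
def symE (μ : EM) : ER G (InSym VB) :=
  match μ with
  | .z => (peekE .ZR).bind fun o => pureR
      (match o with
        | some (.ltr a) => .letter (.inl (some a))
        | _ => .left)
  | .x => Rout.read.bind fun a => pureR
      (match a with
        | .letter b => .letter (.inl (some (bitL b)))
        | _ => .left)
  | .p => pureR (.letter (.inl none))
  | .v => (peekE .AR).bind fun o => pureR
      (match o with
        | some (.bit b) => .letter (.inr b)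
        | _ => .right)

/-- Move the virtual input head. -/
def headE (μ : EM) (dir : Dir) : ER G EM :=
  match dir, μ with
  | .stay, μ => pureR μ
  | .right, .z => (oneE .ZR .ZL).bind fun _ => (peekE .ZR).bind fun o =>
      match o with
      | some _ => pureR .z
      | none => (move .right).bind fun _ => (cntE true .X).bind fun _ => pureR .x
  | .right, .x => (move .right).bind fun _ => (cntE true .X).bind fun _ => Rout.read.bind fun a =>
      match a with
      | .right => (cntE true .P).bind fun _ => pureR .p
      | _ => pureR .x
  | .right, .p => (cntE true .P).bind fun o => pureR (if o then .v else .p)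
  | .right, .v => (oneE .AR .AL).bind fun _ => pureR .v
  | .left, .z => (oneE .ZL .ZR).bind fun _ => pureR .z
  | .left, .x => (move .left).bind fun _ => (cntE false .X).bind fun o =>
      if o then (oneE .ZL .ZR).bind fun _ => pureR .z else pureR .x
  | .left, .p => (cntE false .P).bind fun o =>
      if o then (move .left).bind fun _ => (cntE false .X).bind fun _ => pureR .x else pureR .p
  | .left, .v => (oneE .AL .AR).bind fun o =>
      if o then pureR .v else (cntE false .P).bind fun _ => pureR .p

/-- A symbol of the work tape of `V`. -/
def wsymE (V : TM VB) : Option (EG V.G) → V.G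
  | some (.work g) => g
  | _ => V.blank

/-- Move the work head of `V`. -/
def workE (V : TM VB) [Finite V.G] (dir : Dir) : ER V.G Unit :=
  match dir with
  | .stay => pureR ()
  | .right => (pop .WR).bind fun o => push .WL (.work (wsymE V o))
  | .left => (pop .WL).bind fun o => push .WR (.work (wsymE V o))

/-- One step of `V`. -/
def stepE (V : TM VB) [Finite V.G] (q : V.Q) (μ : EM) : ER V.G (V.Q × EM) :=
  (symE μ).bind fun a => (pop .WR).bind fun o =>
    (push .WR (.work (V.δ false q a (wsymE V o)).2.1)).bind fun _ =>
    (workE V (V.δ false q a (wsymE V o)).2.2.2).bind fun _ =>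
    (headE μ (V.δ false q a (wsymE V o)).2.2.1).bind fun μ' =>
    pureR ((V.δ false q a (wsymE V o)).1, μ')

/-- The simulation of `V` with the clock `K`. -/
def simE (V : TM VB) [Finite V.G] [Finite V.Q] : ER V.G Bool :=
  iter (τ := V.Q × EM) (fun t =>
    match V.out t.1 with
    | some b => pureR (.inr b)
    | none => (cntE true .K).bind fun o => if o then pureR (.inr false) else
        (stepE V t.1 t.2).bind fun t' => pureR (.inl t')) (V.start, .z)

/-- Load and simulate. -/
def evalE (V : TM VB) [Finite V.G] [Finite V.Q] : ER V.G Bool :=
  loadE.bind fun _ => simE V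

/-- Reset the counter of the agreements to `2 ^ (6 ℓ - 1) - 2 ^ (5 ℓ - 1)`. -/
def resetE : ER G Unit :=
  (emptyR .C).bind fun _ => (push .C (.bit false)).bind fun _ =>
  (cpR (fun _ => .bit true) .Z .C).bind fun _ =>
  (repeatR (cpR (fun _ => .bit false) .Z .C) 5).bind fun _ => (pop .C).bind fun _ => pureR ()

/-- Repeat `body`, and then `inc`, until `body` gives a result or `inc` has an overflow (then the
result is `b₀`). -/
def loopE (body : ER G (Option Bool)) (inc : ER G Bool) (b₀ : Bool) : ER G Bool :=
  iter (τ := Unit) (fun _ => body.bind fun r =>
    match r with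
    | some b => pureR (.inr b)
    | none => inc.bind fun o => pureR (if o then .inr b₀ else .inl ())) ()

/-- The overflow flag of a scan. -/
def flagE (f : Unit → EG G → Unit × EG G × Bool) (i : EN) : ER G Bool :=
  (scanR f none i ()).bind fun r => pureR r.2

/-- One word `s`: simulate `V`, compare, count. -/
def agreeE (V : TM VB) [Finite V.G] [Finite V.Q] : ER V.G (Option Bool) :=
  (evalE V).bind fun a => (scanR dStep none .Y false).bind fun t =>
    if a = t.1 then (cntE true .C).bind fun o => pureR (if o then some false else none)
    else pureR none

/-- Count the agreements; the result is `true` if there are less than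
`2 ^ (6 ℓ - 1) + 2 ^ (5 ℓ - 1)`. -/
def countE (V : TM VB) [Finite V.G] [Finite V.Q] : ER V.G Bool :=
  resetE.bind fun _ => (mapR clr2 .Y).bind fun _ => loopE (agreeE V) (flagE sStep .Y) true

/-- Is the word `h` good? -/
def goodE (V : TM VB) [Finite V.G] [Finite V.Q] : ER V.G Bool :=
  (mapR (fun _ => .ltr .zero) .Z).bind fun _ =>
  loopE ((countE V).bind fun b => pureR (if b then none else some false)) (flagE zStep .Z) true

/-- Look for the first good word `h`. -/
def searchE (V : TM VB) [Finite V.G] [Finite V.Q] : ER V.G Bool :=
  loopE ((goodE V).bind fun b => pureR (if b then some true else none)) (flagE hStep .Y) true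

/-- The averaging machine. -/
def mainE (V : TM VB) [Finite V.G] [Finite V.Q] (d e e₁ : ℕ) : ER V.G Bool :=
  (setupE d e e₁).bind fun _ => leftE.bind fun _ => (skipE .Y).bind fun _ =>
  (move .right).bind fun _ => Rout.read.bind fun a =>
    match a with
    | .right => pureR false
    | _ => (searchE V).bind fun _ => leftE.bind fun _ => finE

end Routines

end Pool.Agent.Lib.MP_9dcf40_lc
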