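import Pool.Agent.Lib.MP_9dcf40_lc.Av.SpecS
import Pool.Agent.Lib.MP_9dcf40_lc.Av.Defs2

/-!
# The end of the proof: definitions and statements
-/

namespace Pool.Agent.Lib.MP_9dcf40_lc

open Filter

/-! ## Average case -/

/-- Existence of a good word.

Proof. Let `W n G h` be the sum over `s ∈ bl n` of `G s * (if dot h s then -1 else 1)`, for
`G : List Bool → ℤ`. Parseval: the sum over `h ∈ bl n` of `(W n G h) ^ 2` is `2 ^ n` times the sum over
`s ∈ bl n` of `(G s) ^ 2`; induction on `n`: with `G₀ s = G (false :: s)`, `G₁ s = G (true :: s)` we have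
`W (n + 1) G (false :: h) = W n (G₀ + G₁) h`, `W (n + 1) G (true :: h) = W n (G₀ - G₁) h`. For `z` let
`G s = if g z s then -1 else 1`, `n = 6 l`; then `W n G h = 2 a - 2 ^ n` where `a` is the number of
agreements. If `a ≥ 2 ^ (6 l - 1) + 2 ^ (5 l - 1)` then `W n G h ≥ 2 ^ (5 l)`, so for each `z` this
happens for at most `2 ^ (12 l) / 2 ^ (10 l) = 2 ^ (2 l)` words `h`. There are `8 ^ l = 2 ^ (3 l)` words
`z`, and `2 ^ (5 l) < 2 ^ (6 l)`. -/
def StEPars : Prop := ∀ (l : ℕ) (g : List DA → List Bool → Prop), 1 ≤ l →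
  ∃ h : List Bool, h.length = 6 * l ∧ ∀ z : List DA, z.length = l →
    {s : List Bool | s.length = 6 * l ∧ (g z s ↔ dot h s = true)}.ncard <
      2 ^ (6 * l - 1) + 2 ^ (5 * l - 1)

/-- The word found by the machine (from `StEPars`, `StEOdo`).

Proof. Second part: by `StEPars` (with `g = EAcc V x m k`) some `h = lst (6 l) v`, `v = val h`, is good;
`Nat.find_spec`. Third part: for `s` of length `6 l` we have `(s₀ ++ r).drop s.length = r`, so
`EAcc V (s₀ ++ r) m k z s` does not depend on `s₀`; hence `ENum`, `EGood` (for these lengths) and `sel`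
(`congr`, `funext`) do not. -/
def StEFind : Prop := ∀ (V : TM VB) (m k l : ℕ), 1 ≤ l →
  (∀ x, (EFind V x m k l).length = 6 * l) ∧ (∀ x, EGood V x m k l (EFind V x m k l)) ∧
  ∀ s₀ s₁ r : List Bool, s₀.length = 6 * l → s₁.length = 6 * l →
    EFind V (s₀ ++ r) m k l = EFind V (s₁ ++ r) m k l

/-- Numerical bounds for the machine. See `StNumD` (`FNumD.lean`), which gives the first part with
`d + 1` in place of `d`, because `2 (size n + 1) ^ e₁ ≤ n` for large `n`. -/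
def StENumD : Prop := ∀ a g k d e₁ : ℕ, ∃ e : ℕ,
  (∀ᶠ n : ℕ in atTop, ∀ N ≤ n + 2 * (Nat.size n + 1) ^ e₁ + 2 ^ (Nat.size n + 1) ^ (d + 1),
    a * (N + 2) * (2 * (Nat.log 2 N ^ k + k) + 1) * g ^ (2 * (Nat.log 2 N ^ k + k) + 1) ≤
      2 ^ (Nat.size n + 1) ^ e) ∧
  ∃ k' : ℕ, ∀ n : ℕ,
    (Nat.size n + 1) ^ (d + 1) + (Nat.size n + 1) ^ e + 7 * (Nat.size n + 1) ^ e₁ + Nat.size n +
        (Nat.log 2 (n + 2 * (Nat.size n + 1) ^ e₁ + 2 ^ (Nat.size n + 1) ^ (d + 1)) ^ k + k) + 10 ≤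
      Nat.log 2 n ^ k' + k'

/-- The language of the averaging machine (from `StCompD`, `StETotal`, `StEFind`, `StClock`,
`StENumD`, `StEAdv`).

Proof. As `StDiag` (`FDiag.lean`). `e` from `StENumD` with `a = card V.Q`, `g = card V.G`;
`|eword z x m| ≤ n + 2 ℓ + 2 ^ m` for `|z| = ℓ` (`StEAdv`), `sV = (log N) ^ k + k` for this bound `N`. `L`
is the set of the words accepted by the machine which `StCompD` gives for `mainE V d e e₁`. Let `n` be
large, so that `6 ℓ < n`, and `s ++ r` a word of length `n`: the machine answers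
`dot h (s ++ r) = dot h s` (`|h| = 6 ℓ`), `h = EFind V (s ++ r) m κ ℓ`, which does not depend on `s`. By
`StClock` acceptance of `V` is the same as acceptance within `2 ^ κ` steps (`EAcc`) on the words
`eword z (s ++ r) m`, for large `n`. -/
def StEDiag : Prop := ∀ (V : TM VB) (k d e₁ : ℕ), V.IsDet →
  (∀ z, V.SpaceLe z (Nat.log 2 z.length ^ k + k)) →
  ∃ L : Set (List Bool), InPolyL Bool L ∧ ∀ᶠ n : ℕ in atTop, ∀ r : List Bool,
    r.length + 6 * (Nat.size n + 1) ^ e₁ = n →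
    ∃ h : List Bool, h.length = 6 * (Nat.size n + 1) ^ e₁ ∧
      (∀ s : List Bool, s.length = 6 * (Nat.size n + 1) ^ e₁ → (s ++ r ∈ L ↔ dot h s = true)) ∧
      ∀ z : List DA, z.length = (Nat.size n + 1) ^ e₁ →
        {s : List Bool | s.length = 6 * (Nat.size n + 1) ^ e₁ ∧
          (V.Accepts (eword z (s ++ r) ((Nat.size n + 1) ^ (d + 1))) ↔ dot h s = true)}.ncard <
        2 ^ (6 * (Nat.size n + 1) ^ e₁ - 1) + 2 ^ (5 * (Nat.size n + 1) ^ e₁ - 1)

/-- The machine which skips the start of its input.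

Proof. States: `Fin 3` (number of the letters `hash` seen) or a state of `M`; the same work alphabet.
In a state of `Fin 3` the machine does not change the work tape and moves the input head to the
right, except at the third `hash`, where it goes to the start state of `M` and the head stays. After
that it behaves like `M`, where the letter `hash` (and any other unexpected symbol) is read as the
left end mark, `inl zero`, `inl one` as `inl false`, `inl true`; on `hash` a move to the left is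
replaced by no move. With `|z| = position of the third hash`, position `|z| + p` of the
machine is position `p` of `M`. The run needs `|z|` steps to the third `hash` and one more step to
enter the start state. Induction on `t`. -/
def StESk : Prop := ∀ M : TM (Bool ⊕ Bool), ∃ S : TM DB,
  ∀ (f₁ f₂ f₃ : List DA) (x w : List Bool), .hash ∉ f₁ → .hash ∉ f₂ → .hash ∉ f₃ →
    (∀ (ch : ℕ → Bool) (t : ℕ), t ≤ f₁.length + f₂.length + f₃.length + 3 →
      S.out (S.run (pairL (f₁ ++ .hash :: (f₂ ++ .hash :: (f₃ ++ .hash :: x.map bitL))) w)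
        ch t).q = none) ∧
    ∀ (ch : ℕ → Bool) (t : ℕ),
      S.out (S.run (pairL (f₁ ++ .hash :: (f₂ ++ .hash :: (f₃ ++ .hash :: x.map bitL))) w)
        ch (f₁.length + f₂.length + f₃.length + 4 + t)).q =
      M.out (M.run (pairL x w)
        (fun i => ch (f₁.length + f₂.length + f₃.length + 4 + i)) t).q

/-- The bound for one machine (from `StEDiag`, `StESk`, `StNorm`, `StUCorr`, `StEAdv`).

Proof. As `StContr` (`FContr.lean`). `B` is accepted by `V`; `L` from `StEDiag`; `S` from `StESk` for `M`,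
`F` from `StNorm` for `S`, `C₀ = (code F).length + 3`. Write `ℓ`, `m` for the two powers, `N = ℓ + n + 2 ^ m`,
`z = code F # w # (v N) eState^j #` (bits via `bitL`) with `j` such that `|z| = ℓ`. Then `advOf z = v N`,
and for `|x| = n`: `V.Accepts (eword z x m)` iff `padL (z ++ x.map bitL) (2 ^ m) ∈ KU nd` iff
(`StUCorr`; `z ++ x.map bitL = instX F w _`) some computation of `F` (for `nd = false`: the one with the
choices `false`) on `pairL (z ++ x.map bitL) w` accepts within `2 ^ m` steps, iff `M` accepts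
`pairL x w` within `2 ^ m - (ℓ + 1)` steps (`StESk`; the choices can be prolonged to the left), iff
`M.Accepts (pairL x w)` (it halts within `T` steps; `FContr.accepts_iff`, `FContr.run_det`). So for
every `r` the number of the `s` with `s ++ r ∈ L ↔ M.Accepts (pairL (s ++ r) w)` is less than
`2 ^ (6 ℓ - 1) + 2 ^ (5 ℓ - 1)`; sum over the `2 ^ (n - 6 ℓ)` words `r`. (`6 ℓ < n` for large `n`.) -/
def StEContr : Prop := ∀ (nd : Bool) (B : Set (List VB)) (v : ℕ → List Bool) (d e₁ : ℕ),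
  InPolyL VB B → (∀ y, y ∈ KU nd ↔ pairL y (v y.length) ∈ B) →
  ∃ L : Set (List Bool), InPolyL Bool L ∧ ∀ M : TM (Bool ⊕ Bool), (nd = false → M.IsDet) →
    ∃ C₀ : ℕ, ∀ᶠ n : ℕ in atTop, ∀ (w : List Bool) (T : ℕ),
      C₀ + w.length +
        (v (n + (Nat.size n + 1) ^ e₁ + 2 ^ (Nat.size n + 1) ^ (d + 1))).length ≤
          (Nat.size n + 1) ^ e₁ →
      T + (Nat.size n + 1) ^ e₁ + 2 ≤ 2 ^ (Nat.size n + 1) ^ (d + 1) →
      (∀ x : List Bool, x.length = n → M.HaltsIn (pairL x w) T) →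
      {x : List Bool | x.length = n ∧ (x ∈ L ↔ M.Accepts (pairL x w))}.ncard ≤
        2 ^ (n - 1) + 2 ^ (n - 1 - (Nat.size n + 1) ^ e₁)

/-- Numbers for the average case.

Proof. With `λ = size n`, `ℓ = (λ + 1) ^ e₁`, `m = (λ + 1) ^ (d + 1)`: `log (n + ℓ + 2 ^ m) ≤ m + λ + 2` for
large `n` (`ℓ ≤ n`), so `a (…) ≤ (3 m) ^ ka + ka ≤ (λ + 1) ^ ((d + 1) ka + 1)` for large `n`; so
`e₁ = (d + 1) ka + c + 3` works for the first inequality. `log (n + b n) + 1 ≤ λ + 1` for large `n`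
(`b n ≤ n`), so `k (…) ^ d ≤ k (λ + 1) ^ d ≤ m - 1` for large `n`, and `2 ^ (m - 1) + ℓ + 2 ≤ 2 ^ m`. -/
def StENumQ : Prop := ∀ c d ka : ℕ, ∃ e₁ : ℕ, ∀ (C₀ k : ℕ) (a b : ℕ → ℕ),
  (∀ n, a n ≤ Nat.log 2 n ^ ka + ka) → (∀ n, b n ≤ Nat.log 2 n ^ c + c) →
  ∀ᶠ n : ℕ in atTop,
    C₀ + b n + a (n + (Nat.size n + 1) ^ e₁ + 2 ^ (Nat.size n + 1) ^ (d + 1)) ≤
      (Nat.size n + 1) ^ e₁ ∧
    2 ^ (k * (Nat.log 2 (n + b n) + 1) ^ d) + (Nat.size n + 1) ^ e₁ + 2 ≤
      2 ^ (Nat.size n + 1) ^ (d + 1) ∧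
    Nat.log 2 n ^ c ≤ (Nat.size n + 1) ^ e₁ ∧ (Nat.size n + 1) ^ e₁ + 1 ≤ n

/-- Third main statement (from `StEContr`, `StENumQ`, `StKD`, `StKN`).

Proof. As `FMain2.lean`. `KU nd` is in `InP` (`InNP`), which gives `B`, `v` with
`|v n| ≤ (log n) ^ ka + ka`; `e₁` from `StENumQ`, `L` from `StEContr`. If `L` is in `IoHeur _ c` by
`B'` (machine `M`, time `2 ^ (k (log + 1) ^ d)`) and `h'`, use `StEContr` with `w = h' n` and
`b n = |h' n|`: for large `n` the number of agreements is at most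
`2 ^ (n - 1) + 2 ^ (n - 1 - ℓ) ≤ (1 / 2 + (1 / 2) ^ ((log n) ^ c)) 2 ^ n` (`Nat.card Bool = 2`). -/
def StEMain : Prop :=
  (Incl InP (Adv InPolyL PolyLog) → ∀ c d : ℕ,
    ∃ L : Set (List Bool), InPolyL Bool L ∧ ¬ IoHeur (InQTime d) c Bool L) ∧
  (Incl InNP (Adv InPolyL PolyLog) → ∀ c d : ℕ,
    ∃ L : Set (List Bool), InPolyL Bool L ∧ ¬ IoHeur (InNQTime d) c Bool L)

/-! ## Few errors -/

/-- The number of errors (from `StDiag`, `StNorm`, `StUCorr`).

Proof. The proof of `StContr` (`FContr.lean`), with an arbitrary `rest` of length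
`j = n - (C₀ + |w| + |v N| + m)`, `N = n + 2 ^ m`: all the words
`x = code F # w # v N # 1 ^ m # rest` satisfy `¬ (x ∈ D ↔ M.Accepts (pairL x w))`. The map
`rest ↦ x` is injective, and there are `8 ^ j` words `rest` (`Fintype.card DA = 8`; the set of the
words of length `n` is finite). -/
def StGContr : Prop := ∀ (nd : Bool) (B : Set (List VB)) (v : ℕ → List Bool) (d : ℕ),
  InPolyL VB B → (∀ y, y ∈ KU nd ↔ pairL y (v y.length) ∈ B) →
  ∃ D : Set (List DA), InPolyL DA D ∧ ∀ M : TM DB, (nd = false → M.IsDet) →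
    ∃ C₀ : ℕ, ∀ᶠ n : ℕ in atTop, ∀ (w : List Bool) (m : ℕ), m ≤ (Nat.size n + 1) ^ d →
      C₀ + w.length + (v (n + 2 ^ m)).length + m ≤ n →
      (∀ x : List DA, x.length = n → M.HaltsIn (pairL x w) (2 ^ m)) →
      8 ^ (n - (C₀ + w.length + (v (n + 2 ^ m)).length + m)) ≤
        {x : List DA | x.length = n ∧ ¬ (x ∈ D ↔ M.Accepts (pairL x w))}.ncard

/-- Numbers.

Proof. `m = k (log (n + b n) + 1) ^ d ≤ k (λ + 1) ^ d ≤ (λ + 1) ^ (d + 1)` for large `n`, `λ = size n`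
(`b n ≤ n` for large `n`). `m ≤ k (log₂ n + 3) ^ d`, so `log₂ (n + 2 ^ m) ≤ m + log₂ n + 1 ≤ c (log₂ n) ^ d`
for large `n`, where `c = c (k, d) ≥ 1` (`d ≥ 1`). So with `ε = δ / (2 c)` (`c ^ (1 / d) ≤ c`) we get
`a (n + 2 ^ m) ≤ 2 ^ (ε c log₂ n) = n ^ (δ / 2)` for large `n` (`n + 2 ^ m ≥ n` tends to infinity, so
the property of `a` holds at `n + 2 ^ m`). Finally `C₀ + n ^ (δ / 2) + m ≤ n ^ δ` for large `n`.
See `FNumQ.lean`, `FNumPoly.lean` for similar estimates. -/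
def StGNum : Prop := ∀ (C₀ k d : ℕ) (a b : ℕ → ℕ) (δ : ℝ), 1 ≤ d → Small d a → 0 < δ →
  (∀ᶠ n : ℕ in atTop, (b n : ℝ) ≤ (n : ℝ) - (n : ℝ) ^ δ) →
  ∀ᶠ n : ℕ in atTop, ∃ m ≤ (Nat.size n + 1) ^ (d + 1),
    ((C₀ + a (n + 2 ^ m) + m : ℕ) : ℝ) ≤ (n : ℝ) ^ δ ∧
      2 ^ (k * (Nat.log 2 (n + b n) + 1) ^ d) ≤ 2 ^ m

/-- Fourth main statement (from `StGContr`, `StGNum`, `StKD`, `StKN`).

Proof. As `FMain2.lean`, with `StGContr` (for `d + 1`). At a length `n` where the number of errors of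
`B'`, `h'` is less than `8 ^ (n - |h' n| - n ^ δ)` (`Nat.card DA = 8`), it is also at least
`8 ^ (n - (C₀ + |h' n| + |v (n + 2 ^ m)| + m))` by `StGContr`, and
`C₀ + |v (n + 2 ^ m)| + m ≤ n ^ δ` by `StGNum`, contradiction. (`C₀ + |h' n| + … ≤ n` follows from
`|h' n| ≤ n - n ^ δ`.) -/
def StGMain : Prop := ∀ d : ℕ, 1 ≤ d →
  (Incl InP (Adv InPolyL (Small d)) →
    ∃ D : Set (List DA), InPolyL DA D ∧ ¬ IoNear (InQTime d) DA D) ∧
  (Incl InNP (Adv InPolyL (Small d)) →
    ∃ D : Set (List DA), InPolyL DA D ∧ ¬ IoNear (InNQTime d) DA D)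

end Pool.Agent.Lib.MP_9dcf40_lc
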