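import Pool.Agent.Lib.MP_9dcf40_lc.Av.Spec

/-!
# Statements about the averaging machine
-/

namespace Pool.Agent.Lib.MP_9dcf40_lc

open Rout

/-! ## Lists -/

/-- The scans and `emit` on the lists which occur.

Proof. Induction on the lists (for the pairs on both lists; `List.zipWith` of lists of the same
length). -/
def StEList : Prop :=
  (∀ (G : Type) (b : Bool) (l : List Bool), scan (bStep (G := G) b) none () (l.map .bit) =
    (((), (cstep b l).2), (cstep b l).1.map .bit)) ∧
  (∀ (G : Type) (l : List Bool), (scan (bStep (G := G) true) (some (.bit true)) () (l.map .bit)).2 =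
    (cinc l).map .bit) ∧
  (∀ (G : Type) (h s : List Bool), h.length = s.length →
    scan (hStep (G := G)) none () (List.zipWith .pr h s) =
      (((), (cstep true h).2), List.zipWith .pr (cstep true h).1 s)) ∧
  (∀ (G : Type) (h s : List Bool), h.length = s.length →
    scan (sStep (G := G)) none () (List.zipWith .pr h s) =
      (((), (cstep true s).2), List.zipWith .pr h (cstep true s).1)) ∧
  (∀ (G : Type) (z : List DA), scan (zStep (G := G)) none () (z.map .ltr) =
    (((), (lstep z).2), (lstep z).1.map .ltr)) ∧
  (∀ (G : Type) (h s : List Bool) (t : Bool), h.length = s.length →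
    scan (dStep (G := G)) none t (List.zipWith .pr h s) =
      (((t ^^ dot h s), true), List.zipWith .pr h s)) ∧
  (∀ (G : Type) (φ : EG G → EG G) (l : List (EG G)),
    scan (τ := Unit) (fun _ g => ((), φ g, false)) none () l = (((), true), l.map φ)) ∧
  (∀ (G : Type) (φ : EG G → EG G) (l : List (EG G)),
    (emit (τ := Unit) (fun _ g => ((), some (φ g))) () l).2 = l.map φ) ∧
  (∀ (G : Type) (z : List DA), emit (aStep (G := G)) .a (z.map .ltr) =
    ((advAux z).1, (advOf z).map .bit)) ∧
  ∀ (G : Type) (h s : List Bool), h.length = s.length →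
    (List.zipWith (EG.pr (G := G)) h s).map secL = (s.map bitL).map .ltr ∧
    (List.zipWith (EG.pr (G := G)) h s).map clr2 =
      List.zipWith .pr h (List.replicate s.length false)

/-- Enumeration of words (from `StCount`).

Proof. Inductions on the length. `val` is injective on the lists of one length. For the counting
function: `v ↦ lst n v` is a bijection from `Finset.range (2 ^ n)` to the lists of length `n`
(`Nat.count_eq_card_filter_range`). -/
def StEOdo : Prop :=
  (∀ n l, l ∈ bl n ↔ l.length = n) ∧ (∀ n, (bl n).card = 2 ^ n) ∧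
  (∀ n v, (lst n v).length = n) ∧ (∀ n v, val (lst n v) = v % 2 ^ n) ∧
  (∀ l, lst l.length (val l) = l) ∧
  (∀ n v, v + 1 < 2 ^ n → cstep true (lst n v) = (lst n (v + 1), false)) ∧
  (∀ n, cstep true (lst n (2 ^ n - 1)) = (lst n 0, true)) ∧
  (∀ n, lst n 0 = List.replicate n false) ∧
  (∀ (n : ℕ) (p : List Bool → Prop) [DecidablePred p],
    Nat.count (fun v => p (lst n v)) (2 ^ n) = {s : List Bool | s.length = n ∧ p s}.ncard) ∧
  (∀ z, (lstep z).1.length = z.length) ∧ (∀ z, lval z < 8 ^ z.length) ∧
  (∀ z z', z.length = z'.length → lval z = lval z' → z = z') ∧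
  (∀ z, (lstep z).2 = false → lval (lstep z).1 = lval z + 1) ∧
  (∀ z, (lstep z).2 = true → lval z + 1 = 8 ^ z.length) ∧
  (∀ z, (lstep z).2 = true → (lstep z).1 = List.replicate z.length .zero) ∧
  (∀ n, lval (List.replicate n .zero) = 0)

/-- The advice field.

Proof. Induction from the right: `advAux` of `[hash]` is `(b, [])`; for `f₃` without `hash` the state
stays `b` and the bits of the letters `zero`, `one` are collected; at the next `hash` the state
becomes `c`, and then nothing changes. -/
def StEAdv : Prop :=
  (∀ z, (advOf z).length ≤ z.length) ∧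
  ∀ (f₁ f₂ : List DA) (v : List Bool) (j : ℕ),
    advOf (f₁ ++ .hash :: (f₂ ++ .hash :: (v.map bitL ++ List.replicate j .eState ++ [.hash]))) = v

/-! ## Basic routines -/

/-- Scans (from `StXfer`).

Proof. Loop: `ends_iter` with the invariant
`scan f e t₀ l = ((scan f e t l').1, u ++ (scan f e t l').2)`, where `l = D.st i`, `l'` is the present
content of the stack `i`, `u.reverse` the content of `T` (all other stacks and the position
unchanged), the measure is the length of the stack `i`. At the end `T` is moved back to `i`. The sum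
of the lengths of the stacks `i` and `T` is at most the length of `l` (plus one if the end is
reached and `e ≠ none`). One may prove the loop by induction on `l'` instead. -/
def StEScan : Prop := ∀ (G : Type) [Finite G] (τ : Type) [Finite τ]
  (f : τ → EG G → τ × EG G × Bool) (e : Option (EG G)) (i : EN) (t₀ : τ) (x : List Bool) (s : ℕ)
  (D : Data (EG G) EN), i ≠ .T → D.le s → D.st .T = [] →
  (D.st i).length + e.toList.length ≤ s →
  Ends x (scanR f e i t₀) s D fun r D' => r = (scan f e t₀ (D.st i)).1 ∧
    D' = ⟨D.pos, Function.update D.st i (scan f e t₀ (D.st i)).2⟩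

/-- Copies (from `StXfer`).

Proof. After `xferR` the stack `i` is empty and `T` is `(D.st i).reverse`. Loop (`ends_iter`, or
induction): the content of `T` is `u.reverse`, the content of `i` is `l'`, `D.st i = u ++ l'`, the
state is `(emit f t₀ l').1`, and the content of `j` is `(emit f t₀ l').2 ++ D.st j`. The lengths on
`j` increase, so they are bounded by the last one. -/
def StECopy : Prop := ∀ (G : Type) [Finite G] (τ : Type) [Finite τ]
  (f : τ → EG G → τ × Option (EG G)) (i j : EN) (t₀ : τ) (x : List Bool) (s : ℕ)
  (D : Data (EG G) EN), i ≠ .T → j ≠ .T → i ≠ j → D.le s → D.st .T = [] →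
  (emit f t₀ (D.st i)).2.length + (D.st j).length ≤ s →
  Ends x (copyR f i j t₀) s D fun _ D' =>
    D' = ⟨D.pos, Function.update D.st j ((emit f t₀ (D.st i)).2 ++ D.st j)⟩

/-- Other loops (from `StXfer`): empty a stack; the head moves; the inner product with the input.

Proof. `ends_iter`. For `leftE`: `inSym x p = left` iff `p = 0`. For `skipE`: `movePos` to the right
`k` times from `p ≤ n + 1` gives `min (p + k) (n + 1)`. For `finE`: invariant: position `k`, the
content of `Y` is `zipWith pr (h.drop k) (s.drop k)`, and `dot h x` is the state `xor`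
`dot (h.drop k) (x.drop k)`; measure: the length of `Y`. -/
def StETape : Prop := ∀ (G : Type) [Finite G] (x : List Bool) (s : ℕ) (D : Data (EG G) EN), D.le s →
  (∀ i, Ends x (emptyR (G := G) i) s D fun _ D' => D' = ⟨D.pos, Function.update D.st i []⟩) ∧
  (D.pos ≤ x.length + 1 → Ends x (leftE (G := G)) s D fun _ D' => D' = ⟨0, D.st⟩) ∧
  (∀ i, i ≠ .T → D.st .T = [] → D.pos ≤ x.length + 1 → Ends x (skipE (G := G) i) s D fun _ D' =>
    D' = ⟨min (D.pos + (D.st i).length) (x.length + 1), D.st⟩) ∧
  ∀ h t : List Bool, D.pos = 0 → D.st .Y = List.zipWith .pr h t → h.length = t.length →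
    h.length ≤ x.length → Ends x (finE (G := G)) s D fun b _ => b = dot h x

/-- Derived rules (from `StEScan`, `StECopy`, `StEList`). Unfold the routines, `ends_bind`,
`ends_pure`. (`repeatR` of a copy: induction on `k`.) For `peekE`, `oneE` see the definitions. -/
def StERules : Prop := ∀ (G : Type) [Finite G] (x : List Bool) (s : ℕ) (D : Data (EG G) EN), D.le s →
  (∀ (b : Bool) (i : EN) (l : List Bool), i ≠ .T → D.st .T = [] → D.st i = l.map .bit →
    Ends x (cntE (G := G) b i) s D fun o D' => o = (cstep b l).2 ∧
      D' = ⟨D.pos, Function.update D.st i ((cstep b l).1.map .bit)⟩) ∧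
  (∀ (φ : EG G → EG G) (i : EN), i ≠ .T → D.st .T = [] → Ends x (mapR φ i) s D fun _ D' =>
    D' = ⟨D.pos, Function.update D.st i ((D.st i).map φ)⟩) ∧
  (∀ (φ : EG G → EG G) (i j : EN), i ≠ .T → j ≠ .T → i ≠ j → D.st .T = [] →
    (D.st i).length + (D.st j).length ≤ s → Ends x (cpR φ i j) s D fun _ D' =>
      D' = ⟨D.pos, Function.update D.st j ((D.st i).map φ ++ D.st j)⟩) ∧
  (∀ (c : EG G) (k : ℕ) (i j : EN), i ≠ .T → j ≠ .T → i ≠ j → D.st .T = [] →
    k * (D.st i).length + (D.st j).length ≤ s →
    Ends x (repeatR (cpR (fun _ => c) i j) k) s D fun _ D' => D' = ⟨D.pos, Function.update D.st j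
      (List.replicate (k * (D.st i).length) c ++ D.st j)⟩) ∧
  (∀ i, Ends x (peekE (G := G) i) s D fun o D' => o = (D.st i).head? ∧ D' = D) ∧
  (∀ i j, i ≠ j → (D.st j).length + 1 ≤ s → Ends x (oneE (G := G) i j) s D fun o D' =>
    (D.st i = [] ∧ o = false ∧ D' = D) ∨ ∃ g l, D.st i = g :: l ∧ o = true ∧
      D' = ⟨D.pos, Function.update (Function.update D.st i l) j (g :: D.st j)⟩)

/-- Length of the input in binary (from `StEScan`, `StEList`, `StCount`).

Proof. Invariant: the position is `p ≤ n`, the stack `N` is `(cinc^[p] []).map bit`, the other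
stacks are empty; measure `n - p`. `(cinc^[p] []).length = Nat.size p ≤ Nat.size n`. -/
def StESize : Prop := ∀ (G : Type) [Finite G] (x : List Bool) (s : ℕ), Nat.size x.length + 1 ≤ s →
  Ends x (sizeE (G := G)) s .init fun _ D' => D' =
    ⟨x.length + 1, Function.update (fun _ => []) .N ((cinc^[x.length] []).map .bit)⟩

/-- Powers (from `StERules`, `StXfer`).

Proof. `mulE` from `R = replicate k mark`: the loop has the invariant `R = replicate j mark`,
`WL = replicate ((k - j) * (length N + 1)) mark`; then `xferR`. Induction on `e`. -/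
def StEPow : Prop := ∀ (G : Type) [Finite G] (x : List Bool) (s e : ℕ) (D : Data (EG G) EN), D.le s →
  D.st .T = [] → D.st .R = [] → D.st .WL = [] → ((D.st .N).length + 1) ^ e ≤ s →
  Ends x (powE (G := G) e) s D fun _ D' => D' = ⟨D.pos, Function.update D.st .R
    (List.replicate (((D.st .N).length + 1) ^ e) .mark)⟩

/-! ## Invariants -/

section Inv

variable {G : Type}

/-- What all the loops keep. -/
def EInv (x : List Bool) (m q k : ℕ) (D : Data (EG G) EN) : Prop :=
  D.st .T = [] ∧ (D.st .P).length = m ∧ (D.st .X).length = q ∧ (D.st .K).length = k ∧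
    D.pos ≤ x.length + 1

/-- The words `z`, `h`, `s` are on their stacks. -/
def EPre (z : List DA) (h s : List Bool) (D : Data (EG G) EN) : Prop :=
  D.st .Z = z.map .ltr ∧ D.st .Y = List.zipWith .pr h s ∧ h.length = s.length

/-- The position `vp` of the virtual head is represented. (`zl`, `zr`: the start of the virtual word
with end mark, left of the head and from the head on; `al`, `ar`: the same for the advice; `lx`: the
position counter, `lp`: the pad counter.) -/
def ERep (x : List Bool) (z : List DA) (s : List Bool) (m q : ℕ) (μ : EM) (D : Data (EG G) EN)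
    (vp : ℕ) : Prop :=
  ∃ (zl zr al ar : List (EG G)) (lx lp : List Bool),
    D.st .ZL = zl.reverse ∧ D.st .ZR = zr ∧ D.st .AL = al.reverse ∧ D.st .AR = ar ∧
    D.st .X = lx.map .bit ∧ D.st .P = lp.map .bit ∧ lx.length = q ∧ lp.length = m ∧
    zl ++ zr = .mark :: (z ++ s.map bitL).map .ltr ∧ al ++ ar = (advOf z).map .bit ∧
    match μ with
    | .z => lx = List.replicate q true ∧ lp = List.replicate m true ∧ al = [] ∧
        D.pos = s.length ∧ zr ≠ [] ∧ vp = zl.length
    | .x => zr = [] ∧ al = [] ∧ lp = List.replicate m true ∧ s.length + 1 + val lx = D.pos ∧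
        D.pos ≤ x.length ∧ vp = z.length + D.pos
    | .p => zr = [] ∧ al = [] ∧ s.length + 1 + val lx = D.pos ∧ D.pos = x.length + 1 ∧
        vp = z.length + x.length + 1 + val lp
    | .v => zr = [] ∧ lp = List.replicate m false ∧ s.length + 1 + val lx = D.pos ∧
        D.pos = x.length + 1 ∧ vp = z.length + x.length + 2 ^ m + 1 + al.length

/-- Everything is ready for the simulation. -/
def ERdy (x : List Bool) (z : List DA) (s : List Bool) (m q k : ℕ) (D : Data (EG G) EN) : Prop :=
  ERep x z s m q .z D 0 ∧ D.st .WL = [] ∧ D.st .WR = [] ∧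
    D.st .K = (List.replicate k false).map .bit ∧ D.st .T = []

/-- `V` accepts the virtual word within the time of the clock. -/
def EAcc (V : TM VB) (x : List Bool) (m k : ℕ) (z : List DA) (s : List Bool) : Prop :=
  ∃ t < 2 ^ k, V.out (V.run (eword z (s ++ x.drop s.length) m) (fun _ => false) t).q = some true

/-- The number of agreements. -/
noncomputable def ENum (V : TM VB) (x : List Bool) (m k l : ℕ) (z : List DA) (h : List Bool) : ℕ :=
  {s : List Bool | s.length = 6 * l ∧ (EAcc V x m k z s ↔ dot h s = true)}.ncard

/-- The word `h` is good. -/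
def EGood (V : TM VB) (x : List Bool) (m k l : ℕ) (h : List Bool) : Prop :=
  ∀ z : List DA, z.length = l → ENum V x m k l z h < 2 ^ (6 * l - 1) + 2 ^ (5 * l - 1)

/-- The word `h` which the machine finds. -/
noncomputable def EFind (V : TM VB) (x : List Bool) (m k l : ℕ) : List Bool :=
  lst (6 * l) (sel (fun v => EGood V x m k l (lst (6 * l) v)) (2 ^ (6 * l)))

end Inv

/-- The stacks which are changed in the simulation. -/
def simSt : List EN := [.P, .X, .K, .WL, .WR, .ZL, .ZR, .AL, .AR]

/-- The stacks which are changed by the virtual head. -/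
def headSt : List EN := [.P, .X, .ZL, .ZR, .AL, .AR]

/-! ## The routines of the machine -/

/-- Start (from `StESize`, `StEPow`, `StERules`, `StETape`, `StCount`). Composition. -/
def StESetup : Prop := ∀ (G : Type) [Finite G] (x : List Bool) (s d e e₁ : ℕ),
  (Nat.size x.length + 1) ^ (d + 1) ≤ s → (Nat.size x.length + 1) ^ e ≤ s →
  6 * (Nat.size x.length + 1) ^ e₁ ≤ s → Nat.size x.length + 1 ≤ s →
  Ends x (setupE (G := G) d e e₁) s .init fun _ D' => D'.pos = x.length + 1 ∧ D'.st .T = [] ∧
    (D'.st .P).length = (Nat.size x.length + 1) ^ (d + 1) ∧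
    (D'.st .X).length = Nat.size x.length ∧
    (D'.st .K).length = (Nat.size x.length + 1) ^ e ∧
    D'.st .Z = (List.replicate ((Nat.size x.length + 1) ^ e₁) DA.zero).map .ltr ∧
    D'.st .Y = List.zipWith .pr (List.replicate (6 * (Nat.size x.length + 1) ^ e₁) false)
      (List.replicate (6 * (Nat.size x.length + 1) ^ e₁) false)

/-- Preparation of the simulation (from `StERules`, `StECopy`, `StEList`, `StETape`, `StEAdv`).

Proof. Composition. `ZR` is first `(s.map bitL).map ltr`, then `z.map ltr` is put before it, then
`mark`. With `zl = []`, `al = []`. The input head goes to position `0` and then to `s.length`. -/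
def StELoad : Prop := ∀ (G : Type) [Finite G] (x : List Bool) (sp m q k : ℕ) (z : List DA)
  (h s : List Bool) (D : Data (EG G) EN), D.le sp → EInv x m q k D → EPre z h s D →
  s.length < x.length → z.length + s.length + 1 ≤ sp →
  Ends x (loadE (G := G)) sp D fun _ D' => ERdy x z s m q k D' ∧ Fr simSt D D'

/-- The virtual symbol and the moves of the virtual head (from `StERules`, `StCount`).

Proof. Let `w = eword z (s ++ x.drop s.length) m`. Its length is `|z| + n + 2 ^ m + |advOf z|`, the
letter number `i` is `inl (some _)` of `(z ++ s.map bitL)[i]` for `i < |z| + |s|`, of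
`bitL x[i - |z|]` for `|z| + |s| ≤ i < |z| + n`, `inl none` for `|z| + n ≤ i < |z| + n + 2 ^ m`, and then the
advice bits. Position `p ≥ 1` carries the letter number `p - 1`. Moves (see `headE`): in the mode `z`
the stack `ZR` is not empty; if it becomes empty, the input head goes from `|s|` to `|s| + 1` and the
counter `X` from `1…1` to `0…0`. In the mode `x` the counter is smaller than `2 ^ q - 1` because
`|s| + 1 + val lx ≤ n < 2 ^ q`; to the left: underflow iff the position is `|s| + 1`, and then one
symbol of `ZL` (which is not empty) goes to `ZR`. In the mode `p`: overflow iff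
`val lp = 2 ^ m - 1`; underflow iff `val lp = 0`, and then the input head goes to position `n` and
the counter `X` is decreased (no underflow, as `|s| < n`). In the mode `v`: to the right nothing
happens at the end (`movePos`); to the left, if `AL` is empty, `P` goes from `0…0` to `1…1`. -/
def StEHead : Prop := ∀ (G : Type) [Finite G] (x : List Bool) (sp m q : ℕ) (z : List DA)
  (s : List Bool) (μ : EM) (D : Data (EG G) EN) (vp : ℕ), D.le sp → D.st .T = [] →
  ERep x z s m q μ D vp → s.length < x.length → x.length < 2 ^ q → z.length + s.length + 1 ≤ sp →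
  (Ends x (symE (G := G) μ) sp D fun a D' =>
    a = inSym (eword z (s ++ x.drop s.length) m) vp ∧ D' = D) ∧
  ∀ dir : Dir, Ends x (headE (G := G) μ dir) sp D fun μ' D' =>
    ERep x z s m q μ' D' (movePos (eword z (s ++ x.drop s.length) m).length dir vp) ∧
      Fr headSt D D'

/-- One step of `V` (from `StEHead`).

Proof. `ends_seq`; the symbol popped from `WR` is `cf.T cf.h` (`WRep`). `ERep` does not depend on
`WL`, `WR`. (For `WRep` of the new lists see `DVStep.wrep_zmove`, it is not needed here.) -/
def StEStep : Prop := ∀ (V : TM VB) [Finite V.G] (x : List Bool) (sp m q : ℕ) (z : List DA)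
  (s : List Bool) (μ : EM) (D : Data (EG V.G) EN) (cf : Cfg V.Q V.G) (wl wr : List V.G), D.le sp →
  D.st .T = [] → ERep x z s m q μ D cf.p → s.length < x.length → x.length < 2 ^ q →
  z.length + s.length + 1 ≤ sp → D.st .WL = wl.map .work → D.st .WR = wr.map .work →
  WRep V cf wl wr → wl.length + 1 ≤ sp → wr.length + 1 ≤ sp → 2 ≤ sp → V.out cf.q = none →
  Ends x (stepE V cf.q μ) sp D fun r D' =>
    r.1 = (V.next (eword z (s ++ x.drop s.length) m) false cf).q ∧
    ERep x z s m q r.2 D' (V.next (eword z (s ++ x.drop s.length) m) false cf).p ∧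
    D'.st .WL = (zmove V
      (V.δ false cf.q (inSym (eword z (s ++ x.drop s.length) m) cf.p) (cf.T cf.h)).2.1
      (V.δ false cf.q (inSym (eword z (s ++ x.drop s.length) m) cf.p) (cf.T cf.h)).2.2.2
      wl wr).1.map .work ∧
    D'.st .WR = (zmove V
      (V.δ false cf.q (inSym (eword z (s ++ x.drop s.length) m) cf.p) (cf.T cf.h)).2.1
      (V.δ false cf.q (inSym (eword z (s ++ x.drop s.length) m) cf.p) (cf.T cf.h)).2.2.2
      wl wr).2.map .work ∧
    Fr (.WL :: .WR :: headSt) D D'

/-- The simulation (from `StEStep`, `StERules`, `StZip`, `StCount`, `StEAdv`).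

Proof. Invariant after `t < 2 ^ k` rounds: the state is `(V.run w _ t).q`, the mode `μ` with
`ERep … μ D (V.run w _ t).p`, the lists on `WL`, `WR` are `zrun V w t` (`StZip`: length at most `sV`),
`WRep` for them (`DVStep.wrep_zmove`), the clock `K` has `k` digits and value `t`, the machine has
not stopped before time `t`, `T` is empty, and the frame condition. Measure `2 ^ k - t`. If the
machine has stopped at time `t` then the output does not change later (`FContr.run_stop`). Overflow
iff `t = 2 ^ k - 1`. Compare `DSim.lean` for the same proof for the other machine. From `ERep` one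
gets the lengths of `P`, `X` and `D.pos ≤ n + 1`. -/
def StESim : Prop := ∀ (V : TM VB) [Finite V.G] [Finite V.Q] (x : List Bool) (sp sV m q k : ℕ)
  (z : List DA) (s : List Bool) (D : Data (EG V.G) EN), D.le sp → ERdy x z s m q k D →
  s.length < x.length → x.length < 2 ^ q → z.length + s.length + 1 ≤ sp →
  V.SpaceLe (eword z (s ++ x.drop s.length) m) sV → sV + 2 ≤ sp →
  Ends x (simE V) sp D fun b D' => (b = true ↔ EAcc V x m k z s) ∧ EInv x m q k D' ∧
    Fr simSt D D'

/-- The space for all the virtual words. -/
def ESp (V : TM VB) (x : List Bool) (m l sV : ℕ) : Prop :=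
  ∀ (z : List DA) (s : List Bool), z.length = l → s.length = 6 * l →
    V.SpaceLe (eword z (s ++ x.drop s.length) m) sV

/-- One round of the counting loop (from `StELoad`, `StESim`, `StEScan`, `StEList`, `StERules`).

Proof. `StELoad` and `StESim` give the result of `evalE` with the frame condition; the inner product
by `StEScan` and `StEList` (`false ^^ dot h s = dot h s`, the stack `Y` is put back, so the data do
not change: `Function.update_eq_self`); then the counter. -/
def StEAgree : Prop := ∀ (V : TM VB) [Finite V.G] [Finite V.Q] (x : List Bool)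
  (sp sV m q k l : ℕ) (z : List DA) (h s c : List Bool) (D : Data (EG V.G) EN), D.le sp →
  EInv x m q k D → EPre z h s D → z.length = l → s.length = 6 * l → D.st .C = c.map .bit →
  6 * l < x.length → x.length < 2 ^ q → 7 * l + 1 ≤ sp → ESp V x m l sV → sV + 2 ≤ sp →
  Ends x (agreeE V) sp D fun r D' => EInv x m q k D' ∧ EPre z h s D' ∧
    ((¬ (EAcc V x m k z s ↔ dot h s = true) ∧ r = none ∧ D'.st .C = c.map .bit) ∨
      ((EAcc V x m k z s ↔ dot h s = true) ∧
        r = (if (cstep true c).2 then some false else none) ∧
        D'.st .C = (cstep true c).1.map .bit))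

/-- The counting loop (from `StEAgree`, `StERules`, `StETape`, `StEScan`, `StEList`, `StCount`,
`StEOdo`).

Proof. After `resetE` the stack `C` is `c₀ = replicate (5 l - 1) false ++ replicate l true ++ [false]`,
with value `2 ^ (6 l - 1) - 2 ^ (5 l - 1)` and length `6 l`. Loop invariant (`ends_iter` in `loopE`): for
some `v < 2 ^ (6 l)` the word `s` is `lst (6 l) v`, and the value of the counter `c` (length `6 l`) is
`val c₀ + Nat.count p v` with `p v = (EAcc V x m k z (lst (6 l) v) ↔ dot h (lst (6 l) v) = true)`
(`open Classical`); measure `2 ^ (6 l) - v`. If the counter has an overflow in round `v`, then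
`Nat.count p (v + 1) = 2 ^ (6 l) - val c₀ = 2 ^ (6 l - 1) + 2 ^ (5 l - 1)`, so the number of agreements is
at least this (`Nat.count_monotone`). If `s` has an overflow then `v + 1 = 2 ^ (6 l)`, and
`val c₀ + Nat.count p (2 ^ (6 l)) < 2 ^ (6 l)` (`val_lt`). `StEOdo` identifies
`Nat.count p (2 ^ (6 l))` and `ENum`. -/
def StECount : Prop := ∀ (V : TM VB) [Finite V.G] [Finite V.Q] (x : List Bool)
  (sp sV m q k l : ℕ) (z : List DA) (h s : List Bool) (D : Data (EG V.G) EN), D.le sp →
  EInv x m q k D → EPre z h s D → z.length = l → s.length = 6 * l → 1 ≤ l →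
  6 * l < x.length → x.length < 2 ^ q → 7 * l + 1 ≤ sp → ESp V x m l sV → sV + 2 ≤ sp →
  Ends x (countE V) sp D fun b D' => EInv x m q k D' ∧ (∃ s' : List Bool, EPre z h s' D') ∧
    (b = true ↔ ENum V x m k l z h < 2 ^ (6 * l - 1) + 2 ^ (5 * l - 1))

/-- The loop over `z` (from `StECount`, `StERules`, `StEScan`, `StEList`, `StEOdo`).

Proof. Loop invariant: `z` has length `l`, and all `z'` of length `l` with `lval z' < lval z` satisfy
the inequality; measure `8 ^ l - lval z`. If the step has an overflow then `lval z + 1 = 8 ^ l`, so all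
`z'` are covered (`lval z' ≤ lval z`, injectivity). -/
def StEGood : Prop := ∀ (V : TM VB) [Finite V.G] [Finite V.Q] (x : List Bool)
  (sp sV m q k l : ℕ) (z : List DA) (h s : List Bool) (D : Data (EG V.G) EN), D.le sp →
  EInv x m q k D → EPre z h s D → z.length = l → s.length = 6 * l → 1 ≤ l →
  6 * l < x.length → x.length < 2 ^ q → 7 * l + 1 ≤ sp → ESp V x m l sV → sV + 2 ≤ sp →
  Ends x (goodE V) sp D fun b D' => EInv x m q k D' ∧
    (∃ (z' : List DA) (s' : List Bool), z'.length = l ∧ EPre z' h s' D') ∧
    (b = true ↔ EGood V x m k l h)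

/-- The search (from `StEGood`, `StEScan`, `StEList`, `StEOdo`).

Proof. Loop invariant: `h = lst (6 l) v` for some `v < 2 ^ (6 l)` such that no smaller number is
good; measure `2 ^ (6 l) - v`. If `h` is good, `sel` is `v` (`Nat.find`); if there is an overflow, no
number is good, `sel` is `0`, and the new `h` is `lst (6 l) 0`. -/
def StESearch : Prop := ∀ (V : TM VB) [Finite V.G] [Finite V.Q] (x : List Bool)
  (sp sV m q k l : ℕ) (z : List DA) (s : List Bool) (D : Data (EG V.G) EN), D.le sp →
  EInv x m q k D → EPre z (List.replicate (6 * l) false) s D → z.length = l →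
  s.length = 6 * l → 1 ≤ l →
  6 * l < x.length → x.length < 2 ^ q → 7 * l + 1 ≤ sp → ESp V x m l sV → sV + 2 ≤ sp →
  Ends x (searchE V) sp D fun _ D' => EInv x m q k D' ∧
    ∃ (z' : List DA) (s' : List Bool), EPre z' (EFind V x m k l) s' D'

/-- The machine (from `StESetup`, `StETape`, `StESearch`, `StEOdo`).

Proof. Composition. After `leftE` and `skipE` the position is `min (6 l) (n + 1)`, after one more move
it is `min (6 l + 1) (n + 1)`, so the symbol is `right` iff `n ≤ 6 l`. `n < 2 ^ size n`
(`Nat.lt_size_self`). -/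
def StETotal : Prop := ∀ (V : TM VB) [Finite V.G] [Finite V.Q] (d e e₁ : ℕ) (x : List Bool)
  (sp sV : ℕ), ESp V x ((Nat.size x.length + 1) ^ (d + 1)) ((Nat.size x.length + 1) ^ e₁) sV →
  (Nat.size x.length + 1) ^ (d + 1) ≤ sp → (Nat.size x.length + 1) ^ e ≤ sp →
  7 * (Nat.size x.length + 1) ^ e₁ + 1 ≤ sp → Nat.size x.length + 1 ≤ sp → sV + 2 ≤ sp →
  Ends x (mainE V d e e₁) sp .init fun b _ => 6 * (Nat.size x.length + 1) ^ e₁ < x.length →
    b = dot (EFind V x ((Nat.size x.length + 1) ^ (d + 1)) ((Nat.size x.length + 1) ^ e)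
      ((Nat.size x.length + 1) ^ e₁)) x

end Pool.Agent.Lib.MP_9dcf40_lc
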